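import Pool.Agent.X299.Z.UMain

/-!
# The zero-one law for the conjecture of Mumford and Tate
-/

open CategoryTheory AlgebraicGeometry TensorProduct Filter Topology

universe u v w

namespace Pool.Agent.X299

open Module
open Pool.Agent.H914 Pool.Agent.H914.VarClass Pool.Agent.H914.VarClass.Obj
  Pool.Agent.H914.WeilCohomology Pool.Agent.H281R3.HT Pool.Agent.TH125.Gal
open Pool.Agent.Y129 (pw pj PowerAction TG tateClasses CC cycRank nontrivial_pw one_algSpan)
open Pool.Agent.Y133.Half (PH Sys ClassPred pwIso129)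
open Pool.Agent.W536.RR

variable {k : Type u} [Field k] {𝒱 : VarClass k} {ops : CycleOps 𝒱}

lemma gramRank_eq {K A : Type*} [Field K] [Ring A] [Algebra K A] [FiniteDimensional K A]
    (tr : A →ₗ[K] K) (S : Set A) : gramRank tr S = formRank tr (Submodule.span K S) := by
  set M := Submodule.span K S with hM
  let f : M →ₗ[K] (S → K) := LinearMap.pi fun b => tr ∘ₗ LinearMap.mulRight K (b : A) ∘ₗ M.subtype
  let g : M →ₗ[K] M →ₗ[K] K := ((LinearMap.mul K A).compr₂ tr).domRestrict₁₂ M M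
  have hf : ∀ (a : M) (b : S), f a b = tr (a * b) := fun a b => rfl
  have hg : ∀ a b : M, g a b = tr (a * b) := fun a b => rfl
  have h1 : LinearMap.range f = Submodule.span K (Set.range fun a b : S => tr (a * b)) := by
    apply le_antisymm
    · rintro _ ⟨⟨a, ha⟩, rfl⟩
      induction ha using Submodule.span_induction with
      | mem a ha => exact Submodule.subset_span ⟨⟨a, ha⟩, rfl⟩
      | zero =>
        have h : f ⟨0, Submodule.zero_mem _⟩ = 0 := map_zero f
        rw [h]; exact Submodule.zero_mem _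
      | add x y hx' hy' hx hy =>
        have h : f ⟨x + y, Submodule.add_mem _ hx' hy'⟩ = f ⟨x, hx'⟩ + f ⟨y, hy'⟩ :=
          map_add f ⟨x, hx'⟩ ⟨y, hy'⟩
        rw [h]; exact Submodule.add_mem _ hx hy
      | smul r x hx' hx =>
        have h : f ⟨r • x, Submodule.smul_mem _ _ hx'⟩ = r • f ⟨x, hx'⟩ := map_smul f r ⟨x, hx'⟩
        rw [h]; exact Submodule.smul_mem _ _ hx
    · rw [Submodule.span_le]
      rintro _ ⟨a, rfl⟩
      exact ⟨⟨a, Submodule.subset_span a.2⟩, rfl⟩
  have h2 : LinearMap.ker f = LinearMap.ker g := by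
    ext a
    rw [LinearMap.mem_ker, LinearMap.mem_ker]
    constructor
    · intro h
      apply LinearMap.ext
      rintro ⟨b, hb⟩
      rw [hg, LinearMap.zero_apply]
      change tr (a * b) = 0
      induction hb using Submodule.span_induction with
      | mem b hb =>
        have h3 := congrFun h ⟨b, hb⟩
        exact h3
      | zero => rw [mul_zero, map_zero]
      | add x y _ _ hx hy => rw [mul_add, map_add, hx, hy, add_zero]
      | smul r x _ hx => rw [mul_smul_comm, map_smul, hx, smul_zero]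
    · intro h
      funext b
      have h3 := LinearMap.congr_fun h ⟨b, Submodule.subset_span b.2⟩
      exact h3
  have h3 := LinearMap.finrank_range_add_finrank_ker f
  have h4 := LinearMap.finrank_range_add_finrank_ker g
  rw [h2] at h3
  rw [gramRank, ← h1, formRank]
  change finrank K (LinearMap.range f) = finrank K (LinearMap.range g)
  omega

section AH

open Pool.Agent.Y121.AH

variable {T : HodgeTheory ops} {X : 𝒱.Obj} (p : Place.{u, w} T X)

/-- The linear combinations of Hodge classes. -/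
noncomputable def HH (n : ℕ) : Submodule p.V.K (p.V.H (pw X n)) :=
  Submodule.span p.V.K (p.E.E (pw X n) '' ((hodgeSys T).C (pw X n) : Set (T.W.H (pw X n))))

lemma powSys_hodge (T : HodgeTheory ops) (X : 𝒱.Obj) :
    PowSys T.W X fun n => (hodgeSys T).C (pw X n) :=
  powSys_of_sys (T := hodgeSys T) (fun _ => ClassPred.alg_le) X

lemma powSys_HH : PowSys p.V X (HH p) := powSys_span p.cyc (powSys_hodge T X)

lemma hodge_nondeg {Z : 𝒱.Obj} {x : T.W.H Z} (hx : x ∈ (hodgeSys T).C Z)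
    (h : ∀ y ∈ (hodgeSys T).C Z, T.W.tr Z (x * y) = 0) : x = 0 :=
  q_nondeg_sys (Q := hodgePred T) (fun h => h) (lifts_hodge T) hx h

lemma finrank_HH (n : ℕ) :
    finrank p.V.K (HH p n) = finrank T.W.K ((hodgeSys T).C (pw X n)) :=
  (span_nondeg p.full (fun _ hx h => hodge_nondeg hx h)).1

lemma powSys_cm : PowSys p.V X fun n => TG p.V X p.χ p.ρ n ⊓ HH p n :=
  (powSys_TG p.act).inf (powSys_HH p)

lemma exists_top_cm [Nontrivial (T.W.H X)] :
    ∃ z : p.V.H X, z ∈ TG p.V X p.χ p.ρ 0 ⊓ HH p 0 ∧ p.V.tr X z = 1 := by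
  obtain ⟨l, hl, hl1⟩ := exists_tr_hodge T X
  have hne : p.E.c ^ X.dim ≠ 0 := pow_ne_zero _ p.E.ne
  have h1 : p.E.E X l ∈ HH p 0 :=
    Submodule.subset_span ⟨l, ClassPred.sp_of (Q := hodgePred T) hl, rfl⟩
  have h2 : p.E.E X l ∈ TG p.V X p.χ p.ρ 0 := top_TG p.act (p.E.gr hl.1)
  have h3 : (p.E.c ^ X.dim)⁻¹ • p.E.E X l ∈ TG p.V X p.χ p.ρ 0 ⊓ HH p 0 :=
    Submodule.smul_mem (TG p.V X p.χ p.ρ 0 ⊓ HH p 0) _ ⟨h2, h1⟩
  refine ⟨(p.E.c ^ X.dim)⁻¹ • p.E.E X l, h3, ?_⟩
  rw [map_smul, p.full.tr, hl1, map_one, mul_one, smul_eq_mul, inv_mul_cancel₀ hne]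

/-- The system of the classes which are Tate classes and linear combinations of Hodge classes. -/
noncomputable def cmSys [Nontrivial (T.W.H X)] : Sys p.V :=
  sysOf (powSys_cm p) (exists_top_cm p)

lemma cmSys_pw [Nontrivial (T.W.H X)] (n : ℕ) :
    (cmSys p).C (pw X n) = TG p.V X p.χ p.ρ n ⊓ HH p n := hull_pw (powSys_cm p) n

lemma cmSys_top [Nontrivial (T.W.H X)] : ∃ l ∈ (cmSys p).C X, p.V.tr X l = 1 := by
  obtain ⟨z, hz, hz1⟩ := exists_top_cm p
  exact ⟨z, (cmSys_pw p 0).symm ▸ hz, hz1⟩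

variable {p}

/-- The finite case for Tate classes. -/
theorem HH_of_genBy [Nontrivial (T.W.H X)] {S' : Sys p.V} {P : 𝒱.Obj} {m : ℕ}
    (θ : P ≅ Pool.Agent.Y133.Half.pw X m) (hP : GenBy (cmSys p) S' X P) (n : ℕ) :
    S'.C (pw X n) ≤ HH p n := by
  intro y hy
  obtain ⟨ι, s, l, b, hyb, h⟩ := descent p.E p.full p.emb y
  rw [hyb]
  refine Submodule.sum_mem _ fun a ha => Submodule.smul_mem _ _ (Submodule.subset_span
    ⟨b a, ?_, rfl⟩)
  apply hodge_of_JJ
  refine h (JJ T (pw X n)) (fun M hM hME => ?_) a ha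
  refine JJ_of_fix M (S'.even hy) (fix_of_genBy M (S := cmSys p) ?_ θ hP hy)
  intro Z x hx z
  have h0 : hull p.V X (fun n => TG p.V X p.χ p.ρ n ⊓ HH p n) Z ≤
      Submodule.span p.V.K (p.E.E Z '' ((hodgeSys T).C Z : Set (T.W.H Z))) := by
    rw [hull, Submodule.span_le]
    rintro _ ⟨m, f, hf, x, hx, rfl⟩
    exact CC_span p.cyc hf (G := (hodgeSys T).C (pw X m)) (G' := (hodgeSys T).C Z)
      (fun g hg a ha => CC_apply (T := hodgeSys T) (fun Z => ClassPred.alg_le) hg ha) hx.2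
  have h1 : x ∈ Submodule.span p.V.K (p.E.E Z '' ((hodgeSys T).C Z : Set (T.W.H Z))) := h0 hx
  clear hx
  induction h1 using Submodule.span_induction with
  | mem x hx =>
    obtain ⟨c, hc, rfl⟩ := hx
    rw [hME]
    refine ClassPred.sp_ind (Q := hodgePred T)
      (q := fun c => gz T Z z (em T.W ℂ c) = em T.W ℂ c) ?_ ?_ ?_ hc
    · intro j c hc; exact gz_hodge z hc
    · rw [em_zero, map_zero]
    · intro a b ha hb; rw [em_add, map_add, ha, hb]
  | zero => rw [map_zero, map_zero]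
  | add a b _ _ ha hb => rw [map_add, map_add, ha, hb]
  | smul r a _ ha => rw [M.semi, map_smul, ha]

variable (p)

/-- **The zero-one law for the conjecture of Mumford and Tate.** -/
theorem mt_place [Nontrivial (T.W.H X)] :
    (∀ n, (cmSys p).a (pw X n) ≤ finrank p.V.K (TG p.V X p.χ p.ρ n) ∧
      (cmSys p).a (pw X n) ≤ finrank T.W.K ((hodgeSys T).C (pw X n))) ∧
    (((∀ n, TG p.V X p.χ p.ρ n = HH p n ∧
        (cmSys p).a (pw X n) = finrank p.V.K (TG p.V X p.χ p.ρ n)) ∧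
        TatePerfect p.V X p.χ p.ρ) ∨
      Tendsto (fun n => ((cmSys p).a (pw X n) : ℝ) / (max (finrank p.V.K (TG p.V X p.χ p.ρ n))
        (finrank T.W.K ((hodgeSys T).C (pw X n))) : ℕ)) atTop (𝓝 0)) := by
  have h1 : ∀ n, (cmSys p).a (pw X n) ≤ finrank p.V.K (TG p.V X p.χ p.ρ n) := by
    intro n
    refine (formRank_le_of _ _).trans ?_
    rw [cmSys_pw]
    exact Submodule.finrank_mono inf_le_left
  have h2 : ∀ n, (cmSys p).a (pw X n) ≤ finrank T.W.K ((hodgeSys T).C (pw X n)) := by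
    intro n
    refine (formRank_le_of _ _).trans ?_
    rw [cmSys_pw, ← finrank_HH]
    exact Submodule.finrank_mono inf_le_right
  have hnt : Nontrivial (p.V.H X) := by
    obtain ⟨z, -, hz⟩ := exists_top_cm p
    refine ⟨⟨z, 0, fun h => ?_⟩⟩
    rw [h, map_zero] at hz
    exact zero_ne_one hz
  refine ⟨fun n => ⟨h1 n, h2 n⟩, ?_⟩
  -- Tate classes
  have hT := powSys_TG p.act
  have hST : ∀ Z, (cmSys p).C Z ≤ (sysOf hT (exists_top p.act hnt)).C Z :=
    fun Z => hull_mono (fun n => inf_le_left) Z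
  have hpw : ∀ n, (sysOf hT (exists_top p.act hnt)).C (pw X n) =
      TG p.V X p.χ p.ρ n := fun n => hull_pw hT n
  rcases growth_pow hST (cmSys_top p) with ⟨m, P, ⟨θ⟩, hP⟩ | h3
  swap
  · right
    refine tendsto_of_le (h3.congr fun n => ?_) (fun n => le_max_left _ _) h1
    rw [hpw]
  have hTH : ∀ n, TG p.V X p.χ p.ρ n ≤ HH p n := fun n => by
    rw [← hpw]; exact HH_of_genBy θ hP n
  -- Hodge classes
  have htopH : ∃ z ∈ HH p 0, p.V.tr X z = 1 := by
    obtain ⟨z, hz, hz1⟩ := exists_top_cm p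
    exact ⟨z, hz.2, hz1⟩
  have hST' : ∀ Z, (cmSys p).C Z ≤ (sysOf (powSys_HH p) htopH).C Z :=
    fun Z => hull_mono (fun n => inf_le_right) Z
  have hpw' : ∀ n, (sysOf (powSys_HH p) htopH).C (pw X n) = HH p n :=
    fun n => hull_pw (powSys_HH p) n
  rcases growth_pow hST' (cmSys_top p) with ⟨m', P', ⟨θ'⟩, hP'⟩ | h4
  swap
  · right
    refine tendsto_of_le (h4.congr fun n => ?_) (fun n => le_max_right _ _) h2
    rw [hpw', finrank_HH]
  have hHT : ∀ n, HH p n ≤ TG p.V X p.χ p.ρ n := fun n => by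
    rw [← hpw']
    exact tate_of_genBy p.act (fun n => (cmSys_pw p n).trans_le inf_le_left) θ' hP' n
  have h5 : ∀ n, TG p.V X p.χ p.ρ n = HH p n := fun n => le_antisymm (hTH n) (hHT n)
  have h6 : ∀ n, (cmSys p).C (pw X n) = HH p n := by
    intro n
    rw [cmSys_pw, h5, inf_idem]
  left
  have h7 : ∀ n, (cmSys p).a (pw X n) = finrank T.W.K ((hodgeSys T).C (pw X n)) := fun n =>
    a_eq_finrank p.full (fun _ hx h => hodge_nondeg hx h) (h6 n)
  refine ⟨fun n => ⟨h5 n, ?_⟩, ?_⟩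
  · rw [h7, ← finrank_HH, h5]
  · apply perfect_homog
    intro n c hc hc'
    rw [h5] at hc hc'
    exact (span_nondeg p.full (fun _ hx h => hodge_nondeg hx h)).2 c hc hc'

variable {p} in
/-- The homogeneous components of linear combinations of Hodge classes. -/
lemma HH_proj {n : ℕ} {y : p.V.H (pw X n)} (hy : y ∈ HH p n) (j : ℕ) :
    H914.proj (p.V.isInternal (pw X n)) (2 * j) y ∈
      Submodule.span p.V.K (p.E.E (pw X n) '' {c | IsHodge T (pw X n) j c}) := by
  induction hy using Submodule.span_induction with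
  | mem y hy =>
    obtain ⟨c, hc, rfl⟩ := hy
    rw [← R_proj]
    exact Submodule.subset_span ⟨_, ClassPred.sp_proj (Q := hodgePred T) hc j, rfl⟩
  | zero => rw [map_zero]; exact Submodule.zero_mem _
  | add x y _ _ hx hy => rw [map_add]; exact Submodule.add_mem _ hx hy
  | smul r x _ hx => rw [map_smul]; exact Submodule.smul_mem _ _ hx

lemma span_hodge_le (n j : ℕ) :
    Submodule.span p.V.K (p.E.E (pw X n) '' {c | IsHodge T (pw X n) j c}) ≤ HH p n := by
  apply Submodule.span_mono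
  rintro _ ⟨c, hc, rfl⟩
  exact ⟨c, ClassPred.sp_of (Q := hodgePred T) hc, rfl⟩

lemma span_hodge_gr (n j : ℕ) :
    Submodule.span p.V.K (p.E.E (pw X n) '' {c | IsHodge T (pw X n) j c}) ≤
      p.V.gr (pw X n) (2 * j) := by
  rw [Submodule.span_le]
  rintro _ ⟨c, hc, rfl⟩
  exact p.E.gr hc.1

lemma cm_eq_span (n : ℕ) : TG p.V X p.χ p.ρ n ⊓ HH p n =
    Submodule.span p.V.K {y | ∃ j, y ∈ tateClasses p.χ (p.V.gr (pw X n)) (p.ρ n) j ∧
      y ∈ Submodule.span p.V.K (p.E.E (pw X n) '' {c | IsHodge T (pw X n) j c})} := by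
  apply le_antisymm
  · intro x hx
    obtain ⟨s, hs⟩ := exists_comps ((powSys_cm p).even n x hx)
    rw [hs]
    exact Submodule.sum_mem _ fun j _ => Submodule.subset_span
      ⟨j, TG_proj hx.1 j, HH_proj hx.2 j⟩
  · rw [Submodule.span_le]
    rintro y ⟨j, h1, h2⟩
    exact ⟨le_iSup (fun j => tateClasses p.χ (p.V.gr (pw X n)) (p.ρ n) j) j h1,
      span_hodge_le p n j h2⟩

end AH

open Pool.Agent.Y121.AHS

variable {T : HodgeTheory ops} {X : 𝒱.Obj} (θ : GaloisTheory.{u, w} T X)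

lemma commonRank_eq [Nontrivial (T.W.H X)] [Nontrivial ((toH T).W.H X)] (n : ℕ) :
    θ.commonRank n = (cmSys θ.place).a (pw X n) := by
  have h1 : {y | ∃ j, θ.IsTate n j y ∧ θ.IsHodgeComb n j y} =
      {y | ∃ j, y ∈ tateClasses θ.place.χ (θ.place.V.gr (pw X n)) (θ.place.ρ n) j ∧
      y ∈ Submodule.span θ.place.V.K (θ.place.E.E (pw X n) ''
        {c | Pool.Agent.Y121.AH.IsHodge (toH T) (pw X n) j c})} :=
    Set.ext fun y => exists_congr fun j => and_congr (mem_tate θ n j y) Iff.rfl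
  have h2 : (cmSys θ.place).a (pw X n) = formRank (θ.place.V.tr (pw X n))
      (Submodule.span θ.place.V.K {y | ∃ j, y ∈ tateClasses θ.place.χ
        (θ.place.V.gr (pw X n)) (θ.place.ρ n) j ∧ y ∈ Submodule.span θ.place.V.K
        (θ.place.E.E (pw X n) '' {c | Pool.Agent.Y121.AH.IsHodge (toH T) (pw X n) j c})}) := by
    rw [a_eq_formRank, cmSys_pw, cm_eq_span]
  rw [h2, GaloisTheory.commonRank, h1]
  exact gramRank_eq _ _

/-- **The zero-one law for the conjecture of Mumford and Tate.** -/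
theorem mt_law [Nontrivial (T.W.H X)] :
    (∀ n, θ.commonRank n ≤ θ.act.tateDim n ∧ θ.commonRank n ≤ hodgeDim T (pw X n) ∧
      0 < hodgeDim T (pw X n)) ∧
    ((θ.MumfordTate ∧ (∀ n, θ.commonRank n = θ.act.tateDim n ∧
        θ.commonRank n = hodgeDim T (pw X n)) ∧ (θ.act.CyclotomicLines → θ.act.Semisimple)) ∨
      Tendsto (fun n => (θ.commonRank n : ℝ) / (max (θ.act.tateDim n)
        (hodgeDim T (pw X n)) : ℕ)) atTop (𝓝 0)) := by
  have hnt : Nontrivial ((toH T).W.H X) := (inferInstance : Nontrivial (T.W.H X))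
  have hd : ∀ n, hodgeDim T (pw X n) =
      finrank (toH T).W.K ((Pool.Agent.Y121.AH.hodgeSys (toH T)).C (pw X n)) := fun n => rfl
  obtain ⟨h1, h2⟩ := mt_place θ.place
  have hpos : ∀ n, 0 < hodgeDim T (pw X n) := by
    intro n
    rw [hd]
    have h7 := nontrivial_pw (W := (toH T).W) (X := X) n
    rw [Module.finrank_pos_iff]
    exact ⟨⟨⟨1, (powSys_hodge (toH T) X).alg n (one_algSpan _)⟩, 0,
      fun h => one_ne_zero (congrArg Subtype.val h)⟩⟩
  refine ⟨fun n => ⟨?_, ?_, hpos n⟩, ?_⟩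
  · rw [commonRank_eq, ← finrank_place]; exact (h1 n).1
  · rw [commonRank_eq, hd]; exact (h1 n).2
  rcases h2 with ⟨h3, h4⟩ | h3
  · left
    refine ⟨fun n j y => ⟨fun hy => ?_, fun hy => ?_⟩, fun n => ⟨?_, ?_⟩, fun hl => ?_⟩
    · have h5 := (mem_tate θ n j y).1 hy
      have h6 : y ∈ HH θ.place n := by
        rw [← (h3 n).1]
        exact le_iSup (fun j => tateClasses θ.place.χ (θ.place.V.gr (pw X n))
          (θ.place.ρ n) j) j h5
      have h7 := HH_proj h6 j
      have h8 : H914.proj (θ.place.V.isInternal (pw X n)) (2 * j) y = y := proj_same _ h5.1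
      rw [h8] at h7
      exact h7
    · rw [mem_tate]
      have h5 : y ∈ HH θ.place n := span_hodge_le θ.place n j hy
      rw [← (h3 n).1] at h5
      have h6 := TG_proj h5 j
      have h8 : H914.proj (θ.place.V.isInternal (pw X n)) (2 * j) y = y :=
        proj_same _ (span_hodge_gr θ.place n j hy)
      rw [h8] at h6
      exact h6
    · rw [commonRank_eq, ← finrank_place]; exact (h3 n).2
    · rw [commonRank_eq, (h3 n).2, (h3 n).1, finrank_HH, hd]
    · rw [PowAct.semi_iff]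
      exact semisimple_of_perfect θ.act.power h4 (θ.act.lines_iff.1 hl)
  · right
    refine h3.congr fun n => ?_
    rw [commonRank_eq, finrank_place, hd]

/-- A shorter form of the zero-one law. -/
theorem mt_law' [Nontrivial (T.W.H X)] :
    (∀ n, 0 < hodgeDim T (pw X n) ∧
      θ.commonRank n ≤ min (θ.act.tateDim n) (hodgeDim T (pw X n))) ∧
    ((θ.MumfordTate ∧ (∀ n, θ.commonRank n = max (θ.act.tateDim n) (hodgeDim T (pw X n))) ∧
        (θ.act.CyclotomicLines → θ.act.Semisimple)) ∨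
      Tendsto (fun n => (θ.commonRank n : ℝ) / (max (θ.act.tateDim n)
        (hodgeDim T (pw X n)) : ℕ)) atTop (𝓝 0)) := by
  obtain ⟨h1, h2⟩ := mt_law θ
  refine ⟨fun n => ⟨(h1 n).2.2, le_min (h1 n).1 (h1 n).2.1⟩, ?_⟩
  refine h2.imp (fun h => ⟨h.1, fun n => ?_, h.2.2⟩) id
  obtain ⟨h3, h4⟩ := h.2.1 n
  rw [← h3, ← h4, max_self]

end Pool.Agent.X299
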