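import Pool.Agent.X299.Z.RGen

/-!
# Extension of the coefficients of an action
-/

open CategoryTheory AlgebraicGeometry TensorProduct

universe u w

namespace Pool.Agent.X299

open Module
open Pool.Agent.H914 Pool.Agent.H914.VarClass Pool.Agent.H914.VarClass.Obj
  Pool.Agent.H914.WeilCohomology Pool.Agent.H281R3.HT Pool.Agent.TH125.Gal Pool.Agent.Y121.AH
open Pool.Agent.Y129 (pw pj PowerAction TG tateClasses)
open Pool.Agent.Y133.Half (PH Sys ClassPred pwIso129)

section Alg

variable {K L H : Type*} [Field K] [Field L] [Algebra K L] [AddCommGroup H] [Module K H]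
  {ι : Type*} (B : Basis ι K L)

/-- The coordinates with respect to a basis of the field extension. -/
noncomputable def coB (i : ι) : L ⊗[K] H →ₗ[K] H :=
  (TensorProduct.lid K H).toLinearMap ∘ₗ (B.coord i).rTensor H

lemma coB_tmul (i : ι) (l : L) (a : H) : coB B i (l ⊗ₜ a) = B.coord i l • a := by
  change TensorProduct.lid K H ((B.coord i).rTensor H (l ⊗ₜ a)) = _
  rw [LinearMap.rTensor_tmul, TensorProduct.lid_tmul]

lemma exists_coords (x : L ⊗[K] H) : ∃ s : Finset ι, x = ∑ i ∈ s, B i ⊗ₜ[K] coB B i x := by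
  classical
  obtain ⟨f, hf⟩ := TensorProduct.eq_repr_basis_left (N := H) B x
  refine ⟨f.support, ?_⟩
  have hcof : ∀ i, coB B i x = f i := by
    intro i
    rw [← hf, Finsupp.sum, map_sum]
    by_cases hi : i ∈ f.support
    · rw [Finset.sum_eq_single i]
      · rw [coB_tmul, Basis.coord_apply, Basis.repr_self, Finsupp.single_eq_same, one_smul]
      · intro l _ hl
        rw [coB_tmul, Basis.coord_apply, Basis.repr_self, Finsupp.single_eq_of_ne hl.symm,
          zero_smul]
      · exact fun h => absurd hi h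
    · rw [Finsupp.notMem_support_iff.1 hi]
      refine Finset.sum_eq_zero fun l hl => ?_
      have hli : i ≠ l := by rintro rfl; exact hi hl
      rw [coB_tmul, Basis.coord_apply, Basis.repr_self, Finsupp.single_eq_of_ne hli, zero_smul]
  conv_lhs => rw [← hf]
  rw [Finsupp.sum]
  exact Finset.sum_congr rfl fun i _ => by rw [hcof]

lemma mem_base_of_coords {p : Submodule K H} {x : L ⊗[K] H} (h : ∀ i, coB B i x ∈ p) :
    x ∈ p.baseChange L := by
  obtain ⟨s, hs⟩ := exists_coords B x
  rw [hs]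
  exact Submodule.sum_mem _ fun i _ => Submodule.tmul_mem_baseChange_of_mem _ (h i)

lemma coB_induction {P : L ⊗[K] H → Prop} (h0 : P 0) (hadd : ∀ x y, P x → P y → P (x + y))
    (h : ∀ (l : L) (a : H), P (l ⊗ₜ a)) (x : L ⊗[K] H) : P x := by
  induction x using TensorProduct.induction_on with
  | zero => exact h0
  | add x y hx hy => exact hadd _ _ hx hy
  | tmul l a => exact h l a

end Alg

variable {k : Type u} [Field k] {𝒱 : VarClass k} {ops : CycleOps 𝒱}
  {V : WeilCohomology.{u, 0} ops} {L : Type} [Field L] [Algebra V.K L] {X : 𝒱.Obj}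
  {Γ : Type w} [Group Γ]
  {χ : Γ →* V.Kˣ} {ρ : ∀ n, Γ →* (V.H (pw X n) ≃ₐ[V.K] V.H (pw X n))}

lemma coB_gr {ι : Type*} (B : Basis ι V.K L) {Z : 𝒱.Obj} {j : ℕ} {x : (baseW V L).H Z}
    (hx : x ∈ (baseW V L).gr Z j) (i : ι) :
    coB B i (show L ⊗[V.K] V.H Z from x) ∈ V.gr Z j := by
  have hx' : x ∈ (V.gr Z j).baseChange L := hx
  refine base_induction (P := fun x => coB B i x ∈ V.gr Z j) ?_ ?_ ?_ hx'
  · rw [map_zero]; exact Submodule.zero_mem _
  · intro x y hx hy; rw [map_add]; exact Submodule.add_mem _ hx hy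
  · intro l a ha
    rw [coB_tmul]
    exact Submodule.smul_mem _ _ ha

variable (L) in
/-- The character with extended coefficients. -/
noncomputable def chB (χ : Γ →* V.Kˣ) : Γ →* (baseW V L).Kˣ :=
  (Units.map (algebraMap V.K L).toMonoidHom : V.Kˣ →* Lˣ).comp χ

variable (L) in
/-- The action with extended coefficients, for one element. -/
noncomputable def rhB1 (ρ : ∀ n, Γ →* (V.H (pw X n) ≃ₐ[V.K] V.H (pw X n))) (n : ℕ) (g : Γ) :
    (baseW V L).H (pw X n) ≃ₐ[(baseW V L).K] (baseW V L).H (pw X n) :=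
  (Algebra.TensorProduct.congr (AlgEquiv.refl : L ≃ₐ[L] L) (ρ n g) :
    L ⊗[V.K] V.H (pw X n) ≃ₐ[L] L ⊗[V.K] V.H (pw X n))

lemma rhB1_tmul (n : ℕ) (g : Γ) (l : L) (a : V.H (pw X n)) :
    rhB1 L ρ n g (show (baseW V L).H (pw X n) from (l ⊗ₜ[V.K] a)) =
      (show (baseW V L).H (pw X n) from (l ⊗ₜ[V.K] ρ n g a)) := by
  have h : (Algebra.TensorProduct.congr (AlgEquiv.refl : L ≃ₐ[L] L) (ρ n g) :
    L ⊗[V.K] V.H (pw X n) ≃ₐ[L] L ⊗[V.K] V.H (pw X n)) (l ⊗ₜ[V.K] a) = l ⊗ₜ[V.K] ρ n g a := by
    rw [Algebra.TensorProduct.congr_apply, Algebra.TensorProduct.map_tmul]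
    rfl
  exact h

variable (L) in
/-- The action with extended coefficients. -/
noncomputable def rhB (ρ : ∀ n, Γ →* (V.H (pw X n) ≃ₐ[V.K] V.H (pw X n))) (n : ℕ) :
    Γ →* ((baseW V L).H (pw X n) ≃ₐ[(baseW V L).K] (baseW V L).H (pw X n)) where
  toFun g := rhB1 L ρ n g
  map_one' := by
    apply AlgEquiv.ext
    intro x
    refine tmul_ind (p := fun x => rhB1 L ρ n 1 x = x) ?_ ?_ ?_ x
    · rw [map_zero]
    · intro x y hx hy; rw [map_add, hx, hy]
    · intro l a
      rw [rhB1_tmul, map_one]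
      rfl
  map_mul' g g' := by
    apply AlgEquiv.ext
    intro x
    refine tmul_ind (p := fun x => rhB1 L ρ n (g * g') x = rhB1 L ρ n g (rhB1 L ρ n g' x))
      ?_ ?_ ?_ x
    · simp only [map_zero]
    · intro x y hx hy; simp only [map_add, hx, hy]
    · intro l a
      rw [rhB1_tmul, rhB1_tmul, rhB1_tmul, map_mul]
      rfl

lemma rhB_tmul (n : ℕ) (g : Γ) (l : L) (a : V.H (pw X n)) :
    rhB L ρ n g (show (baseW V L).H (pw X n) from (l ⊗ₜ[V.K] a)) =
      (show (baseW V L).H (pw X n) from (l ⊗ₜ[V.K] ρ n g a)) := rhB1_tmul n g l a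

lemma rhB_em (n : ℕ) (g : Γ) (a : V.H (pw X n)) :
    rhB L ρ n g (em V L a) = em V L (ρ n g a) := rhB1_tmul n g 1 a

lemma chB_ex (g : Γ) : (chB L χ g : (baseW V L).K) = ex V L (χ g : V.K) := rfl

lemma ex_mul (a b : V.K) : ex V L (a * b) = ex V L a * ex V L b := map_mul (algebraMap V.K L) a b

lemma ex_pow (a : V.K) (j : ℕ) : ex V L (a ^ j) = ex V L a ^ j := map_pow (algebraMap V.K L) a j

/-- The extension of the coefficients of an action. -/
lemma PowerAction.base (h : PowerAction V X χ ρ) :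
    PowerAction (baseW V L) X (chB L χ) (rhB L ρ) where
  galois n :=
    { gr_mem := by
        intro g i a ha
        have ha' : a ∈ (V.gr (pw X n) i).baseChange L := ha
        refine base_induction (P := fun a : L ⊗[V.K] V.H (pw X n) =>
          rhB L ρ n g (show (baseW V L).H (pw X n) from a) ∈ (baseW V L).gr (pw X n) i)
          ?_ ?_ ?_ ha'
        · exact (map_zero (rhB L ρ n g)).symm ▸ Submodule.zero_mem _
        · intro x y hx hy
          exact (map_add (rhB L ρ n g) x y).symm ▸ Submodule.add_mem _ hx hy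
        · intro l a ha
          have h1 := rhB_tmul (V := V) (ρ := ρ) n g l a
          refine h1.symm ▸ ?_
          exact Submodule.tmul_mem_baseChange_of_mem _ ((h.galois n).gr_mem g i a ha)
      tr_act := by
        intro g a
        refine tmul_ind (p := fun a => (baseW V L).tr (pw X n) (rhB L ρ n g a) =
          (chB L χ g : (baseW V L).K) ^ (pw X n).dim * (baseW V L).tr (pw X n) a) ?_ ?_ ?_ a
        · simp only [map_zero, mul_zero]
        · intro x y hx hy; simp only [map_add, hx, hy, mul_add]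
        · intro l a
          rw [rhB_tmul, tmul_eq, tmul_eq, map_smul, map_smul, em_tr, em_tr, (h.galois n).tr_act,
            ex_mul, ex_pow, chB_ex, smul_eq_mul, smul_eq_mul]
          ring
      cl_act := by
        rintro g j c ⟨z, hz, rfl⟩
        obtain ⟨c', ⟨z', hz', rfl⟩, h1⟩ := (h.galois n).cl_act g j _ ⟨z, hz, rfl⟩
        refine ⟨_, ⟨z', hz', rfl⟩, ?_⟩
        rw [em_cl, em_cl, rhB_em, h1, em_smul, ex_pow, chB_ex]
      cl_fix := by
        rintro j c ⟨z, hz, rfl⟩
        obtain ⟨Δ, hΔ, h1⟩ := (h.galois n).cl_fix j _ ⟨z, hz, rfl⟩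
        refine ⟨Δ, hΔ, fun g hg => ?_⟩
        rw [em_cl, rhB_em, h1 g hg, em_smul, ex_pow, chB_ex] }
  proj n i := by
    intro g a
    refine tmul_ind (p := fun a : (baseW V L).H X =>
      rhB L ρ n g ((baseW V L).map (pj X n i) a) = (baseW V L).map (pj X n i) (rhB L ρ 0 g a))
      ?_ ?_ ?_ a
    · exact (congrArg (rhB L ρ n g) (map_zero _)).trans ((map_zero _).trans
        ((map_zero _).symm.trans (congrArg _ (map_zero (rhB L ρ 0 g)).symm)))
    · intro x y hx hy
      have e1 : (baseW V L).map (pj X n i) (x + y) = (baseW V L).map (pj X n i) x +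
        (baseW V L).map (pj X n i) y := map_add _ _ _
      have e2 : rhB L ρ 0 g (show (baseW V L).H (pw X 0) from x + y) =
        rhB L ρ 0 g (show (baseW V L).H (pw X 0) from x) +
          rhB L ρ 0 g (show (baseW V L).H (pw X 0) from y) := map_add (rhB L ρ 0 g) _ _
      have e3 : (baseW V L).map (pj X n i) (rhB L ρ 0 g (show (baseW V L).H (pw X 0) from x) +
          rhB L ρ 0 g (show (baseW V L).H (pw X 0) from y)) = _ := map_add _ _ _
      rw [e1, map_add, hx, hy]
      exact (congrArg _ e2).trans e3 |>.symm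
    · intro l a
      have e0 : (baseW V L).map (pj X n i) (show (baseW V L).H X from (l ⊗ₜ[V.K] a)) =
          (show (baseW V L).H (pw X n) from (l ⊗ₜ[V.K] V.map (pj X n i) a)) :=
        Algebra.TensorProduct.map_tmul _ _ _ _
      have e1 : rhB L ρ 0 g (show (baseW V L).H (pw X 0) from (l ⊗ₜ[V.K] a)) =
          (show (baseW V L).H (pw X 0) from (l ⊗ₜ[V.K] (ρ 0 g a))) := rhB_tmul 0 g l a
      have e2 : (baseW V L).map (pj X n i) (show (baseW V L).H X from
          (l ⊗ₜ[V.K] (show V.H X from ρ 0 g a))) =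
          (show (baseW V L).H (pw X n) from (l ⊗ₜ[V.K] V.map (pj X n i)
            (show V.H X from ρ 0 g a))) :=
        Algebra.TensorProduct.map_tmul _ _ _ _
      rw [e0, rhB_tmul]
      have e3 : ρ n g (V.map (pj X n i) a) = V.map (pj X n i) (show V.H X from ρ 0 g a) :=
        h.proj n i g a
      rw [e3]
      exact e2.symm.trans (congrArg _ e1.symm)

/-- Tate classes with extended coefficients. -/
lemma tate_base {n j : ℕ} {x : (baseW V L).H (pw X n)}
    (hx : x ∈ tateClasses (chB L χ) ((baseW V L).gr (pw X n)) (rhB L ρ n) j) :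
    x ∈ (tateClasses χ (V.gr (pw X n)) (ρ n) j).baseChange L := by
  obtain ⟨h1, Δ, hΔ, h2⟩ := hx
  let B := Basis.ofVectorSpace V.K L
  apply mem_base_of_coords B
  intro i
  refine ⟨coB_gr B h1 i, Δ, hΔ, fun g hg => ?_⟩
  have h3 : ∀ x : L ⊗[V.K] V.H (pw X n), coB B i (show L ⊗[V.K] V.H (pw X n) from
      rhB L ρ n g (show (baseW V L).H (pw X n) from x)) = ρ n g (coB B i x) := by
    intro x
    refine coB_induction (P := fun x => coB B i (show L ⊗[V.K] V.H (pw X n) from
      rhB L ρ n g (show (baseW V L).H (pw X n) from x)) = ρ n g (coB B i x)) ?_ ?_ ?_ x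
    · have e : rhB L ρ n g (show (baseW V L).H (pw X n) from (0 : L ⊗[V.K] V.H (pw X n))) = 0 :=
        map_zero _
      rw [e, map_zero]
      exact (map_zero (coB B i)).trans (map_zero (ρ n g)).symm
    · intro x y hx hy
      have e : rhB L ρ n g (show (baseW V L).H (pw X n) from (x + y)) =
        rhB L ρ n g (show (baseW V L).H (pw X n) from x) +
          rhB L ρ n g (show (baseW V L).H (pw X n) from y) := map_add (rhB L ρ n g) _ _
      rw [e]
      refine (map_add (coB B i) _ _).trans ?_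
      rw [hx, hy, map_add, map_add]
    · intro l a
      have e := rhB_tmul (V := V) (ρ := ρ) n g l a
      rw [e]
      refine (coB_tmul B i l _).trans ?_
      rw [coB_tmul, map_smul]
  have h4 := h3 x
  rw [← h4]
  have h5 := h2 g hg
  refine (congrArg (coB B i) h5).trans ?_
  have h6 : ((chB L χ g : (baseW V L).K) ^ j • x : (baseW V L).H (pw X n)) =
      (show (baseW V L).H (pw X n) from ((χ g : V.K) ^ j •
        (show L ⊗[V.K] V.H (pw X n) from x))) := by
    have e1 : (algebraMap V.K L (χ g : V.K)) ^ j • (show L ⊗[V.K] V.H (pw X n) from x) =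
        (χ g : V.K) ^ j • (show L ⊗[V.K] V.H (pw X n) from x) := by
      rw [← map_pow, algebraMap_smul]
    exact e1
  refine (congrArg (coB B i) h6).trans ?_
  exact map_smul (coB B i) _ _

end Pool.Agent.X299
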