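import Pool.Agent.X299.Z.Rz
import Pool.Agent.Y132.AH.Rat

/-!
# Linear combinations of Hodge classes in another cohomology theory
-/

open CategoryTheory AlgebraicGeometry TensorProduct

universe u

namespace Pool.Agent.X299

open Module
open Pool.Agent.H914 Pool.Agent.H914.VarClass Pool.Agent.H914.VarClass.Obj
  Pool.Agent.H914.WeilCohomology Pool.Agent.Y121.AH
open Pool.Agent.Y133.Half (PH Sys ClassPred)

variable {k : Type u} [Field k] {𝒱 : VarClass k} {ops : CycleOps 𝒱}

/-- The linear combinations of Hodge classes. -/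
noncomputable def HS (T : HodgeTheory ops) (L : Type) [Field L] [Algebra T.W.K L] (X : 𝒱.Obj) (j : ℕ) :
    Submodule (baseW T.W L).K ((baseW T.W L).H X) :=
  Submodule.span _ {x | ∃ c, IsHodge T X j c ∧ em T.W L c = x}

section HS

variable {T : HodgeTheory ops} {L : Type} [Field L] [Algebra T.W.K L] {X Y : 𝒱.Obj}

lemma HS_of {j : ℕ} {c : T.W.H X} (hc : IsHodge T X j c) : em T.W L c ∈ HS T L X j :=
  Submodule.subset_span ⟨c, hc, rfl⟩

lemma HS_gr {j : ℕ} {x : (baseW T.W L).H X} (hx : x ∈ HS T L X j) :
    x ∈ (baseW T.W L).gr X (2 * j) := by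
  refine (Submodule.span_le.2 ?_ : HS T L X j ≤ (baseW T.W L).gr X (2 * j)) hx
  rintro _ ⟨c, hc, rfl⟩
  exact em_gr hc.1

lemma HS_mul {i j : ℕ} {x y : (baseW T.W L).H X} (hx : x ∈ HS T L X i) (hy : y ∈ HS T L X j) :
    x * y ∈ HS T L X (i + j) := by
  induction hx using Submodule.span_induction with
  | mem x hx =>
    obtain ⟨c, hc, rfl⟩ := hx
    induction hy using Submodule.span_induction with
    | mem y hy =>
      obtain ⟨d, hd, rfl⟩ := hy
      rw [← em_mul]
      exact HS_of (hc.mul hd)
    | zero => rw [mul_zero]; exact Submodule.zero_mem _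
    | add a b _ _ ha hb => rw [mul_add]; exact Submodule.add_mem _ ha hb
    | smul r a _ ha => rw [mul_smul_comm]; exact Submodule.smul_mem _ _ ha
  | zero => rw [zero_mul]; exact Submodule.zero_mem _
  | add a b _ _ ha hb => rw [add_mul]; exact Submodule.add_mem _ ha hb
  | smul r a _ ha => rw [smul_mul_assoc]; exact Submodule.smul_mem _ _ ha

lemma HS_map (f : X ⟶ Y) {j : ℕ} {x : (baseW T.W L).H Y} (hx : x ∈ HS T L Y j) :
    (baseW T.W L).map f x ∈ HS T L X j := by
  induction hx using Submodule.span_induction with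
  | mem x hx =>
    obtain ⟨c, hc, rfl⟩ := hx
    rw [em_map]
    exact HS_of (hc.map f)
  | zero => rw [map_zero]; exact Submodule.zero_mem _
  | add a b _ _ ha hb => rw [map_add]; exact Submodule.add_mem _ ha hb
  | smul r a _ ha => rw [map_smul]; exact Submodule.smul_mem _ _ ha

lemma HS_push (f : X ⟶ Y) {j l : ℕ} (h : l + X.dim = j + Y.dim) {x : (baseW T.W L).H X}
    (hx : x ∈ HS T L X j) : (baseW T.W L).push f x ∈ HS T L Y l := by
  induction hx using Submodule.span_induction with
  | mem x hx =>
    obtain ⟨c, hc, rfl⟩ := hx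
    rw [em_push]
    exact HS_of (hc.push f h)
  | zero => rw [map_zero]; exact Submodule.zero_mem _
  | add a b _ _ ha hb => rw [map_add]; exact Submodule.add_mem _ ha hb
  | smul r a _ ha => rw [map_smul]; exact Submodule.smul_mem _ _ ha

end HS

section Comb

variable {W : WeilCohomology.{u, 0} ops} {T : HodgeTheory ops} {L : Type} [Field L]
  [Algebra W.K L] [Algebra T.W.K L] (C : Comparison (baseW W L) (baseW T.W L))
  {X Y : 𝒱.Obj}

/-- The classes which correspond to linear combinations of Hodge classes. -/
noncomputable def combPred : ClassPred W where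
  P X j y := C.e X (em W L y) ∈ HS T L X j
  gr {X j y} h := by
    have h1 := (C.gr (X := X) (i := 2 * j) (a := em W L y)).1 (HS_gr h)
    exact mem_of_em_mem (L := L) h1
  zero {X j} := by rw [em_zero, map_zero]; exact Submodule.zero_mem _
  add {X j a b} ha hb := by rw [em_add, map_add]; exact Submodule.add_mem _ ha hb
  smul {X j} r {a} ha := by
    rw [em_smul, C.semi]; exact Submodule.smul_mem _ _ ha
  cl {X j z} hz := by
    rw [← em_cl, C.cyc hz, em_cl]
    exact Submodule.smul_mem _ _ (HS_of (IsHodge.cl hz))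
  mul {X i j a b} ha hb := by rw [em_mul, map_mul]; exact HS_mul ha hb
  map {X Y} f {j a} ha := by
    rw [← em_map, C.nat]; exact HS_map f ha
  push {X Y} f {j l} h {a} ha := by
    have h1 := C.push f (em W L a)
    rw [em_push] at h1
    have h2 : C.c ^ X.dim ≠ 0 := pow_ne_zero _ C.ne
    have h3 : C.e Y (em W L (W.push f a)) = (C.c ^ X.dim)⁻¹ • (C.c ^ Y.dim •
        (baseW T.W L).push f (C.e X (em W L a))) := by
      rw [← h1, smul_smul, inv_mul_cancel₀ h2, one_smul]
    rw [h3]
    exact Submodule.smul_mem _ _ (Submodule.smul_mem _ _ (HS_push f h ha))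

/-- The realisation given by a comparison isomorphism and an embedding of the coefficients into
the complex numbers. -/
noncomputable def rlzW (τ : L →+* ℂ) : Rlz W (CW T) where
  s := (kap T.W (ratAlg T τ)).comp (C.s.toRingHom.comp (algebraMap W.K L))
  c := kap T.W (ratAlg T τ) C.c
  ne := fun h => C.ne ((map_eq_zero (kap T.W (ratAlg T τ))).1 h)
  E X := (psi T.W (ratAlg T τ) X).comp ((C.e X).toRingHom.comp
    (Algebra.TensorProduct.includeRight : W.H X →ₐ[W.K] L ⊗[W.K] W.H X).toRingHom)
  semi X r a := by
    change psi T.W (ratAlg T τ) X (C.e X (em W L (r • a))) = _ •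
      psi T.W (ratAlg T τ) X (C.e X (em W L a))
    rw [em_smul, C.semi, psi_smul]
    rfl
  gr {X i a} ha := by
    change psi T.W (ratAlg T τ) X (C.e X (em W L a)) ∈ _
    exact psi_gr _ (C.gr.2 (em_gr ha))
  nat {X Y} f b := by
    change psi T.W (ratAlg T τ) X (C.e X (em W L (W.map f b))) = (CW T).map f
      (psi T.W (ratAlg T τ) Y (C.e Y (em W L b)))
    rw [← em_map, C.nat, psi_map]
  push {X Y} f a := by
    change kap T.W (ratAlg T τ) C.c ^ X.dim •
        psi T.W (ratAlg T τ) Y (C.e Y (em W L (W.push f a))) =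
      kap T.W (ratAlg T τ) C.c ^ Y.dim • (CW T).push f
        (psi T.W (ratAlg T τ) X (C.e X (em W L a)))
    have h := congrArg (psi T.W (ratAlg T τ) Y) (C.push f (em W L a))
    rw [psi_smul, psi_smul, psi_push, em_push, map_pow, map_pow] at h
    exact h

lemma rlzW_apply (τ : L →+* ℂ) (X : 𝒱.Obj) (a : W.H X) :
    (rlzW C τ).E X a = psi T.W (ratAlg T τ) X (C.e X (em W L a)) := rfl

lemma HS_fix (τ : L →+* ℂ) {j : ℕ} {x : (baseW T.W L).H X} (hx : x ∈ HS T L X j)
    (z : (CW T).Kˣ) : gz T X z (psi T.W (ratAlg T τ) X x) = psi T.W (ratAlg T τ) X x := by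
  induction hx using Submodule.span_induction with
  | mem x hx =>
    obtain ⟨c, hc, rfl⟩ := hx
    rw [psi_em, gz_hodge z hc]
  | zero => rw [map_zero, map_zero]
  | add a b _ _ ha hb => rw [map_add, map_add, ha, hb]
  | smul r a _ ha => rw [psi_smul, map_smul, ha]

lemma comb_fix (τ : L →+* ℂ) {x : W.H X} (hx : x ∈ (combPred C).sys.C X) (z : (CW T).Kˣ) :
    gz T X z ((rlzW C τ).E X x) = (rlzW C τ).E X x := by
  refine ClassPred.sp_ind (Q := combPred C)
    (q := fun x => gz T X z ((rlzW C τ).E X x) = (rlzW C τ).E X x) ?_ ?_ ?_ hx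
  · intro j x hx
    exact HS_fix τ hx z
  · rw [map_zero, map_zero]
  · intro a b ha hb; rw [map_add, map_add, ha, hb]

end Comb

/-! ### Descent -/

section Descent

/-- The conjugates of linearly independent elements span. -/
lemma artin {K₀ L : Type} [Field K₀] [CharZero K₀] [Field L] [Algebra K₀ L] (hL : Nonempty (L →+* ℂ)) {ι : Type*} (b : ι → L)
    (hb : LinearIndependent K₀ b) (c : ι →₀ ℂ)
    (h : ∀ τ : L →+* ℂ, c.sum (fun i a => a * τ (b i)) = 0) : c = 0 := by
  classical
  have key : ∀ (n : ℕ) (c : ι →₀ ℂ), c.support.card ≤ n →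
      (∀ τ : L →+* ℂ, c.sum (fun i a => a * τ (b i)) = 0) → c = 0 := by
    intro n
    induction n with
    | zero =>
      intro c hc _
      exact Finsupp.support_eq_empty.1 (Finset.card_eq_zero.1 (Nat.le_zero.1 hc))
    | succ n ih =>
      intro c hc h
      by_contra hc0
      obtain ⟨i0, hi0⟩ := Finsupp.support_nonempty_iff.2 hc0
      have hi0' : c i0 ≠ 0 := Finsupp.mem_support_iff.1 hi0
      set e : ι →₀ ℂ := (c i0)⁻¹ • c with he
      have hei0 : e i0 = 1 := by
        rw [he, Finsupp.smul_apply, smul_eq_mul, inv_mul_cancel₀ hi0']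
      have hes : e.support ⊆ c.support := Finsupp.support_smul
      have hrel : ∀ τ : L →+* ℂ, ∑ i ∈ c.support, e i * τ (b i) = 0 := by
        intro τ
        have h1 := h τ
        rw [Finsupp.sum] at h1
        have h2 : ∑ i ∈ c.support, e i * τ (b i) =
            (c i0)⁻¹ * ∑ i ∈ c.support, c i * τ (b i) := by
          rw [Finset.mul_sum]
          exact Finset.sum_congr rfl fun i _ => by
            rw [he, Finsupp.smul_apply, smul_eq_mul, mul_assoc]
        rw [h2, h1, mul_zero]
      by_cases hq : ∀ i, ∃ q : ℚ, (q : ℂ) = e i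
      · choose q hq using hq
        obtain ⟨τ⟩ := hL
        have h1 := hrel τ
        have h2 : τ (∑ i ∈ c.support, (q i : K₀) • b i) = 0 := by
          rw [map_sum, ← h1]
          refine Finset.sum_congr rfl fun i _ => ?_
          rw [Algebra.smul_def, map_mul, map_ratCast, map_ratCast, hq]
        have h3 : ∑ i ∈ c.support, (q i : K₀) • b i = 0 := (map_eq_zero τ).1 h2
        have h4 := linearIndependent_iff'.1 hb c.support (fun i => (q i : K₀)) h3 i0 hi0
        have h5 : q i0 = 0 := by exact_mod_cast h4
        have h6 := hq i0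
        rw [h5, Rat.cast_zero, hei0] at h6
        exact zero_ne_one h6
      · push Not at hq
        obtain ⟨i1, hi1⟩ := hq
        obtain ⟨σ, hσ⟩ : ∃ σ : ℂ ≃+* ℂ, σ (e i1) ≠ e i1 := by
          by_contra hcon
          push Not at hcon
          obtain ⟨q, hq⟩ := Pool.Agent.Y132.AH.fixed_rat hcon
          exact hi1 q hq
        set d : ι →₀ ℂ := e.mapRange σ (map_zero σ) - e with hd
        have hdi : ∀ i, d i = σ (e i) - e i := fun i => by
          rw [hd, Finsupp.sub_apply, Finsupp.mapRange_apply]
        have hds : d.support ⊆ c.support.erase i0 := by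
          intro i hi
          rw [Finsupp.mem_support_iff, hdi] at hi
          rw [Finset.mem_erase]
          refine ⟨?_, ?_⟩
          · rintro rfl
            rw [hei0, map_one, sub_self] at hi
            exact hi rfl
          · by_contra hcon
            have h1 : e i = 0 := by
              by_contra h2
              exact hcon (hes (Finsupp.mem_support_iff.2 h2))
            rw [h1, map_zero, sub_self] at hi
            exact hi rfl
        have hd0 : d = 0 := by
          apply ih
          · have h1 := Finset.card_le_card hds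
            rw [Finset.card_erase_of_mem hi0] at h1
            omega
          · intro τ
            rw [Finsupp.sum_of_support_subset d (hds.trans (Finset.erase_subset _ _)) _
              (fun i _ => by rw [zero_mul])]
            have h1 := hrel τ
            have h2 := hrel ((σ.symm : ℂ →+* ℂ).comp τ)
            have h3 := congrArg σ h2
            rw [map_zero, map_sum] at h3
            have h4 : ∑ i ∈ c.support, σ (e i) * τ (b i) = 0 := by
              rw [← h3]
              refine Finset.sum_congr rfl fun i _ => ?_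
              rw [map_mul]
              congr 1
              exact (σ.apply_symm_apply _).symm
            calc ∑ i ∈ c.support, d i * τ (b i)
                = ∑ i ∈ c.support, σ (e i) * τ (b i) - ∑ i ∈ c.support, e i * τ (b i) := by
                  rw [← Finset.sum_sub_distrib]
                  exact Finset.sum_congr rfl fun i _ => by rw [hdi, sub_mul]
              _ = 0 := by rw [h4, h1, sub_zero]
        apply hσ
        have h1 := hdi i1
        rw [hd0, Finsupp.zero_apply] at h1
        exact (sub_eq_zero.1 h1.symm)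
  exact key _ c le_rfl h

variable {T : HodgeTheory ops} {L : Type} [Field L] [Algebra T.W.K L] {X : 𝒱.Obj}

/-- A class with coefficients in `L` is a linear combination of Hodge classes, if it becomes a class
of type `(j, j)` under all embeddings of the coefficients. -/
lemma HS_of_types (hL : Nonempty (L →+* ℂ)) {j : ℕ} {x : (baseW T.W L).H X}
    (hx : x ∈ (baseW T.W L).gr X (2 * j))
    (h : ∀ τ : L →+* ℂ, psi T.W (ratAlg T τ) X x ∈ T.pq X j j) : x ∈ HS T L X j := by
  classical
  let B := Basis.ofVectorSpace T.W.K L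
  obtain ⟨f, hf⟩ := TensorProduct.eq_repr_basis_left (N := T.W.H X) B
    (show L ⊗[T.W.K] T.W.H X from x)
  -- the coordinates
  let co : ∀ i, L ⊗[T.W.K] T.W.H X →ₗ[T.W.K] T.W.H X := fun i =>
    (TensorProduct.lid T.W.K (T.W.H X)).toLinearMap ∘ₗ (B.coord i).rTensor (T.W.H X)
  have hco : ∀ i l a, co i (l ⊗ₜ a) = B.coord i l • a := by
    intro i l a
    change TensorProduct.lid T.W.K (T.W.H X) ((B.coord i).rTensor (T.W.H X) (l ⊗ₜ a)) = _
    rw [LinearMap.rTensor_tmul, TensorProduct.lid_tmul]
  have hcof : ∀ i, co i (show L ⊗[T.W.K] T.W.H X from x) = f i := by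
    intro i
    rw [← hf, Finsupp.sum, map_sum]
    by_cases hi : i ∈ f.support
    · rw [Finset.sum_eq_single i]
      · rw [hco, Basis.coord_apply, Basis.repr_self, Finsupp.single_eq_same, one_smul]
      · intro l _ hl
        rw [hco, Basis.coord_apply, Basis.repr_self, Finsupp.single_eq_of_ne hl.symm, zero_smul]
      · exact fun h => absurd hi h
    · rw [Finsupp.notMem_support_iff.1 hi]
      refine Finset.sum_eq_zero fun l hl => ?_
      have hli : i ≠ l := by rintro rfl; exact hi hl
      rw [hco, Basis.coord_apply, Basis.repr_self, Finsupp.single_eq_of_ne hli, zero_smul]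
  have hgr : ∀ i, f i ∈ T.W.gr X (2 * j) := by
    intro i
    rw [← hcof]
    have hx' : x ∈ (T.W.gr X (2 * j)).baseChange L := hx
    refine base_induction (P := fun x => co i x ∈ T.W.gr X (2 * j)) ?_ ?_ ?_ hx'
    · rw [map_zero]; exact Submodule.zero_mem _
    · intro x y hx hy; rw [map_add]; exact Submodule.add_mem _ hx hy
    · intro l a ha
      rw [hco]
      exact Submodule.smul_mem _ _ ha
  have hpsi : ∀ τ : L →+* ℂ, psi T.W (ratAlg T τ) X x =
      ∑ i ∈ f.support, kap T.W (ratAlg T τ) (B i) • em T.W ℂ (f i) := by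
    intro τ
    have h1 : x = ∑ i ∈ f.support, (show (baseW T.W L).H X from (B i ⊗ₜ[T.W.K] f i)) := hf.symm
    rw [h1, map_sum]
    refine Finset.sum_congr rfl fun i _ => ?_
    rw [psi_tmul, tmul_eq]
    rfl
  have hH : ∀ i, IsHodge T X j (f i) := by
    intro i0
    refine ⟨hgr i0, ?_⟩
    by_contra hcon
    obtain ⟨φ, h1, h2⟩ := Submodule.exists_le_ker_of_notMem hcon
    have h3 : f.mapRange (fun a => (show ℂ from φ (em T.W ℂ a)))
        (by rw [em_zero, map_zero]; rfl) = 0 := by
      apply artin hL B B.linearIndependent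
      intro τ
      have h4 : φ (psi T.W (ratAlg T τ) X x) = 0 := h2 (h τ)
      rw [hpsi, map_sum] at h4
      rw [Finsupp.sum_mapRange_index (fun i => by rw [zero_mul]), Finsupp.sum]
      refine Eq.trans ?_ h4
      refine Finset.sum_congr rfl fun i _ => ?_
      rw [map_smul, smul_eq_mul, mul_comm]
      rfl
    have h5 := DFunLike.congr_fun h3 i0
    rw [Finsupp.mapRange_apply, Finsupp.zero_apply] at h5
    exact h1 h5
  have h1 : x = ∑ i ∈ f.support, (show (baseW T.W L).H X from (B i ⊗ₜ[T.W.K] f i)) := hf.symm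
  rw [h1]
  refine Submodule.sum_mem _ fun i _ => ?_
  rw [tmul_eq]
  exact Submodule.smul_mem _ _ (HS_of (hH i))

end Descent

end Pool.Agent.X299
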