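import Pool.Agent.X299.Tate.Pub
import Pool.Agent.Y121.AHS.Defs

/-!
# Realisations of the rational cohomology in theories with an action of a group: definitions
-/

open CategoryTheory AlgebraicGeometry

universe u v w

namespace Pool.Agent.X299

section Alg

variable {K L : Type*} [Field K] [Field L] {A B A' B' : Type*} [Ring A] [Ring B] [Ring A']
  [Ring B'] [Algebra K A] [Algebra L B] [Algebra K A'] [Algebra L B']

/-- The map `e` is a homomorphism of rings, it is semilinear, its image spans `B`, it respects the
degrees, and the linear forms `t` and `t'` up to the factor `c ^ d`. -/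
structure IsReal (s : K →+* L) (e : A → B) (g : ℕ → Submodule K A) (g' : ℕ → Submodule L B)
    (t : A →ₗ[K] K) (t' : B →ₗ[L] L) (c : L) (d : ℕ) : Prop where
  one : e 1 = 1
  add : ∀ a b, e (a + b) = e a + e b
  mul : ∀ a b, e (a * b) = e a * e b
  smul : ∀ (r : K) (a : A), e (r • a) = s r • e a
  span : Submodule.span L (Set.range e) = ⊤
  deg : ∀ i, ∀ a ∈ g i, e a ∈ g' i
  form : ∀ a, t' (e a) = c ^ d * s (t a)

/-- The maps `e` and `e'` commute with the homomorphisms `f` and `f'`. -/
def CommutesWith (f : A →ₐ[K] A') (f' : B →ₐ[L] B') (e : A → B) (e' : A' → B') : Prop :=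
  ∀ a, e' (f a) = f' (e a)

/-- The map `e` respects the images under `cl` and `cl'` of the elements of `P j`, up to the factor
`c ^ j`. -/
def RespCycles {Z : Type*} [AddCommGroup Z] (P : ℕ → Z → Prop) (cl : Z →+ A) (cl' : Z →+ B)
    (e : A → B) (c : L) : Prop := ∀ j z, P j z → e (cl z) = c ^ j • cl' z

/-- The element `y` is a linear combination of images of members of `S`. -/
def IsComb (L : Type*) [Field L] [Algebra L B] (f : A → B) (S : Set A) (y : B) : Prop :=
  y ∈ Submodule.span L (f '' S)

variable (K) in
/-- The dimension of the span of `S`. -/
noncomputable def spanRank (S : Set A) : ℕ := Module.finrank K (Submodule.span K S)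

/-- The rank of the matrix with entries `tr (a b)` for `a` and `b` in `S`, and so of the form
`(a, b) ↦ tr (a b)` on the span of `S`. -/
noncomputable def gramRank (tr : A →ₗ[K] K) (S : Set A) : ℕ :=
  Module.finrank K (Submodule.span K (Set.range fun a b : S => tr (a * b)))

/-- The element `c` is a Tate class of codimension `j`: it is in `gr (2 * j)` and
`ρ g c = χ g ^ j • c` for all `g` in a subgroup of finite index. -/
def CharAct.IsT {Γ : Type*} [Group Γ] (R : CharAct K A Γ) (gr : ℕ → Submodule K A) (j : ℕ)
    (c : A) : Prop := c ∈ R.tate gr j

end Alg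

open Pool.Agent.H914 Pool.Agent.H914.VarClass Pool.Agent.H914.VarClass.Obj
  Pool.Agent.H914.WeilCohomology Pool.Agent.Y129 Pool.Agent.Y121.AHS

variable {k : Type u} [Field k] {𝒱 : VarClass k} {ops : CycleOps 𝒱}

/-- A realisation of the cohomology theory `W` in the cohomology theory `V`: semilinear ring
homomorphisms `e X : H(X) → H_V(X)` whose images span, which respect the degrees and the pull-backs,
and which respect the classes of cycles and the orientations up to the powers of a constant `c`
(since the Tate twists are suppressed; `c` describes the effect on the Tate twist). For instance, the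
comparison isomorphism of Artin between the cohomology of `X(ℂ)` with rational coefficients and
`ℓ`-adic cohomology. -/
structure Realisation (W V : WeilCohomology.{u, 0} ops) where
  /-- the homomorphism of the coefficients -/
  s : W.K →+* V.K
  /-- the effect on the Tate twist -/
  c : V.K
  ne : c ≠ 0
  /-- the homomorphisms -/
  e : ∀ X : 𝒱.Obj, W.H X → V.H X
  real : ∀ X, IsReal s (e X) (W.gr X) (V.gr X) (W.tr X) (V.tr X) c X.dim
  nat : ∀ (X Y : 𝒱.Obj) (f : X ⟶ Y), CommutesWith (W.map f) (V.map f) (e Y) (e X)
  cyc : ∀ X : 𝒱.Obj, RespCycles X.IsCyc (W.cl X) (V.cl X) (e X) c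

/-- A cohomology theory `V` (with coefficients which can be embedded into the complex numbers) with
a realisation of the rational theory `T` in it, and with an action of a group `Γ` on the cohomology
of the powers of `X`. (For instance `ℓ`-adic cohomology with the action of a Galois group.) -/
structure GaloisTheory (T : HodgeTheory ops) (X : 𝒱.Obj) where
  /-- the cohomology theory -/
  V : WeilCohomology.{u, 0} ops
  emb : Nonempty (V.K →+* ℂ)
  /-- the realisation -/
  real : Realisation T.W V
  /-- the group -/
  Γ : Type w
  [grp : Group Γ]
  /-- the action -/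
  act : PowAct V X Γ

attribute [instance] GaloisTheory.grp

variable {T : HodgeTheory ops} {X : 𝒱.Obj}

section One

variable (θ : GaloisTheory.{u, w} T X)

/-- The class `y` on the product of `n + 1` copies of `X` is a Tate class of codimension `j`. -/
def GaloisTheory.IsTate (n j : ℕ) (y : θ.V.H (pw X n)) : Prop :=
  (θ.act.act n).IsT (θ.V.gr (pw X n)) j y

/-- The class `y` of degree `2 j` on the product of `n + 1` copies of `X` is a linear combination
of (images of) Hodge classes. -/
def GaloisTheory.IsHodgeComb (n j : ℕ) (y : θ.V.H (pw X n)) : Prop :=
  IsComb θ.V.K (θ.real.e (pw X n)) {c | IsHodge T (pw X n) j c} y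

/-- On all powers of `X`, the Tate classes are the linear combinations of Hodge classes. -/
def GaloisTheory.MumfordTate : Prop := ∀ n j y, θ.IsTate n j y ↔ θ.IsHodgeComb n j y

/-- The rank of the intersection form on the space of the classes on the product of `n + 1` copies
of `X` which are both Tate classes and linear combinations of Hodge classes. -/
noncomputable def GaloisTheory.commonRank (n : ℕ) : ℕ :=
  gramRank (θ.V.tr (pw X n)) {y | ∃ j, θ.IsTate n j y ∧ θ.IsHodgeComb n j y}

end One

variable {I : Type v} (θ : I → GaloisTheory.{u, w} T X)

/-- The rational class `c` of degree `2 j` on the product of `n + 1` copies of `X` is universal: it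
is a Hodge class, and its images are Tate classes for all theories `θ i`. -/
def IsUniversal (n j : ℕ) (c : T.W.H (pw X n)) : Prop :=
  IsHodge T (pw X n) j c ∧ ∀ i, (θ i).IsTate n j ((θ i).real.e (pw X n) c)

/-- The dimension of the space spanned by the universal classes on the product of `n + 1` copies
of `X`. -/
noncomputable def univDim (n : ℕ) : ℕ := spanRank T.W.K {c | ∃ j, IsUniversal θ n j c}

/-- All Tate classes for the theory `θ i` on all powers of `X` are linear combinations of (images
of) universal classes. -/
def TateIsUniversal (i : I) : Prop := ∀ n j y, (θ i).IsTate n j y →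
  IsComb (θ i).V.K ((θ i).real.e (pw X n)) {c | IsUniversal θ n j c} y

end Pool.Agent.X299
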