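import Pool.Agent.X299.Z.ULaw
import Pool.Agent.X299.Z.GDefs

/-!
# Places given by realisations
-/

open CategoryTheory AlgebraicGeometry TensorProduct Filter Topology

universe u v w

namespace Pool.Agent.X299

open Module
open Pool.Agent.H914 Pool.Agent.H914.VarClass Pool.Agent.H914.VarClass.Obj
  Pool.Agent.H914.WeilCohomology Pool.Agent.H281R3.HT Pool.Agent.TH125.Gal
open Pool.Agent.Y129 (pw pj PowerAction TG tateClasses CC cycRank)
open Pool.Agent.Y133.Half (PH Sys ClassPred pwIso129)
open Pool.Agent.W536.RR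
open Pool.Agent.Y121.AHS

variable {k : Type u} [Field k] {𝒱 : VarClass k} {ops : CycleOps 𝒱}

section Real

variable {W V : WeilCohomology.{u, 0} ops} (R : Realisation W V)

/-- The ring homomorphism. -/
def Realisation.hom (R : Realisation W V) (Z : 𝒱.Obj) : W.H Z →+* V.H Z where
  toFun := R.e Z
  map_one' := (R.real Z).one
  map_mul' := (R.real Z).mul
  map_zero' := by
    have h := (R.real Z).add 0 0
    rw [add_zero] at h
    exact left_eq_add.1 h
  map_add' := (R.real Z).add

lemma Realisation.hom_apply (R : Realisation W V) (Z : 𝒱.Obj) (a : W.H Z) :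
    R.hom Z a = R.e Z a := rfl

lemma Realisation.push (R : Realisation W V) {Y Z : 𝒱.Obj} (f : Y ⟶ Z) (a : W.H Y) :
    R.c ^ Y.dim • R.hom Z (W.push f a) = R.c ^ Z.dim • V.push f (R.hom Y a) := by
  apply V.tr_ext
  intro b
  have hb : b ∈ Submodule.span V.K (Set.range (R.e Z)) := by
    rw [(R.real Z).span]; exact Submodule.mem_top
  induction hb using Submodule.span_induction with
  | mem b hb =>
    obtain ⟨b, rfl⟩ := hb
    have h1 := (R.real Z).form (W.push f a * b)
    have h2 := (R.real Y).form (a * W.map f b)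
    have h3 : R.e Y (W.map f b) = V.map f (R.e Z b) := R.nat Y Z f b
    rw [(R.real Z).mul, W.tr_push] at h1
    rw [(R.real Y).mul, h3] at h2
    rw [smul_mul_assoc, smul_mul_assoc, map_smul, map_smul, V.tr_push, R.hom_apply, R.hom_apply,
      h1, h2, smul_eq_mul, smul_eq_mul]
    ring
  | zero => rw [mul_zero, mul_zero]
  | add x y _ _ hx hy => rw [mul_add, mul_add, map_add, map_add, hx, hy]
  | smul r x _ hx => rw [mul_smul_comm, mul_smul_comm, map_smul, map_smul, hx]

/-- The realisation. -/
noncomputable def Realisation.rlz (R : Realisation W V) : Pool.Agent.Y121.AH.Rlz W V where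
  s := R.s
  c := R.c
  ne := R.ne
  E := R.hom
  semi Z := (R.real Z).smul
  gr {Z i a} ha := (R.real Z).deg i a ha
  nat f b := R.nat _ _ f b
  push f a := R.push f a

lemma Realisation.full : Full R.rlz where
  span Z := (R.real Z).span
  tr Z a := (R.real Z).form a

lemma Realisation.cycR : CycR R.rlz := fun {Z j z} hz => R.cyc Z j z hz

end Real

variable {T : HodgeTheory ops} {X : 𝒱.Obj}

/-- The place of a theory. -/
noncomputable def GaloisTheory.place (θ : GaloisTheory.{u, w} T X) : Place.{u, w} (toH T) X where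
  V := θ.V
  E := θ.real.rlz
  full := θ.real.full
  cyc := θ.real.cycR
  emb := θ.emb
  Γ := θ.Γ
  χ := θ.act.chi
  ρ := θ.act.rho
  act := θ.act.power

lemma mem_tate (θ : GaloisTheory.{u, w} T X) (n j : ℕ) (y : θ.V.H (pw X n)) :
    θ.IsTate n j y ↔
      y ∈ tateClasses θ.place.χ (θ.place.V.gr (pw X n)) (θ.place.ρ n) j := by
  rw [GaloisTheory.IsTate, CharAct.IsT]
  change y ∈ θ.act.tate n j ↔ _
  rw [θ.act.tate_eq]
  rfl

lemma finrank_place (θ : GaloisTheory.{u, w} T X) (n : ℕ) :
    finrank θ.place.V.K (TG θ.place.V X θ.place.χ θ.place.ρ n) = θ.act.tateDim n := by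
  rw [θ.act.tateDim_eq, ← Pool.Agent.Y129.finrank_TG]
  rfl

end Pool.Agent.X299
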