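import Pool.Agent.X299.Z.Orbit
import Pool.Agent.X299.Tate.Main
import Pool.Agent.Y121.AH.Gop

/-!
# Galois actions on systems of classes generated by the classes on one power
-/

open CategoryTheory AlgebraicGeometry TensorProduct

universe u v w

namespace Pool.Agent.X299

open Module
open Pool.Agent.H914 Pool.Agent.H914.VarClass Pool.Agent.H914.VarClass.Obj
  Pool.Agent.H914.WeilCohomology Pool.Agent.H281R3.HT Pool.Agent.TH125.Gal
  Pool.Agent.Y129 Pool.Agent.Y121.AH
open Pool.Agent.Y133.Half (PH Sys)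

variable {k : Type u} [Field k] {𝒱 : VarClass k} {ops : CycleOps 𝒱}
  {W : WeilCohomology.{u, v} ops} {X Y Z : 𝒱.Obj}
  {Γ : Type w} [Group Γ] {χ : Γ →* W.Kˣ}
  {ρ : ∀ n, Γ →* (W.H (pw X n) ≃ₐ[W.K] W.H (pw X n))}

/-- The multiplier of the normalised action in degree `i`. -/
def mult (χ : Γ →* W.Kˣ) (g : Γ) (i : ℕ) : W.K := ((χ g : W.K)⁻¹) ^ (i / 2)

lemma mult_ne (g : Γ) (i : ℕ) : mult χ g i ≠ 0 := pow_ne_zero _ (inv_ne_zero (Units.ne_zero _))

lemma mult_mul (g g' : Γ) (i : ℕ) : mult χ (g * g') i = mult χ g i * mult χ g' i := by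
  rw [mult, mult, mult, map_mul, Units.val_mul, mul_inv, mul_pow]

/-- The normalised action of an element. -/
noncomputable def nact (W : WeilCohomology.{u, v} ops) (χ : Γ →* W.Kˣ)
    (ρ : ∀ n, Γ →* (W.H (pw X n) ≃ₐ[W.K] W.H (pw X n))) (n : ℕ) (g : Γ) :
    Module.End W.K (W.H (pw X n)) :=
  (ρ n g).toLinearMap ∘ₗ dia (W.isInternal (pw X n)) (mult χ g)

lemma nact_apply {n i : ℕ} (g : Γ) {a : W.H (pw X n)} (ha : a ∈ W.gr (pw X n) i) :
    nact W χ ρ n g a = mult χ g i • ρ n g a := by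
  rw [nact, LinearMap.comp_apply, dia_apply _ _ ha, map_smul]
  rfl

/-- The normalised action. -/
noncomputable def nrep (h : PowerAction W X χ ρ) (n : ℕ) : Γ →* Module.End W.K (W.H (pw X n)) where
  toFun := nact W χ ρ n
  map_one' := by
    apply gr_ext (W.isInternal (pw X n))
    intro i a ha
    rw [nact_apply 1 ha, map_one, mult, map_one, Units.val_one, inv_one, one_pow, one_smul]
    rfl
  map_mul' g g' := by
    apply gr_ext (W.isInternal (pw X n))
    intro i a ha
    rw [nact_apply _ ha, Module.End.mul_apply, nact_apply _ ha, map_smul,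
      nact_apply _ ((h.galois n).gr_mem g' i a ha), mult_mul, map_mul, smul_smul, mul_comm]
    rfl

lemma nrep_apply (h : PowerAction W X χ ρ) {n i : ℕ} (g : Γ) {a : W.H (pw X n)}
    (ha : a ∈ W.gr (pw X n) i) : nrep h n g a = mult χ g i • ρ n g a := nact_apply g ha

lemma nrep_gr (h : PowerAction W X χ ρ) {n i : ℕ} (g : Γ) {a : W.H (pw X n)}
    (ha : a ∈ W.gr (pw X n) i) : nrep h n g a ∈ W.gr (pw X n) i := by
  rw [nrep_apply h g ha]
  exact Submodule.smul_mem _ _ ((h.galois n).gr_mem g i a ha)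

lemma nrep_even (h : PowerAction W X χ ρ) {n b : ℕ} (g : Γ) {a : W.H (pw X n)}
    (ha : a ∈ PH W (pw X n) b) : nrep h n g a ∈ PH W (pw X n) b := by
  refine PH.ind (p := fun a => nrep h n g a ∈ PH W (pw X n) b) ?_ ?_ ?_ ha
  · intro i hi a ha
    exact PH.of' hi (nrep_gr h g ha)
  · rw [map_zero]; exact Submodule.zero_mem _
  · intro x y hx hy; rw [map_add]; exact Submodule.add_mem _ hx hy

/-- The normalised action is multiplicative on the even cohomology. -/
lemma nrep_mul (h : PowerAction W X χ ρ) {n : ℕ} (g : Γ) {a b : W.H (pw X n)}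
    (ha : a ∈ PH W (pw X n) 0) (hb : b ∈ PH W (pw X n) 0) :
    nrep h n g (a * b) = nrep h n g a * nrep h n g b := by
  refine PH.ind (p := fun a => nrep h n g (a * b) = nrep h n g a * nrep h n g b) ?_ ?_ ?_ ha
  · intro i hi a ha
    refine PH.ind (p := fun b => nrep h n g (a * b) = nrep h n g a * nrep h n g b) ?_ ?_ ?_ hb
    · intro j hj b hb
      rw [nrep_apply h g ha, nrep_apply h g hb, nrep_apply h g (W.mul_mem ha hb), map_mul,
        smul_mul_smul_comm, mult, mult, mult, ← pow_add]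
      congr 2
      omega
    · rw [mul_zero, map_zero, mul_zero]
    · intro x y hx hy; rw [mul_add, map_add, hx, hy, map_add, mul_add]
  · rw [zero_mul, map_zero, zero_mul]
  · intro x y hx hy; rw [add_mul, map_add, hx, hy, map_add, add_mul]

lemma nrep_map (h : PowerAction W X χ ρ) {m n : ℕ} {p : pw X n ⟶ pw X m}
    (hp : Intertwines (W.map p) (ρ m) (ρ n)) (g : Γ) (a : W.H (pw X m)) :
    nrep h n g (W.map p a) = W.map p (nrep h m g a) := by
  refine gr_induction (W.isInternal (pw X m))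
    (p := fun a => nrep h n g (W.map p a) = W.map p (nrep h m g a)) ?_ ?_ a
  · intro i a ha
    rw [nrep_apply h g (W.map_mem p ha), nrep_apply h g ha, map_smul, hp]
  · intro x y hx hy; simp only [map_add, hx, hy]

lemma nrep_push (h : PowerAction W X χ ρ) {m n : ℕ} {q : pw X n ⟶ pw X m}
    (hq : Intertwines (W.map q) (ρ m) (ρ n)) (g : Γ) {a : W.H (pw X n)}
    (ha : a ∈ PH W (pw X n) 0) :
    nrep h m g (W.push q a) = W.push q (nrep h n g a) := by
  refine PH.ind (p := fun a => nrep h m g (W.push q a) = W.push q (nrep h n g a)) ?_ ?_ ?_ ha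
  · intro i hi a ha
    have h2 := W.push_mem q ha
    by_cases hd : 2 * (pw X n).dim ≤ i + 2 * (pw X m).dim
    · have e1 : (i : ℤ) + 2 * (((pw X m).dim : ℤ) - (pw X n).dim) =
          ((i + 2 * (pw X m).dim - 2 * (pw X n).dim : ℕ) : ℤ) := by
        push_cast [Nat.cast_sub hd]
        ring
      rw [e1, grZ_natCast] at h2
      rw [nrep_apply h g ha, nrep_apply h g h2, map_smul]
      have h4 := push_act (h.galois n) (h.galois m) hq g a
      have hx : (χ g : W.K) ≠ 0 := Units.ne_zero _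
      have h5 : ((χ g : W.K) ^ (pw X n).dim) ≠ 0 := pow_ne_zero _ hx
      have h6 : mult χ g (i + 2 * (pw X m).dim - 2 * (pw X n).dim) *
          (χ g : W.K) ^ (pw X m).dim = mult χ g i * (χ g : W.K) ^ (pw X n).dim := by
        rw [mult, mult]
        have e3 : (χ g : W.K) ^ ((i + 2 * (pw X m).dim - 2 * (pw X n).dim) / 2) *
            (χ g : W.K) ^ (pw X n).dim = (χ g : W.K) ^ (i / 2) * (χ g : W.K) ^ (pw X m).dim := by
          rw [← pow_add, ← pow_add]
          congr 1
          omega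
        rw [inv_pow, inv_pow, inv_mul_eq_div, inv_mul_eq_div,
          div_eq_div_iff (pow_ne_zero _ hx) (pow_ne_zero _ hx)]
        linear_combination -e3
      have h7 : (χ g : W.K) ^ (pw X n).dim • (mult χ g (i + 2 * (pw X m).dim -
          2 * (pw X n).dim) • ρ m g (W.push q a)) =
          (χ g : W.K) ^ (pw X n).dim • (mult χ g i • W.push q (ρ n g a)) := by
        rw [smul_comm, h4, smul_smul, h6, smul_smul, mul_comm]
      exact smul_right_injective _ h5 h7
    · rw [grZ_of_neg (by omega), Submodule.mem_bot] at h2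
      have h3 := W.push_mem q (nrep_gr h g ha)
      rw [grZ_of_neg (by omega), Submodule.mem_bot] at h3
      rw [h2, h3, map_zero]
  · simp only [map_zero]
  · intro x y hx hy; simp only [map_add, hx, hy]

/-- Tate classes are fixed by subgroups of finite index. -/
lemma nrep_fix (h : PowerAction W X χ ρ) {n : ℕ} {a : W.H (pw X n)} (ha : a ∈ TG W X χ ρ n) :
    ∃ Δ : Subgroup Γ, Δ.FiniteIndex ∧ ∀ g ∈ Δ, nrep h n g a = a := by
  refine Submodule.iSup_induction (fun j => tateClasses χ (W.gr (pw X n)) (ρ n) j)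
    (motive := fun a => ∃ Δ : Subgroup Γ, Δ.FiniteIndex ∧ ∀ g ∈ Δ, nrep h n g a = a) ha ?_ ?_ ?_
  · rintro j a ⟨ha, Δ, hΔ, h1⟩
    refine ⟨Δ, hΔ, fun g hg => ?_⟩
    rw [nrep_apply h g ha, h1 g hg, smul_smul, mult, Nat.mul_div_cancel_left _ two_pos, inv_pow,
      inv_mul_cancel₀ (pow_ne_zero _ (Units.ne_zero _)), one_smul]
  · exact ⟨⊤, inferInstance, fun g _ => map_zero _⟩
  · rintro x y ⟨Δ, hΔ, hx⟩ ⟨Δ', hΔ', hy⟩
    exact ⟨Δ ⊓ Δ', inferInstance, fun g hg => by rw [map_add, hx g hg.1, hy g hg.2]⟩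

/-- Even classes which are fixed by subgroups of finite index are Tate classes. -/
lemma mem_TG_of_fix (h : PowerAction W X χ ρ) {n : ℕ} {a : W.H (pw X n)}
    (ha : a ∈ PH W (pw X n) 0)
    (hfix : ∃ Δ : Subgroup Γ, Δ.FiniteIndex ∧ ∀ g ∈ Δ, nrep h n g a = a) : a ∈ TG W X χ ρ n := by
  classical
  obtain ⟨Δ, hΔ, h1⟩ := hfix
  -- the decomposition into homogeneous components of even degree
  obtain ⟨f, hf, hsum⟩ : ∃ f : ℕ →₀ W.H (pw X n), (∀ j, f j ∈ W.gr (pw X n) (2 * j)) ∧
      f.sum (fun _ x => x) = a := by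
    have h2 : a ∈ ⨆ j, W.gr (pw X n) (2 * j) := by
      refine PH.ind (p := fun a => a ∈ ⨆ j, W.gr (pw X n) (2 * j)) ?_ ?_ ?_ ha
      · intro i hi a ha
        obtain ⟨j, rfl⟩ : ∃ j, i = 2 * j := ⟨i / 2, by omega⟩
        exact Submodule.mem_iSup_of_mem j ha
      · exact Submodule.zero_mem _
      · intro x y hx hy; exact Submodule.add_mem _ hx hy
    exact (Submodule.mem_iSup_iff_exists_finsupp _ _).1 h2
  -- the projections to the homogeneous components
  let π : ℕ → Module.End W.K (W.H (pw X n)) := fun j =>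
    dia (W.isInternal (pw X n)) fun l => if l = 2 * j then 1 else 0
  have hπ : ∀ j l, ∀ x ∈ W.gr (pw X n) l, π j x = (if l = 2 * j then (1 : W.K) else 0) • x :=
    fun j l x hx => dia_apply _ _ hx
  have hπa : ∀ j, π j a = f j := by
    intro j
    rw [← hsum, Finsupp.sum, map_sum]
    by_cases hj : j ∈ f.support
    · rw [Finset.sum_eq_single j]
      · rw [hπ j _ _ (hf j), if_pos rfl, one_smul]
      · intro l _ hl
        rw [hπ j _ _ (hf l), if_neg (by omega), zero_smul]
      · exact fun h => absurd hj h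
    · rw [Finsupp.notMem_support_iff.1 hj]
      refine Finset.sum_eq_zero fun l hl => ?_
      have hlj : l ≠ j := by rintro rfl; exact hj hl
      rw [hπ j _ _ (hf l), if_neg (by omega), zero_smul]
  have hπc : ∀ j g x, nrep h n g (π j x) = π j (nrep h n g x) := by
    intro j g x
    refine gr_induction (W.isInternal (pw X n))
      (p := fun x => nrep h n g (π j x) = π j (nrep h n g x)) ?_ ?_ x
    · intro l x hx
      rw [hπ j l x hx, hπ j l _ (nrep_gr h g hx), map_smul]
    · intro x y hx hy; simp only [map_add, hx, hy]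
  have h3 : ∀ g ∈ Δ, ∀ j, nrep h n g (f j) = f j := by
    intro g hg j
    rw [← hπa, hπc, h1 g hg]
  rw [← hsum, Finsupp.sum]
  refine Submodule.sum_mem _ fun j _ => ?_
  refine Submodule.mem_iSup_of_mem j ⟨hf j, Δ, hΔ, fun g hg => ?_⟩
  have h4 := h3 g hg j
  rw [nrep_apply h g (hf j), mult, Nat.mul_div_cancel_left _ two_pos] at h4
  have h5 : (χ g : W.K) ^ j • (((χ g : W.K)⁻¹) ^ j • ρ n g (f j)) = ρ n g (f j) := by
    rw [smul_smul, ← mul_pow, mul_inv_cancel₀ (Units.ne_zero _), one_pow, one_smul]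
  rw [← h5, h4]

end Pool.Agent.X299
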