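import Pool.Agent.X299.Z.Gal
import Pool.Agent.Y121.AH.Gen

/-!
# External products on the powers of a variety
-/

open CategoryTheory AlgebraicGeometry TensorProduct

universe u v w

namespace Pool.Agent.X299

open Module
open Pool.Agent.H914 Pool.Agent.H914.VarClass Pool.Agent.H914.VarClass.Obj
  Pool.Agent.H914.WeilCohomology Pool.Agent.H281R3.HT Pool.Agent.TH125.Gal
  Pool.Agent.Y129 Pool.Agent.Y121.AH
open Pool.Agent.Y133.Half (PH Sys)

variable {k : Type u} [Field k] {𝒱 : VarClass k} {ops : CycleOps 𝒱}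
  {W : WeilCohomology.{u, v} ops} {X Y Z : 𝒱.Obj}

/-- The gluing map. -/
noncomputable def gE (X : 𝒱.Obj) (m n : ℕ) : (pw X m).prod (pw X n) ⟶ pw X (m + n + 1) :=
  Classical.choose (exists_glue X m n)

/-- The projection to the first block. -/
noncomputable def gP (X : 𝒱.Obj) (m n : ℕ) : pw X (m + n + 1) ⟶ pw X m :=
  Classical.choose (Classical.choose_spec (exists_glue X m n))

/-- The projection to the second block. -/
noncomputable def gQ (X : 𝒱.Obj) (m n : ℕ) : pw X (m + n + 1) ⟶ pw X n :=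
  Classical.choose (Classical.choose_spec (Classical.choose_spec (exists_glue X m n)))

lemma g_spec (X : 𝒱.Obj) (m n : ℕ) :
    (∃ s : Fin (m + 1) → Fin (m + n + 1 + 1), ∀ i, gP X m n ≫ pj X m i = pj X _ (s i)) ∧
    (∃ s : Fin (n + 1) → Fin (m + n + 1 + 1), ∀ i, gQ X m n ≫ pj X n i = pj X _ (s i)) ∧
    gE X m n ≫ gP X m n = fst _ _ ∧ gE X m n ≫ gQ X m n = snd _ _ :=
  Classical.choose_spec (Classical.choose_spec (Classical.choose_spec (exists_glue X m n)))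

/-- The external product on the powers of `X`. -/
noncomputable def xt (W : WeilCohomology.{u, v} ops) (X : 𝒱.Obj) {m n : ℕ} (a : W.H (pw X m))
    (b : W.H (pw X n)) : W.H (pw X (m + n + 1)) := W.map (gP X m n) a * W.map (gQ X m n) b

lemma map_xt {m n : ℕ} (a : W.H (pw X m)) (b : W.H (pw X n)) :
    W.map (gE X m n) (xt W X a b) =
      kunnethMap (W.map (fst (pw X m) (pw X n))) (W.map (snd (pw X m) (pw X n))) (a ⊗ₜ b) := by
  rw [xt, map_mul, ← W.map_comp, ← W.map_comp, (g_spec X m n).2.2.1, (g_spec X m n).2.2.2]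
  rfl

lemma exists_xt_form {m n : ℕ} (Φ : Module.Dual W.K (W.H (pw X m)))
    (φ : Module.Dual W.K (W.H (pw X n))) : ∃ Ψ : Module.Dual W.K (W.H (pw X (m + n + 1))),
      ∀ x y, Ψ (xt W X x y) = Φ x * φ y := by
  let κ := LinearEquiv.ofBijective _ (W.kunneth (pw X m) (pw X n))
  refine ⟨(LinearMap.mul' W.K W.K ∘ₗ TensorProduct.map Φ φ) ∘ₗ κ.symm.toLinearMap ∘ₗ
    (W.map (gE X m n)).toLinearMap, fun x y => ?_⟩
  have h1 : κ.symm (W.map (gE X m n) (xt W X x y)) = x ⊗ₜ y := by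
    rw [LinearEquiv.symm_apply_eq, map_xt]
    rfl
  change (LinearMap.mul' W.K W.K ∘ₗ TensorProduct.map Φ φ)
    (κ.symm (W.map (gE X m n) (xt W X x y))) = _
  rw [h1]
  simp

/-- The number of factors of the external powers. -/
def nu (n : ℕ) : ℕ → ℕ
  | 0 => n
  | m + 1 => nu n m + n + 1

/-- The external powers of a class on a power of `X`. -/
noncomputable def xpo (W : WeilCohomology.{u, v} ops) (X : 𝒱.Obj) {n : ℕ} :
    ∀ m, W.H (pw X n) → W.H (pw X (nu n m))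
  | 0, a => a
  | m + 1, a => (xt W X (xpo W X m a) a : W.H (pw X (nu n m + n + 1)))

lemma xpo_smul {n : ℕ} (r : W.K) (a : W.H (pw X n)) : ∀ m,
    xpo W X m (r • a) = r ^ (m + 1) • xpo W X m a
  | 0 => by rw [zero_add, pow_one]; rfl
  | m + 1 => by
    have h : xt W X (xpo W X m (r • a)) (r • a) = r ^ (m + 2) • xt W X (xpo W X m a) a := by
      rw [xpo_smul r a m, xt, xt, map_smul, map_smul, smul_mul_smul_comm, ← pow_succ]
    exact h

lemma xpo_ev {n : ℕ} : ∀ m (φ : Fin (m + 1) → Module.Dual W.K (W.H (pw X n))),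
    ∃ Φ : Module.Dual W.K (W.H (pw X (nu n m))), ∀ v, Φ (xpo W X m v) = ∏ i, φ i v
  | 0, φ => ⟨φ 0, fun v => by rw [Fin.prod_univ_one]; rfl⟩
  | m + 1, φ => by
    obtain ⟨Φ, hΦ⟩ := xpo_ev m (fun i => φ i.castSucc)
    obtain ⟨Ψ, hΨ⟩ := exists_xt_form Φ (φ (Fin.last (m + 1)))
    refine ⟨Ψ, fun v => ?_⟩
    rw [Fin.prod_univ_castSucc, ← hΦ v]
    exact hΨ _ _

lemma isPow_xpo {n : ℕ} (V₀ : Submodule W.K (W.H (pw X n))) :
    IsPow V₀ (fun m => xpo W X (n := n) m) where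
  smul m r v _ := xpo_smul r v m
  ev m φ := by
    obtain ⟨Φ, hΦ⟩ := xpo_ev m φ
    exact ⟨Φ, fun v _ => hΦ v⟩

lemma xt_even {m n : ℕ} {a : W.H (pw X m)} (ha : a ∈ PH W (pw X m) 0) {b : W.H (pw X n)}
    (hb : b ∈ PH W (pw X n) 0) : xt W X a b ∈ PH W (pw X (m + n + 1)) 0 := by
  have h := PH.mul (PH.map (gP X m n) ha) (PH.map (gQ X m n) hb)
  exact h

lemma xpo_even {n : ℕ} {v : W.H (pw X n)} (hv : v ∈ PH W (pw X n) 0) : ∀ m,
    xpo W X m v ∈ PH W (pw X (nu n m)) 0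
  | 0 => hv
  | m + 1 => by
    have h := xt_even (xpo_even hv m) hv
    exact h

/-- A system of classes contains the external powers of its members. -/
lemma xpo_mem {T : Sys W} {n : ℕ} {v : W.H (pw X n)} (hv : v ∈ T.C (pw X n)) : ∀ m,
    xpo W X m v ∈ T.C (pw X (nu n m))
  | 0 => hv
  | m + 1 => by
    have h := T.mul (T.map (gP X (nu n m) n) (xpo_mem hv m)) (T.map (gQ X (nu n m) n) hv)
    exact h

/-- Correspondences between powers. -/
lemma corr_glue {m n : ℕ} (c : W.H ((pw X m).prod (pw X n))) (a : W.H (pw X m)) :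
    W.corr c a = W.push (gQ X m n) (W.push (gE X m n) c * W.map (gP X m n) a) := by
  rw [corr_apply, ← (g_spec X m n).2.2.1, ← (g_spec X m n).2.2.2, W.map_comp, W.push_comp,
    W.push_mul]

section Act

variable {Γ : Type w} [Group Γ] {χ : Γ →* W.Kˣ}
  {ρ : ∀ n, Γ →* (W.H (pw X n) ≃ₐ[W.K] W.H (pw X n))}

lemma nrep_xt (h : PowerAction W X χ ρ) {m n : ℕ} (g : Γ) {a : W.H (pw X m)}
    (ha : a ∈ PH W (pw X m) 0) {b : W.H (pw X n)} (hb : b ∈ PH W (pw X n) 0) :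
    nrep h (m + n + 1) g (xt W X a b) = xt W X (nrep h m g a) (nrep h n g b) := by
  obtain ⟨⟨s, hs⟩, ⟨t, ht⟩, _, _⟩ := g_spec X m n
  rw [xt, xt, nrep_mul h g (PH.map _ ha) (PH.map _ hb), nrep_map h (h.equiv _ s hs),
    nrep_map h (h.equiv _ t ht)]

lemma nrep_xpo (h : PowerAction W X χ ρ) {n : ℕ} (g : Γ) {v : W.H (pw X n)}
    (hv : v ∈ PH W (pw X n) 0) : ∀ m,
    nrep h (nu n m) g (xpo W X m v) = xpo W X m (nrep h n g v)
  | 0 => rfl
  | m + 1 => by
    have h1 := nrep_xt h g (xpo_even hv m) hv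
    rw [nrep_xpo h g hv m] at h1
    exact h1

/-- Operators of a system of Tate classes are equivariant for a subgroup of finite index. -/
lemma nrep_op (h : PowerAction W X χ ρ) {S : Sys W} (hS : ∀ n, S.C (pw X n) ≤ TG W X χ ρ n)
    {m n : ℕ} {f : W.H (pw X m) →ₗ[W.K] W.H (pw X n)} (hf : f ∈ S.Op (pw X m) (pw X n)) :
    ∃ Δ : Subgroup Γ, Δ.FiniteIndex ∧ ∀ g ∈ Δ, ∀ a ∈ PH W (pw X m) 0,
      nrep h n g (f a) = f (nrep h m g a) := by
  obtain ⟨c, hc, rfl⟩ := Sys.mem_Op.1 hf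
  obtain ⟨⟨s, hs⟩, ⟨t, ht⟩, _, _⟩ := g_spec X m n
  have hc' := S.push (gE X m n) hc
  obtain ⟨Δ, hΔ, h1⟩ := nrep_fix h (hS _ hc')
  refine ⟨Δ, hΔ, fun g hg a ha => ?_⟩
  have h2 := PH.mul (S.even hc') (PH.map (gP X m n) ha)
  rw [corr_glue, corr_glue, nrep_push h (h.equiv _ t ht) g h2, nrep_mul h g (S.even hc')
    (PH.map _ ha), h1 g hg, nrep_map h (h.equiv _ s hs)]

lemma exists_lin (h : PowerAction W X χ ρ) {S : Sys W} (hS : ∀ n, S.C (pw X n) ≤ TG W X χ ρ n)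
    {m n : ℕ} {M : Submodule W.K (W.H (pw X m))} (hM : M ≤ PH W (pw X m) 0) {x : W.H (pw X n)}
    (hx : x ∈ gen S (pw X m) (pw X n) M) :
    ∃ Δ : Subgroup Γ, Δ.FiniteIndex ∧
      ∃ F : Module.End W.K (W.H (pw X m)) →ₗ[W.K] W.H (pw X n),
        ∀ g ∈ Δ, nrep h n g x = F (nrep h m g) := by
  induction hx using Submodule.span_induction with
  | mem x hx =>
    obtain ⟨f, hf, t, ht, rfl⟩ := hx
    obtain ⟨Δ, hΔ, h1⟩ := nrep_op h hS hf
    exact ⟨Δ, hΔ, f ∘ₗ LinearMap.applyₗ t, fun g hg => h1 g hg t (hM ht)⟩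
  | zero => exact ⟨⊤, inferInstance, 0, fun g _ => by rw [map_zero, LinearMap.zero_apply]⟩
  | add x y _ _ hx hy =>
    obtain ⟨Δ, hΔ, F, hF⟩ := hx
    obtain ⟨Δ', hΔ', F', hF'⟩ := hy
    refine ⟨Δ ⊓ Δ', inferInstance, F + F', fun g hg => ?_⟩
    rw [map_add, hF g hg.1, hF' g hg.2, LinearMap.add_apply]
  | smul r x _ hx =>
    obtain ⟨Δ, hΔ, F, hF⟩ := hx
    refine ⟨Δ, hΔ, r • F, fun g hg => ?_⟩
    rw [map_smul, hF g hg, LinearMap.smul_apply]

lemma genBy_iso {S T : Sys W} {P Q : 𝒱.Obj} (h : GenBy S T X P) (θ : P ≅ Q) :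
    GenBy S T X Q := by
  intro m Z hZ x hx
  refine (Submodule.span_le.2 ?_ : gen S P Z (T.C P) ≤ gen S Q Z (T.C Q)) (h m Z hZ hx)
  rintro _ ⟨f, hf, t, ht, rfl⟩
  have h1 : f t = (f ∘ₗ (W.map θ.hom).toLinearMap) (W.map θ.inv t) := by
    rw [LinearMap.comp_apply]
    change f t = f (W.map θ.hom (W.map θ.inv t))
    rw [← W.map_comp, θ.hom_inv_id, W.map_id]
  rw [h1]
  exact mem_gen (Sys.Op.comp hf (op_map S θ.hom)) (T.map _ ht)

/-- **The finite case.** If the classes of `T` on all powers of `X` are generated by the classes on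
one power under correspondences which are Tate classes, they are Tate classes. -/
theorem tate_of_genBy (h : PowerAction W X χ ρ) {S T : Sys W}
    (hS : ∀ n, S.C (pw X n) ≤ TG W X χ ρ n) {P : 𝒱.Obj} {m : ℕ}
    (θ : P ≅ Pool.Agent.Y133.Half.pw X m) (hP : GenBy S T X P) (n : ℕ) :
    T.C (pw X n) ≤ TG W X χ ρ n := by
  have hP' : GenBy S T X (pw X m) :=
    genBy_iso hP (θ ≪≫ (Pool.Agent.Y133.Half.pwIso129 X m).symm)
  intro t ht
  apply mem_TG_of_fix h (T.even ht)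
  refine fixed_of_pow (V₀ := PH W (pw X n) 0) (pow := fun m => xpo W X (n := n) m)
    (nrep h n) (fun m => nrep h (nu n m)) (nrep h m)
    (fun g v hv => nrep_even h g hv) (isPow_xpo _) (fun l g v hv => nrep_xpo h g hv l)
    (T.even ht) ?_
  intro l
  exact exists_lin h hS (fun x hx => T.even hx)
    (hP' (nu n l) (pw X (nu n l)) ⟨Pool.Agent.Y133.Half.pwIso129 X (nu n l)⟩ (xpo_mem ht l))

end Act

end Pool.Agent.X299
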