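import Pool.Agent.X299.Z.Comb

/-!
# The finite case: the classes are linear combinations of Hodge classes
-/

open CategoryTheory AlgebraicGeometry TensorProduct

universe u

namespace Pool.Agent.X299

open Module
open Pool.Agent.H914 Pool.Agent.H914.VarClass Pool.Agent.H914.VarClass.Obj
  Pool.Agent.H914.WeilCohomology Pool.Agent.Y121.AH
open Pool.Agent.Y129 (pw pj)
open Pool.Agent.Y133.Half (PH Sys ClassPred)

variable {k : Type u} [Field k] {𝒱 : VarClass k} {ops : CycleOps 𝒱}

lemma gz_gr {T : HodgeTheory ops} {X : 𝒱.Obj} (z : (CW T).Kˣ) {i : ℕ} {x : (CW T).H X}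
    (hx : x ∈ (CW T).gr X i) : gz T X z x ∈ (CW T).gr X i := by
  have hx1 : x ∈ (T.W.gr X i).baseChange ℂ := hx
  refine base_induction (P := fun x : ℂ ⊗[T.W.K] T.W.H X =>
    gz T X z (show (CW T).H X from x) ∈ (CW T).gr X i) ?_ ?_ ?_ hx1
  · exact (map_zero (gz T X z)).symm ▸ Submodule.zero_mem _
  · intro x y hx hy
    exact (map_add (gz T X z) x y).symm ▸ Submodule.add_mem _ hx hy
  · intro l a ha
    have h1 : gz T X z (em T.W ℂ a) ∈ (CW T).gr X i := by
      refine Submodule.iSup_induction (fun r : {r : ℤ × ℤ // r.1 + r.2 = i} => T.pq X r.1.1 r.1.2)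
        (motive := fun x => gz T X z x ∈ (CW T).gr X i) (T.dec.span ha) ?_ ?_ ?_
      · intro r x hx
        rw [gz_pq z hx]
        exact Submodule.smul_mem _ _ (T.dec.le X r.2 hx)
      · rw [map_zero]; exact Submodule.zero_mem _
      · intro x y hx hy; rw [map_add]; exact Submodule.add_mem _ hx hy
    have h2 : gz T X z (show (CW T).H X from (l ⊗ₜ[T.W.K] a)) ∈ (CW T).gr X i := by
      rw [tmul_eq, map_smul]
      exact Submodule.smul_mem _ _ h1
    exact h2

/-- Homogeneous components. -/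
lemma exists_components {W : WeilCohomology.{u, 0} ops} {X : 𝒱.Obj} {a : W.H X}
    (ha : a ∈ PH W X 0) : ∃ f : ℕ →₀ W.H X, (∀ j, f j ∈ W.gr X (2 * j)) ∧
      f.sum (fun _ x => x) = a := by
  have h2 : a ∈ ⨆ j, W.gr X (2 * j) := by
    refine PH.ind (p := fun a => a ∈ ⨆ j, W.gr X (2 * j)) ?_ ?_ ?_ ha
    · intro i hi a ha
      obtain ⟨j, rfl⟩ : ∃ j, i = 2 * j := ⟨i / 2, by omega⟩
      exact Submodule.mem_iSup_of_mem j ha
    · exact Submodule.zero_mem _
    · intro x y hx hy; exact Submodule.add_mem _ hx hy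
  exact (Submodule.mem_iSup_iff_exists_finsupp _ _).1 h2

/-- The homogeneous components of a class with a fixed realisation have fixed realisations. -/
lemma fix_component {W : WeilCohomology.{u, 0} ops} {T : HodgeTheory ops} {X : 𝒱.Obj}
    (R : Rlz W (CW T)) {f : ℕ →₀ W.H X} (hf : ∀ j, f j ∈ W.gr X (2 * j)) {z : (CW T).Kˣ}
    (h : gz T X z (R.E X (f.sum fun _ x => x)) = R.E X (f.sum fun _ x => x)) (j : ℕ) :
    gz T X z (R.E X (f j)) = R.E X (f j) := by
  classical
  let π : Module.End (CW T).K ((CW T).H X) :=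
    dia ((CW T).isInternal X) fun l => if l = 2 * j then 1 else 0
  have hπ : ∀ l, ∀ x ∈ (CW T).gr X l, π x = (if l = 2 * j then (1 : (CW T).K) else 0) • x :=
    fun l x hx => dia_apply _ _ hx
  have hE : ∀ l, R.E X (f l) ∈ (CW T).gr X (2 * l) := fun l => R.gr (hf l)
  have hπa : π (R.E X (f.sum fun _ x => x)) = R.E X (f j) := by
    rw [Finsupp.sum, map_sum, map_sum]
    by_cases hj : j ∈ f.support
    · rw [Finset.sum_eq_single j]
      · rw [hπ _ _ (hE j), if_pos rfl, one_smul]
      · intro l _ hl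
        rw [hπ _ _ (hE l), if_neg (by omega), zero_smul]
      · exact fun h => absurd hj h
    · rw [Finsupp.notMem_support_iff.1 hj, map_zero]
      refine Finset.sum_eq_zero fun l hl => ?_
      have hlj : l ≠ j := by rintro rfl; exact hj hl
      rw [hπ _ _ (hE l), if_neg (by omega), zero_smul]
  have hπc : ∀ x, gz T X z (π x) = π (gz T X z x) := by
    intro x
    refine gr_induction ((CW T).isInternal X)
      (p := fun x => gz T X z (π x) = π (gz T X z x)) ?_ ?_ x
    · intro l x hx
      rw [hπ l x hx, hπ l _ (gz_gr z hx), map_smul]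
    · intro x y hx hy; simp only [map_add, hx, hy]
  rw [← hπa, hπc, h]

variable {W : WeilCohomology.{u, 0} ops} {T : HodgeTheory ops} {L : Type} [Field L]
  [Algebra W.K L] [Algebra T.W.K L] (C : Comparison (baseW W L) (baseW T.W L)) {X : 𝒱.Obj}

/-- Classes all whose realisations are fixed by subgroups of finite index are linear combinations
of Hodge classes. -/
lemma comb_of_fix (hL : Nonempty (L →+* ℂ)) {a : W.H X} (ha : a ∈ PH W X 0)
    (h : ∀ τ : L →+* ℂ, ∃ Δ : Subgroup (CW T).Kˣ, Δ.FiniteIndex ∧ ∀ z ∈ Δ,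
      gz T X z ((rlzW C τ).E X a) = (rlzW C τ).E X a) :
    a ∈ (combPred C).sys.C X := by
  obtain ⟨f, hf, rfl⟩ := exists_components ha
  rw [Finsupp.sum]
  refine Submodule.sum_mem _ fun j _ => ClassPred.sp_of (Q := combPred C) (j := j) ?_
  change C.e X (em W L (f j)) ∈ HS T L X j
  apply HS_of_types hL (C.gr.2 (em_gr (hf j)))
  intro τ
  rw [← rlzW_apply]
  obtain ⟨Δ, hΔ, h1⟩ := h τ
  exact pq_of_fix_index ((rlzW C τ).gr (hf j))
    ⟨Δ, hΔ, fun z hz => fix_component (rlzW C τ) hf (h1 z hz) j⟩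

/-- **The finite case.** If the classes of `S'` on all powers of `X` are generated by the classes on
one power under correspondences which are linear combinations of Hodge classes, they are linear
combinations of Hodge classes. -/
theorem comb_of_genBy (hL : Nonempty (L →+* ℂ)) {S S' : Sys W}
    (hS : ∀ Z, S.C Z ≤ (combPred C).sys.C Z) {P : 𝒱.Obj} {m : ℕ}
    (θ : P ≅ Pool.Agent.Y133.Half.pw X m) (hP : GenBy S S' X P) (n : ℕ) :
    S'.C (pw X n) ≤ (combPred C).sys.C (pw X n) := by
  intro t ht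
  refine comb_of_fix C hL (S'.even ht) fun τ => ?_
  exact fix_of_genBy (rlzW C τ) (fun Z x hx z => comb_fix C τ (hS Z hx) z) θ hP ht

end Pool.Agent.X299
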