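import Pool.Agent.X299.Tate.Pub
import Pool.Agent.Y121.AHS.Defs

/-!
# Tate classes and Hodge classes on the powers of a variety: definitions
-/

open CategoryTheory AlgebraicGeometry Filter Topology

universe u w

namespace Pool.Agent.X299

section Alg

variable {K : Type*} [Field K] {A : Type*} [Ring A] [Algebra K A]

/-- The rank of the form `(a, b) ↦ tr (a b)` on the subspace `M` of the algebra `A`. -/
noncomputable def formRank (tr : A →ₗ[K] K) (M : Submodule K A) : ℕ :=
  Module.finrank K (LinearMap.range (((LinearMap.mul K A).compr₂ tr).domRestrict₁₂ M M))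

/-- The quotient of the rank of the form `(a, b) ↦ tr (a b)` on the subspace `M` and of the
dimension of the subspace `N`. -/
noncomputable def rankQuot (tr : A →ₗ[K] K) (M N : Submodule K A) : ℝ :=
  (formRank tr M : ℝ) / Module.finrank K N

end Alg

open Pool.Agent.H914 Pool.Agent.H914.VarClass Pool.Agent.H914.VarClass.Obj
  Pool.Agent.H914.WeilCohomology Pool.Agent.Y129 Pool.Agent.Y121.AHS

variable {k : Type u} [Field k] {𝒱 : VarClass k} {ops : CycleOps 𝒱}
  {W : WeilCohomology.{u, 0} ops} {T : HodgeTheory ops} {L : Type} [Field L] [Algebra W.K L]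
  [Algebra T.W.K L]

/-- The class `y` corresponds, under the comparison isomorphism `C`, to a linear combination (with
coefficients in the field `L`, which contains the coefficients of both theories) of Hodge classes of
degree `2 j`. -/
def IsHodgeComb (C : Comparison W T.W L) {X : 𝒱.Obj} (j : ℕ) (y : W.H X) : Prop :=
  C.e X (emL W L y) ∈ Submodule.span L {x | ∃ c : T.W.H X, IsHodge T X j c ∧ emL T.W L c = x}

/-- The space of all classes on `X` which are sums of linear combinations of Hodge classes. -/
def hodgeSpace (C : Comparison W T.W L) (X : 𝒱.Obj) : Submodule W.K (W.H X) :=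
  Submodule.span W.K {y | ∃ j, IsHodgeComb C j y}

variable {X : 𝒱.Obj} {Γ : Type w} [Group Γ]

/-- The space of all sums of Tate classes on the product of `n + 1` copies of `X`. -/
noncomputable def PowAct.tateSpace (R : PowAct W X Γ) (n : ℕ) : Submodule W.K (W.H (pw X n)) :=
  ⨆ j, R.tate n j

/-- The classes on the product of `n + 1` copies of `X` which are both Tate classes and
linear combinations of Hodge classes. -/
noncomputable def PowAct.common (R : PowAct W X Γ) (C : Comparison W T.W L) (n : ℕ) :
    Submodule W.K (W.H (pw X n)) :=
  R.tateSpace n ⊓ hodgeSpace C (pw X n)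

end Pool.Agent.X299
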