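import Pool.Agent.X299.Z.HLaw
import Pool.Agent.X299.Z.Pub
import Pool.Agent.X299.Tate.Bridge
import Pool.Agent.Y121.AHS.Conv

/-!
# Zero-one laws for Tate classes and Hodge classes
-/

open CategoryTheory AlgebraicGeometry TensorProduct Filter Topology

universe u v w

namespace Pool.Agent.X299

open Module
open Pool.Agent.H914 Pool.Agent.H914.VarClass Pool.Agent.H914.VarClass.Obj
  Pool.Agent.H914.WeilCohomology Pool.Agent.H281R3.HT Pool.Agent.TH125.Gal
open Pool.Agent.Y129 (pw pj PowerAction TG StableSystem CC)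
open Pool.Agent.Y121.AH (GenBy growth_or)
open Pool.Agent.Y133.Half (PH Sys ClassPred pwIso129)

variable {k : Type u} [Field k] {𝒱 : VarClass k} {ops : CycleOps 𝒱}

section Gen

variable {W : WeilCohomology.{u, v} ops} {X Z : 𝒱.Obj}

lemma a_eq_formRank (S : Sys W) (Z : 𝒱.Obj) : S.a Z = formRank (W.tr Z) (S.C Z) := rfl

lemma CC_apply {T : Sys W} (hT : ∀ Z, algSpan W Z ≤ T.C Z) {Y Z : 𝒱.Obj}
    {f : W.H Y →ₗ[W.K] W.H Z} (hf : f ∈ CC W Y Z) {a : W.H Y} (ha : a ∈ T.C Y) :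
    f a ∈ T.C Z := by
  refine Submodule.iSup_induction (fun d : ℤ => KOp W Y Z d)
    (motive := fun f => f a ∈ T.C Z) hf ?_ ?_ ?_
  · intro d f hf
    exact Pool.Agent.Y133.Half.KOp_apply hT hf ha
  · exact Submodule.zero_mem _
  · intro f g hf hg
    exact Submodule.add_mem _ hf hg

/-- The restriction of a system of classes to the powers of `X`. -/
lemma powSys_of_sys {T : Sys W} (hT : ∀ Z, algSpan W Z ≤ T.C Z) (X : 𝒱.Obj) :
    PowSys W X fun n => T.C (pw X n) where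
  stable := Pool.Agent.Y133.Half.stable_of_sys hT X
  alg _ := hT _
  mul _ _ ha _ hb := T.mul ha hb
  even _ _ ha := T.even ha

lemma PowSys.inf {G G' : ∀ n, Submodule W.K (W.H (pw X n))} (hG : PowSys W X G)
    (hG' : PowSys W X G') : PowSys W X fun n => G n ⊓ G' n where
  stable m n f hf a ha := ⟨hG.stable m n f hf a ha.1, hG'.stable m n f hf a ha.2⟩
  alg n := le_inf (hG.alg n) (hG'.alg n)
  mul n a ha b hb := ⟨hG.mul n a ha.1 b hb.1, hG'.mul n a ha.2 b hb.2⟩
  even n a ha := hG.even n a ha.1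

lemma hull_le {G : ∀ n, Submodule W.K (W.H (pw X n))} {T : Sys W}
    (hT : ∀ Z, algSpan W Z ≤ T.C Z) (h : ∀ n, G n ≤ T.C (pw X n)) (Z : 𝒱.Obj) :
    hull W X G Z ≤ T.C Z := by
  rw [hull, Submodule.span_le]
  rintro _ ⟨n, f, hf, a, ha, rfl⟩
  exact CC_apply hT hf (h n ha)

lemma hull_mono {G G' : ∀ n, Submodule W.K (W.H (pw X n))} (h : ∀ n, G n ≤ G' n) (Z : 𝒱.Obj) :
    hull W X G Z ≤ hull W X G' Z :=
  Submodule.span_mono fun _ ⟨n, f, hf, a, ha, e⟩ => ⟨n, f, hf, a, h n ha, e⟩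

/-- Growth or finite generation, for systems on the powers of `X`. -/
lemma growth_pow {S T : Sys W} (hST : ∀ Z, S.C Z ≤ T.C Z) (hX : ∃ l ∈ S.C X, W.tr X l = 1) :
    (∃ (m : ℕ) (P : 𝒱.Obj), Nonempty (P ≅ Pool.Agent.Y133.Half.pw X m) ∧ GenBy S T X P) ∨
      Tendsto (fun n => (S.a (pw X n) : ℝ) / finrank W.K (T.C (pw X n))) atTop (𝓝 0) := by
  obtain ⟨l, hl, hl1⟩ := hX
  rcases growth_or S T hST X hl hl1 with h | h
  · exact Or.inl h
  right
  rw [Metric.tendsto_atTop]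
  intro ε hε
  obtain ⟨N, hN⟩ := exists_nat_gt (1 / ε)
  obtain ⟨n₀, hn₀⟩ := h (N + 1)
  refine ⟨n₀, fun n hn => ?_⟩
  have h1 := hn₀ n hn
  have h2 : S.a (Pool.Agent.Y133.Half.pw X n) = S.a (pw X n) := (S.a_iso (pwIso129 X n)).symm
  have h3 : finrank W.K (T.C (Pool.Agent.Y133.Half.pw X n)) = finrank W.K (T.C (pw X n)) :=
    (T.finrank_C_iso (pwIso129 X n)).symm
  rw [h2, h3] at h1
  rw [Real.dist_eq, sub_zero]
  rcases Nat.eq_zero_or_pos (finrank W.K (T.C (pw X n))) with h4 | h4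
  · rw [h4, Nat.cast_zero, div_zero, abs_zero]; exact hε
  · have h5 : (0 : ℝ) < finrank W.K (T.C (pw X n)) := by exact_mod_cast h4
    rw [abs_of_nonneg (by positivity), div_lt_iff₀ h5]
    have h6 : ((N : ℝ) + 1) * S.a (pw X n) ≤ finrank W.K (T.C (pw X n)) := by exact_mod_cast h1
    have hNpos : (0 : ℝ) < N + 1 := by positivity
    have h7 : (S.a (pw X n) : ℝ) ≤ finrank W.K (T.C (pw X n)) / (N + 1) := by
      rw [le_div_iff₀ hNpos, mul_comm]; exact h6
    refine lt_of_le_of_lt h7 ?_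
    rw [div_lt_iff₀ hNpos]
    have h8 : 1 < ε * (N + 1) := by
      rw [div_lt_iff₀ hε] at hN
      nlinarith
    nlinarith

end Gen

section Law

open Pool.Agent.Y121.AH

lemma exists_gr_top {W : WeilCohomology.{u, v} ops} {Y : 𝒱.Obj} [Nontrivial (W.H Y)] :
    ∃ z ∈ W.gr Y (2 * Y.dim), W.tr Y z = 1 := by
  obtain ⟨a, ha⟩ : ∃ a, W.tr Y ((1 : W.H Y) * a) ≠ 0 := by
    by_contra hcon
    push Not at hcon
    exact one_ne_zero (W.nondeg (1 : W.H Y) hcon)
  rw [one_mul] at ha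
  obtain ⟨b, hb, hb1⟩ : ∃ b ∈ W.gr Y (2 * Y.dim), W.tr Y b ≠ 0 := by
    by_contra hcon
    push Not at hcon
    apply ha
    refine gr_induction (W.isInternal Y) (p := fun a => W.tr Y a = 0) ?_ ?_ a
    · intro i a ha
      by_cases hi : i = 2 * Y.dim
      · subst hi; exact hcon a ha
      · exact W.tr_eq_zero ha hi
    · intro a b ha hb
      rw [map_add, ha, hb, add_zero]
  exact ⟨(W.tr Y b)⁻¹ • b, Submodule.smul_mem _ _ hb, by
    rw [map_smul, smul_eq_mul, inv_mul_cancel₀ hb1]⟩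

/-- Classes of top degree are Tate classes. -/
lemma top_TG {W : WeilCohomology.{u, v} ops} {X : 𝒱.Obj} {Γ : Type w} [Group Γ]
    {χ : Γ →* W.Kˣ} {ρ : ∀ n, Γ →* (W.H (pw X n) ≃ₐ[W.K] W.H (pw X n))}
    (h : PowerAction W X χ ρ) {n : ℕ} {b : W.H (pw X n)}
    (hb : b ∈ W.gr (pw X n) (2 * (pw X n).dim)) : b ∈ TG W X χ ρ n := by
  refine le_iSup (fun j => Pool.Agent.Y129.tateClasses χ (W.gr (pw X n)) (ρ n) j) (pw X n).dim
    ⟨hb, ⊤, inferInstance, fun g _ => ?_⟩
  have h0 : ρ n g b ∈ W.gr (pw X n) (2 * (pw X n).dim) := (h.galois n).gr_mem g _ b hb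
  rw [← sub_eq_zero]
  apply W.nondeg
  intro y
  refine gr_induction (W.isInternal (pw X n)) (p := fun y =>
    W.tr (pw X n) ((ρ n g b - (χ g : W.K) ^ (pw X n).dim • b) * y) = 0) ?_ ?_ y
  · intro i y hy
    by_cases hi : i = 0
    · subst hi
      rw [W.gr_zero, Submodule.mem_span_singleton] at hy
      obtain ⟨r, rfl⟩ := hy
      rw [mul_smul_comm, mul_one, map_smul, map_sub, map_smul, (h.galois n).tr_act,
        smul_eq_mul, smul_eq_mul, sub_self, mul_zero]
    · exact W.tr_eq_zero (W.mul_mem (Submodule.sub_mem _ h0 (Submodule.smul_mem _ _ hb)) hy)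
        (by omega)
  · intro a b ha hb
    rw [mul_add, map_add, ha, hb, add_zero]

variable {W : WeilCohomology.{u, 0} ops} {T : HodgeTheory ops} {L : Type} [Field L]
  [Algebra W.K L] [Algebra T.W.K L] (C : Comparison (baseW W L) (baseW T.W L)) {X : 𝒱.Obj}
  {Γ : Type w} [Group Γ] {χ : Γ →* W.Kˣ}
  {ρ : ∀ n, Γ →* (W.H (pw X n) ≃ₐ[W.K] W.H (pw X n))}

lemma alg_le_comb (Z : 𝒱.Obj) : algSpan W Z ≤ (combPred C).sys.C Z := ClassPred.alg_le

include C in
lemma nontrivial_of_comb (Z : 𝒱.Obj) [Nontrivial (W.H Z)] : Nontrivial (T.W.H Z) := by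
  have h1 : Pool.Agent.Y121.AH.em W L (1 : W.H Z) ≠ 0 := fun h => one_ne_zero (em_injective h)
  have h2 : C.e Z (Pool.Agent.Y121.AH.em W L (1 : W.H Z)) ≠ 0 := fun h => h1 (by
    apply (C.e Z).injective
    rw [h, map_zero])
  by_contra hcon
  rw [not_nontrivial_iff_subsingleton] at hcon
  apply h2
  refine tmul_ind (W := T.W) (L := L) (p := fun x => x = 0) rfl ?_ ?_ _
  · rintro x y rfl rfl; rw [add_zero]
  · intro l a
    rw [tmul_eq, Subsingleton.elim a 0, em_zero, smul_zero]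

/-- Classes of top degree are linear combinations of Hodge classes. -/
lemma top_comb [Nontrivial (W.H X)] {z : W.H X} (hz : z ∈ W.gr X (2 * X.dim)) :
    z ∈ (combPred C).sys.C X := by
  have := nontrivial_of_comb C X
  obtain ⟨l, hl, hl1⟩ := exists_tr_hodge T X
  apply ClassPred.sp_of (Q := combPred C) (j := X.dim)
  change C.e X (Pool.Agent.Y121.AH.em W L z) ∈ HS T L X X.dim
  have h1 : (baseW T.W L).tr X (Pool.Agent.Y121.AH.em T.W L l) = 1 := by
    rw [em_tr, hl1]; exact map_one (algebraMap T.W.K L)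
  rw [top_eq (W := baseW T.W L) (em_gr hl.1) h1 (C.gr.2 (em_gr hz))]
  exact Submodule.smul_mem _ _ (HS_of hl)

/-- The classes which are Tate classes and linear combinations of Hodge classes. -/
lemma powSys_common (h : PowerAction W X χ ρ) :
    PowSys W X fun n => TG W X χ ρ n ⊓ (combPred C).sys.C (pw X n) :=
  (powSys_TG h).inf (powSys_of_sys (alg_le_comb C) X)

lemma exists_common_top (h : PowerAction W X χ ρ) [Nontrivial (W.H X)] :
    ∃ z ∈ TG W X χ ρ 0 ⊓ (combPred C).sys.C (pw X 0), W.tr X z = 1 := by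
  obtain ⟨z, hz, hz1⟩ := exists_gr_top (W := W) (Y := X)
  have h1 : z ∈ (combPred C).sys.C X := top_comb C hz
  exact ⟨z, ⟨top_TG h hz, h1⟩, hz1⟩

/-- The system of classes which are Tate classes and linear combinations of Hodge classes. -/
noncomputable def comSys (h : PowerAction W X χ ρ) [Nontrivial (W.H X)] : Sys W :=
  sysOf (powSys_common C h) (exists_common_top C h)

lemma comSys_pw (h : PowerAction W X χ ρ) [Nontrivial (W.H X)] (n : ℕ) :
    (comSys C h).C (pw X n) = TG W X χ ρ n ⊓ (combPred C).sys.C (pw X n) :=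
  hull_pw (powSys_common C h) n

lemma comSys_le (h : PowerAction W X χ ρ) [Nontrivial (W.H X)] (Z : 𝒱.Obj) :
    (comSys C h).C Z ≤ (combPred C).sys.C Z :=
  hull_le (alg_le_comb C) (fun _ => inf_le_right) Z

lemma comSys_top (h : PowerAction W X χ ρ) [Nontrivial (W.H X)] :
    ∃ l ∈ (comSys C h).C X, W.tr X l = 1 := by
  obtain ⟨z, hz, hz1⟩ := exists_common_top C h
  exact ⟨z, (comSys_pw C h 0).symm ▸ hz, hz1⟩

/-- **Tate classes are linear combinations of Hodge classes, or few of them are.** -/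
theorem tate_or (hL : Nonempty (L →+* ℂ)) (h : PowerAction W X χ ρ) [Nontrivial (W.H X)] :
    (∀ n, TG W X χ ρ n ≤ (combPred C).sys.C (pw X n)) ∨
      Tendsto (fun n => rankQuot (W.tr (pw X n)) (TG W X χ ρ n ⊓ (combPred C).sys.C (pw X n))
        (TG W X χ ρ n)) atTop (𝓝 0) := by
  have hST : ∀ Z, (comSys C h).C Z ≤ (sysOf (powSys_TG h) (exists_top h inferInstance)).C Z :=
    fun Z => hull_mono (fun _ => inf_le_left) Z
  have hpw : ∀ n, (sysOf (powSys_TG h) (exists_top h inferInstance)).C (pw X n) =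
      TG W X χ ρ n := fun n => hull_pw (powSys_TG h) n
  rcases growth_pow hST (comSys_top C h) with ⟨m, P, ⟨θ⟩, hP⟩ | h1
  · left
    intro n
    have h2 := comb_of_genBy C hL (comSys_le C h) θ hP n
    rwa [hpw] at h2
  · right
    refine h1.congr fun n => ?_
    rw [rankQuot, a_eq_formRank, comSys_pw, hpw]

/-- **Linear combinations of Hodge classes are Tate classes, or few of them are.** -/
theorem hodge_or (h : PowerAction W X χ ρ) [Nontrivial (W.H X)] :
    (∀ n, (combPred C).sys.C (pw X n) ≤ TG W X χ ρ n) ∨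
      Tendsto (fun n => rankQuot (W.tr (pw X n)) (TG W X χ ρ n ⊓ (combPred C).sys.C (pw X n))
        ((combPred C).sys.C (pw X n))) atTop (𝓝 0) := by
  rcases growth_pow (comSys_le C h) (comSys_top C h) with ⟨m, P, ⟨θ⟩, hP⟩ | h1
  · left
    intro n
    exact tate_of_genBy h (fun n => (comSys_pw C h n).trans_le inf_le_left) θ hP n
  · right
    refine h1.congr fun n => ?_
    rw [rankQuot, a_eq_formRank, comSys_pw]

end Law

end Pool.Agent.X299
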