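import Pool.Agent.X299.Z.Place

/-!
# The Hodge index theorem for classes on one variety
-/

open CategoryTheory AlgebraicGeometry TensorProduct

universe u

namespace Pool.Agent.X299

open Module
open Pool.Agent.H914 Pool.Agent.H914.VarClass Pool.Agent.H914.VarClass.Obj
  Pool.Agent.H914.WeilCohomology Pool.Agent.Y121.AH
open Pool.Agent.Y133.Half

variable {k : Type u} [Field k] {𝒱 : VarClass k} {ops : CycleOps 𝒱} {X : 𝒱.Obj}

/-- A property of homogeneous classes on one variety which implies that they are Hodge classes and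
which is stable under products and under the inverses of the Lefschetz operators. -/
structure LocPred (T : HodgeTheory ops) (X : 𝒱.Obj) where
  /-- the property -/
  P : ℕ → T.W.H X → Prop
  hodge : ∀ {j x}, P j x → IsHodge T X j x
  sub : ∀ {j x y}, P j x → P j y → P j (x - y)
  mul : ∀ {i j x y}, P i x → P j y → P (i + j) (x * y)
  cl : ∀ {j z}, X.IsCyc j z → P j (T.W.cl X z)
  lift : ∀ D, Polarises T.W T.pq X D → ∀ j, 2 * j ≤ X.dim →
    ∀ v, P (X.dim - j) v → ∃ x, P j x ∧ T.W.cl X D ^ (X.dim - 2 * j) * x = v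

variable {T : HodgeTheory ops} (Q : LocPred T X)

namespace LocPred

lemma pow {i : ℕ} {x : T.W.H X} (hx : Q.P i x) (n : ℕ) : Q.P (i * n) (x ^ n) := by
  induction n with
  | zero =>
    rw [pow_zero, mul_zero, ← T.W.cl_fund X]
    exact Q.cl X.V.fundCycle_mem
  | succ n ih => rw [pow_succ, mul_add, mul_one]; exact Q.mul ih hx

/-- The decomposition of a class. -/
lemma decomp {D : X.Cycles} (hD : Polarises T.W T.pq X D) {j : ℕ}
    (hj : 2 * (j + 1) ≤ X.dim) {x : T.W.H X} (hx : Q.P (j + 1) x) :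
    ∃ y, Q.P j y ∧
      T.W.cl X D ^ (X.dim - 2 * (j + 1) + 1) * (x - T.W.cl X D * y) = 0 := by
  have hw : Q.P (1 * (X.dim - 2 * (j + 1) + 1)) (T.W.cl X D ^ (X.dim - 2 * (j + 1) + 1)) :=
    Q.pow (Q.cl hD.1) _
  have hv := Q.mul hw hx
  rw [show 1 * (X.dim - 2 * (j + 1) + 1) + (j + 1) = X.dim - j by omega] at hv
  obtain ⟨y, hy, hyv⟩ := Q.lift D hD j (by omega) _ hv
  refine ⟨y, hy, ?_⟩
  rw [mul_sub, ← mul_assoc, ← pow_succ, sub_eq_zero, ← hyv]
  congr 2
  omega

/-- **The Hodge index theorem.** -/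
lemma star {D : X.Cycles} (hD : Polarises T.W T.pq X D) (j : ℕ) :
    2 * j ≤ X.dim → ∀ x, Q.P j x → ∃ x', Q.P j x' ∧ (x ≠ 0 →
      Pos T j (T.W.tr X (T.W.cl X D ^ (X.dim - 2 * j) * x * x'))) := by
  induction j with
  | zero =>
    intro hj x hx
    refine ⟨x, hx, hD.2.2 0 hj x (Q.hodge hx).1 (Q.hodge hx).2 ?_⟩
    have hw : Q.P (1 * (X.dim - 2 * 0 + 1)) (T.W.cl X D ^ (X.dim - 2 * 0 + 1)) :=
      Q.pow (Q.cl hD.1) _
    have h1 := (Q.hodge (Q.mul hw hx)).1
    rw [T.W.gr_eq_bot X _ (by omega)] at h1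
    exact (Submodule.mem_bot _).1 h1
  | succ j ih =>
    intro hj x hx
    obtain ⟨y, hy, hprim⟩ := Q.decomp hD hj hx
    obtain ⟨y', hy', hyy⟩ := ih (by omega) y hy
    set w := T.W.cl X D with hw
    obtain ⟨x₀, hx₀⟩ : ∃ x₀, x₀ = x - w * y := ⟨_, rfl⟩
    rw [← hx₀] at hprim
    have hwH : Q.P 1 w := Q.cl hD.1
    have hwy : Q.P (j + 1) (w * y) := by
      have := Q.mul hwH hy; rwa [add_comm] at this
    have hwy' : Q.P (j + 1) (w * y') := by
      have := Q.mul hwH hy'; rwa [add_comm] at this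
    have hx₀H : Q.P (j + 1) x₀ := by rw [hx₀]; exact Q.sub hx hwy
    refine ⟨x₀ - w * y', Q.sub hx₀H hwy', fun hne => ?_⟩
    set m := X.dim - 2 * (j + 1) with hm
    have hwc : ∀ a, w * a = a * w := T.W.even_comm (Q.hodge hwH).1
    have hx₀c : ∀ a, x₀ * a = a * x₀ := T.W.even_comm (Q.hodge hx₀H).1
    have e1 : w ^ m * x * (x₀ - w * y') = w ^ m * x₀ * x₀ - w ^ (m + 2) * y * y' := by
      have h1 : x = x₀ + w * y := by rw [hx₀]; abel
      have h2 : w ^ m * x₀ * (w * y') = 0 := by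
        rw [← mul_assoc, mul_assoc (w ^ m), ← hwc, ← mul_assoc, ← pow_succ, hprim, zero_mul]
      have h3 : w ^ m * (w * y) * x₀ = 0 := by
        rw [← mul_assoc, ← pow_succ, mul_assoc, ← hx₀c, ← mul_assoc, hprim, zero_mul]
      have h4 : w ^ m * (w * y) * (w * y') = w ^ (m + 2) * y * y' := by
        rw [← mul_assoc (w ^ m * (w * y)), ← mul_assoc (w ^ m), mul_assoc (w ^ m * w) y w, ← hwc y,
          ← mul_assoc (w ^ m * w), ← pow_succ, ← pow_succ]
      have h5 : w ^ m * x * (x₀ - w * y') = w ^ m * (x₀ + w * y) * (x₀ - w * y') := by rw [← h1]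
      rw [h5, mul_add, add_mul, mul_sub, mul_sub, h2, h3, h4]
      abel
    have e2 : m + 2 = X.dim - 2 * j := by omega
    have e3 : (-1 : T.W.K) ^ (j + 1) * T.W.tr X (w ^ m * x * (x₀ - w * y')) =
        (-1 : T.W.K) ^ (j + 1) * T.W.tr X (w ^ m * x₀ * x₀) +
        (-1 : T.W.K) ^ j * T.W.tr X (w ^ (X.dim - 2 * j) * y * y') := by
      rw [e1, e2, map_sub, pow_succ]; ring
    have hA : x₀ ≠ 0 → Pos T (j + 1) (T.W.tr X (w ^ m * x₀ * x₀)) := fun h =>
      hD.2.2 (j + 1) hj x₀ (Q.hodge hx₀H).1 (Q.hodge hx₀H).2 hprim h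
    rcases eq_or_ne x₀ 0 with h0 | h0
    · rcases eq_or_ne y 0 with h1 | h1
      · exfalso
        apply hne
        have h2 : x = x₀ + w * y := by rw [hx₀]; abel
        rw [h2, h0, h1, mul_zero, add_zero]
      · obtain ⟨r, hr, h2⟩ := hyy h1
        refine ⟨r, hr, ?_⟩
        rw [e3, h2, h0]
        simp
    · rcases eq_or_ne y 0 with h1 | h1
      · obtain ⟨r, hr, h2⟩ := hA h0
        refine ⟨r, hr, ?_⟩
        rw [e3, h2, h1]
        simp
      · obtain ⟨r, hr, h2⟩ := hA h0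
        obtain ⟨r', hr', h3⟩ := hyy h1
        exact ⟨r + r', add_pos hr hr', by rw [e3, h2, h3, Rat.cast_add]⟩

/-- The intersection pairing is nondegenerate. -/
lemma nondeg {j l : ℕ} (hjl : j + l = X.dim) {x : T.W.H X} (hx : Q.P j x)
    (h : ∀ y, Q.P l y → T.W.tr X (x * y) = 0) : x = 0 := by
  obtain ⟨D, hD⟩ := T.dec.polar X
  have hw : ∀ n, Q.P n (T.W.cl X D ^ n) := fun n => by
    have := Q.pow (Q.cl hD.1) n; rwa [one_mul] at this
  by_cases h2j : 2 * j ≤ X.dim
  · by_contra hne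
    obtain ⟨x', hx', hp⟩ := Q.star hD j h2j x hx
    have h1 := hp hne
    have h2 : Q.P l (T.W.cl X D ^ (X.dim - 2 * j) * x') := by
      have := Q.mul (hw (X.dim - 2 * j)) hx'
      rwa [show X.dim - 2 * j + j = l by omega] at this
    have h3 : T.W.cl X D ^ (X.dim - 2 * j) * x * x' =
        x * (T.W.cl X D ^ (X.dim - 2 * j) * x') := by
      rw [T.W.even_comm (Q.hodge (hw _)).1, mul_assoc]
    rw [h3, h _ h2] at h1
    exact not_pos_zero h1
  · have hj' : j = X.dim - l := by omega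
    subst hj'
    obtain ⟨x₁, hx₁, rfl⟩ := Q.lift D hD l (by omega) _ hx
    obtain ⟨x', hx', hp⟩ := Q.star hD l (by omega) x₁ hx₁
    by_cases hne : x₁ = 0
    · rw [hne, mul_zero]
    · have h1 := hp hne
      rw [h _ hx'] at h1
      exact absurd h1 not_pos_zero

/-- The nondegeneracy on the space of all classes. -/
lemma nondeg_sum {U : Submodule T.W.K (T.W.H X)}
    (hU : ∀ x ∈ U, ∀ j, Q.P j (H914.proj (T.W.isInternal X) (2 * j) x)) (hev : U ≤ PH T.W X 0)
    (hP : ∀ j x, Q.P j x → x ∈ U) {x : T.W.H X} (hx : x ∈ U)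
    (h : ∀ y ∈ U, T.W.tr X (x * y) = 0) : x = 0 := by
  have key : ∀ (j l : ℕ), j + l = X.dim → ∀ y ∈ T.W.gr X (2 * l),
      T.W.tr X (x * y) = T.W.tr X (H914.proj (T.W.isInternal X) (2 * j) x * y) := by
    intro j l hjl y hy
    refine gr_induction (T.W.isInternal X) (p := fun x => T.W.tr X (x * y) =
      T.W.tr X (H914.proj (T.W.isInternal X) (2 * j) x * y)) ?_ ?_ x
    · intro i a ha
      by_cases hi : i = 2 * j
      · subst hi
        rw [proj_same _ ha]
      · rw [proj_ne _ ha hi, zero_mul, map_zero]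
        exact T.W.tr_eq_zero (T.W.mul_mem ha hy) (by omega)
    · intro a b ha hb
      rw [add_mul, map_add, ha, hb, map_add, add_mul, map_add]
  have h0 : ∀ j l, j + l = X.dim → H914.proj (T.W.isInternal X) (2 * j) x = 0 := by
    intro j l hjl
    refine Q.nondeg hjl (hU x hx j) fun y hy => ?_
    rw [← key j l hjl y (Q.hodge hy).1]
    exact h y (hP l y hy)
  apply T.W.nondeg
  intro b
  refine gr_induction (T.W.isInternal X) (p := fun b => T.W.tr X (x * b) = 0) ?_ ?_ b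
  · intro i b hb
    rcases Nat.even_or_odd' i with ⟨l, rfl | rfl⟩
    · by_cases hl' : l ≤ X.dim
      · rw [key (X.dim - l) l (by omega) b hb, h0 (X.dim - l) l (by omega), zero_mul, map_zero]
      · rw [T.W.gr_eq_bot X (2 * l) (by omega)] at hb
        rw [(Submodule.mem_bot _).1 hb, mul_zero, map_zero]
    · exact PH.tr_odd (PH.mul (hev hx) (PH.of hb)) (by omega)
  · intro a b ha hb
    rw [mul_add, map_add, ha, hb, add_zero]

end LocPred

end Pool.Agent.X299
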