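import Pool.Agent.X299.Z.Law

/-!
# The zero-one law for the conjecture of Mumford and Tate
-/

open CategoryTheory AlgebraicGeometry TensorProduct Filter Topology

universe u v w

namespace Pool.Agent.X299

open Module
open Pool.Agent.H914 Pool.Agent.H914.VarClass Pool.Agent.H914.VarClass.Obj
  Pool.Agent.H914.WeilCohomology Pool.Agent.H281R3.HT Pool.Agent.TH125.Gal
open Pool.Agent.Y129 (pw pj PowerAction TG StableSystem CC cycRank)
open Pool.Agent.Y121.AH (GenBy growth_or)
open Pool.Agent.Y133.Half (PH Sys ClassPred pwIso129)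

variable {k : Type u} [Field k] {𝒱 : VarClass k} {ops : CycleOps 𝒱}

section Gen

variable {W : WeilCohomology.{u, v} ops} {X : 𝒱.Obj}

lemma formRank_sys (S : Sys W) (Z : 𝒱.Obj) : formRank (W.tr Z) (S.C Z) = S.a Z := rfl

lemma formRank_le_of (S : Sys W) (Z : 𝒱.Obj) : S.a Z ≤ finrank W.K (S.C Z) := by
  have := S.a_add_num Z
  omega

lemma tendsto_of_law {a t : ℕ → ℕ} (h : ∀ N : ℕ, ∃ n₀ : ℕ, ∀ n ≥ n₀, N * a n ≤ t n) :
    Tendsto (fun n => (a n : ℝ) / t n) atTop (𝓝 0) := by
  rw [Metric.tendsto_atTop]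
  intro ε hε
  obtain ⟨N, hN⟩ := exists_nat_gt (1 / ε)
  obtain ⟨n₀, hn₀⟩ := h (N + 1)
  refine ⟨n₀, fun n hn => ?_⟩
  have h1 := hn₀ n hn
  rw [Real.dist_eq, sub_zero]
  rcases Nat.eq_zero_or_pos (t n) with h4 | h4
  · rw [h4, Nat.cast_zero, div_zero, abs_zero]; exact hε
  · have h5 : (0 : ℝ) < t n := by exact_mod_cast h4
    rw [abs_of_nonneg (by positivity), div_lt_iff₀ h5]
    have h6 : ((N : ℝ) + 1) * a n ≤ t n := by exact_mod_cast h1
    have hNpos : (0 : ℝ) < N + 1 := by positivity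
    have h7 : (a n : ℝ) ≤ t n / (N + 1) := by
      rw [le_div_iff₀ hNpos, mul_comm]; exact h6
    refine lt_of_le_of_lt h7 ?_
    rw [div_lt_iff₀ hNpos]
    have h8 : 1 < ε * (N + 1) := by
      rw [div_lt_iff₀ hε] at hN
      nlinarith
    nlinarith

/-- The quotients by larger numbers tend to zero as well. -/
lemma tendsto_of_le {a t s : ℕ → ℕ} (h : Tendsto (fun n => (a n : ℝ) / t n) atTop (𝓝 0))
    (hts : ∀ n, t n ≤ s n) (hat : ∀ n, a n ≤ t n) :
    Tendsto (fun n => (a n : ℝ) / s n) atTop (𝓝 0) := by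
  refine squeeze_zero (fun n => by positivity) (fun n => ?_) h
  rcases Nat.eq_zero_or_pos (t n) with h4 | h4
  · have h5 : a n = 0 := by have := hat n; omega
    rw [h5, Nat.cast_zero, zero_div, zero_div]
  · have h5 : (0 : ℝ) < t n := by exact_mod_cast h4
    have h6 : (t n : ℝ) ≤ s n := by exact_mod_cast hts n
    exact div_le_div_of_nonneg_left (Nat.cast_nonneg _) h5 h6

lemma num_pow {S T : Sys W} (hST : ∀ Z, S.C Z ≤ T.C Z) (X : 𝒱.Obj) :
    (∀ n, S.Num (pw X n) = ⊥) ∨
      Tendsto (fun n => (S.a (pw X n) : ℝ) / finrank W.K (T.C (pw X n))) atTop (𝓝 0) := by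
  rcases S.num_or T hST X with h | h
  · left
    intro n
    exact (num_bot_iso S (pwIso129 X n)).2 (h n)
  · right
    apply tendsto_of_law
    intro N
    obtain ⟨n₀, hn₀⟩ := h N
    refine ⟨n₀, fun n hn => ?_⟩
    have h1 := hn₀ n hn
    have h2 : S.a (Pool.Agent.Y133.Half.pw X n) = S.a (pw X n) := (S.a_iso (pwIso129 X n)).symm
    have h3 : finrank W.K (T.C (Pool.Agent.Y133.Half.pw X n)) = finrank W.K (T.C (pw X n)) :=
      (T.finrank_C_iso (pwIso129 X n)).symm
    rw [h2, h3] at h1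
    exact h1

end Gen

section Law

open Pool.Agent.Y121.AH

variable {W : WeilCohomology.{u, 0} ops} {T : HodgeTheory ops} {L : Type} [Field L]
  [Algebra W.K L] [Algebra T.W.K L] (C : Comparison (baseW W L) (baseW T.W L)) {X : 𝒱.Obj}
  {Γ : Type w} [Group Γ] {χ : Γ →* W.Kˣ}
  {ρ : ∀ n, Γ →* (W.H (pw X n) ≃ₐ[W.K] W.H (pw X n))}

/-- **The zero-one law for the conjecture of Mumford and Tate.** -/
theorem mt_or (hL : Nonempty (L →+* ℂ)) (h : PowerAction W X χ ρ) [Nontrivial (W.H X)] :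
    (∀ n, cycRank ops (pw X n) ≤
        formRank (W.tr (pw X n)) (TG W X χ ρ n ⊓ (combPred C).sys.C (pw X n)) ∧
      formRank (W.tr (pw X n)) (TG W X χ ρ n ⊓ (combPred C).sys.C (pw X n)) ≤
        min (finrank W.K (TG W X χ ρ n)) (finrank W.K ((combPred C).sys.C (pw X n)))) ∧
    (((∀ n, TG W X χ ρ n = (combPred C).sys.C (pw X n) ∧
        formRank (W.tr (pw X n)) (TG W X χ ρ n ⊓ (combPred C).sys.C (pw X n)) =
          finrank W.K (TG W X χ ρ n)) ∧ TatePerfect W X χ ρ) ∨
      Tendsto (fun n => (formRank (W.tr (pw X n)) (TG W X χ ρ n ⊓ (combPred C).sys.C (pw X n)) : ℝ)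
        / (max (finrank W.K (TG W X χ ρ n)) (finrank W.K ((combPred C).sys.C (pw X n))) : ℕ))
        atTop (𝓝 0)) := by
  have ha : ∀ n, formRank (W.tr (pw X n)) (TG W X χ ρ n ⊓ (combPred C).sys.C (pw X n)) =
      (comSys C h).a (pw X n) := by
    intro n
    rw [a_eq_formRank, comSys_pw]
  have h1 : ∀ n, formRank (W.tr (pw X n)) (TG W X χ ρ n ⊓ (combPred C).sys.C (pw X n)) ≤
      finrank W.K (TG W X χ ρ n) := by
    intro n
    rw [ha]
    refine (formRank_le_of _ _).trans ?_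
    rw [comSys_pw]
    exact Submodule.finrank_mono inf_le_left
  have h2 : ∀ n, formRank (W.tr (pw X n)) (TG W X χ ρ n ⊓ (combPred C).sys.C (pw X n)) ≤
      finrank W.K ((combPred C).sys.C (pw X n)) := by
    intro n
    rw [ha]
    refine (formRank_le_of _ _).trans ?_
    rw [comSys_pw]
    exact Submodule.finrank_mono inf_le_right
  refine ⟨fun n => ⟨?_, le_min (h1 n) (h2 n)⟩, ?_⟩
  · rw [ha]
    refine (le_of_eq (Pool.Agent.Y133.Half.numDim_eq_cycRank W (pw X n)).symm).trans ?_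
    exact a_le_a (fun Z => alg_le_hull (powSys_common C h) (exists_common_top C h) Z) _
  rcases tate_or C hL h with h3 | h3
  swap
  · right
    exact tendsto_of_le h3 (fun n => le_max_left _ _) h1
  rcases hodge_or C h with h4 | h4
  swap
  · right
    exact tendsto_of_le h4 (fun n => le_max_right _ _) h2
  have h5 : ∀ n, TG W X χ ρ n = (combPred C).sys.C (pw X n) :=
    fun n => le_antisymm (h3 n) (h4 n)
  have h6 : ∀ n, (comSys C h).C (pw X n) = TG W X χ ρ n := by
    intro n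
    rw [comSys_pw, ← h5, inf_idem]
  rcases num_pow (S := comSys C h) (fun Z => le_rfl) X with h7 | h7
  · left
    refine ⟨fun n => ⟨h5 n, ?_⟩, ?_⟩
    · rw [ha]
      have h8 := (comSys C h).a_add_num (pw X n)
      rw [h7, finrank_bot, add_zero, h6] at h8
      exact h8
    · apply perfect_homog
      intro n c hc hc'
      have h8 : c ∈ (comSys C h).Num (pw X n) := by
        refine ⟨?_, fun d hd => hc' d ?_⟩
        · rw [h6]; exact hc
        · rw [h6] at hd; exact hd
      rw [h7] at h8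
      exact h8
  · right
    have h8 : Tendsto (fun n => (formRank (W.tr (pw X n))
        (TG W X χ ρ n ⊓ (combPred C).sys.C (pw X n)) : ℝ) / finrank W.K (TG W X χ ρ n))
        atTop (𝓝 0) := by
      refine h7.congr fun n => ?_
      rw [ha, h6]
    exact tendsto_of_le h8 (fun n => le_max_left _ _) h1

end Law

end Pool.Agent.X299
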