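import Pool.Agent.X299.Z.Theta
import Pool.Agent.X299.Z.MT

/-!
# Realisations of the rational theory, and descent
-/

open CategoryTheory AlgebraicGeometry TensorProduct

universe u w

namespace Pool.Agent.X299

open Module
open Pool.Agent.H914 Pool.Agent.H914.VarClass Pool.Agent.H914.VarClass.Obj
  Pool.Agent.H914.WeilCohomology Pool.Agent.H281R3.HT Pool.Agent.TH125.Gal Pool.Agent.Y121.AH
open Pool.Agent.Y129 (pw pj PowerAction TG tateClasses)
open Pool.Agent.Y133.Half (PH Sys ClassPred pwIso129)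

variable {k : Type u} [Field k] {𝒱 : VarClass k} {ops : CycleOps 𝒱}
  {V : WeilCohomology.{u, 0} ops} {T : HodgeTheory ops} {X : 𝒱.Obj}

/-- The change of the coefficients as a realisation. -/
noncomputable def psiR (T : HodgeTheory ops) {L : Type} [Field L] [Algebra T.W.K L]
    (τ : L →+* ℂ) : Rlz (baseW T.W L) (CW T) where
  s := kap T.W (ratAlg T τ)
  c := 1
  ne := one_ne_zero
  E Z := psi T.W (ratAlg T τ) Z
  semi Z r a := psi_smul _ r a
  gr h := psi_gr _ h
  nat f b := psi_map _ f b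
  push f a := by rw [one_pow, one_pow, one_smul, one_smul, psi_push]

lemma psiR_tr {L : Type} [Field L] [Algebra T.W.K L] (τ : L →+* ℂ) (Z : 𝒱.Obj)
    (x : (baseW T.W L).H Z) :
    (CW T).tr Z ((psiR T τ).E Z x) = (psiR T τ).s ((baseW T.W L).tr Z x) := by
  change (CW T).tr Z (psi T.W (ratAlg T τ) Z x) = kap T.W (ratAlg T τ) ((baseW T.W L).tr Z x)
  refine tmul_ind (p := fun x => (CW T).tr Z (psi T.W (ratAlg T τ) Z x) =
    kap T.W (ratAlg T τ) ((baseW T.W L).tr Z x)) ?_ ?_ ?_ x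
  · simp only [map_zero]
  · intro x y hx hy; simp only [map_add, hx, hy]
  · intro l a
    rw [tmul_eq, psi_smul, psi_em, map_smul, map_smul, smul_eq_mul, smul_eq_mul, map_mul]
    congr 1
    rw [em_tr, em_tr]
    obtain ⟨q, hq⟩ := T.rat (T.W.tr Z a)
    rw [← hq, ex_rat, ex_rat, map_ratCast]

/-- The mixed realisations. -/
lemma exists_mix (E : Rlz T.W V) (hE : Full E) (τ : V.K →+* ℂ) : ∃ M : Rlz V (CW T),
    Full M ∧ (∀ r : V.K, M.s r = (show (CW T).K from τ r)) ∧
      ∀ Z a, M.E Z (E.E Z a) = em T.W ℂ a := by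
  let _ : Algebra T.W.K V.K := E.s.toAlgebra
  have hs : ∀ r, E.s r = algebraMap T.W.K V.K r := fun _ => rfl
  have hM : ∀ Z a, (Rlz.comp' (psiR T τ) (thR hs hE)).E Z (E.E Z a) = em T.W ℂ a := by
    intro Z a
    rw [comp'_apply, thR_E]
    exact psi_em _ a
  refine ⟨Rlz.comp' (psiR T τ) (thR hs hE), ⟨fun Z => ?_, fun Z y => ?_⟩, fun r => rfl, hM⟩
  · rw [eq_top_iff]
    rintro x -
    refine tmul_ind (p := fun x => x ∈ Submodule.span (CW T).K
      (Set.range ((Rlz.comp' (psiR T τ) (thR hs hE)).E Z))) ?_ ?_ ?_ x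
    · exact Submodule.zero_mem _
    · intro x y hx hy; exact Submodule.add_mem _ hx hy
    · intro l a
      rw [tmul_eq]
      exact Submodule.smul_mem _ _ (Submodule.subset_span ⟨_, hM Z a⟩)
  · obtain ⟨x, rfl⟩ := th_surjective hs hE Z y
    rw [comp'_apply, thR_apply, psiR_tr, th_tr hs hE]
    change (psiR T τ).s ((baseW T.W V.K).tr Z x) =
      (1 * (psiR T τ).s (show (baseW T.W V.K).K from E.c⁻¹)) ^ Z.dim *
        (psiR T τ).s (show (baseW T.W V.K).K from
          (E.c ^ Z.dim * (show V.K from (baseW T.W V.K).tr Z x)))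
    rw [one_mul, ← map_pow, ← map_mul]
    congr 1
    change (show V.K from (baseW T.W V.K).tr Z x) = (E.c⁻¹ : V.K) ^ Z.dim *
      (E.c ^ Z.dim * (show V.K from (baseW T.W V.K).tr Z x))
    rw [← mul_assoc, inv_pow, inv_mul_cancel₀ (pow_ne_zero _ E.ne), one_mul]

/-- **Descent.** Every class is a linear combination of the images of rational classes which have
all the properties (given by subspaces of the complex cohomology) of its images. -/
lemma descent (E : Rlz T.W V) (hE : Full E) (hemb : Nonempty (V.K →+* ℂ)) {Z : 𝒱.Obj}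
    (y : V.H Z) : ∃ (ι : Type) (s : Finset ι) (l : ι → V.K) (b : ι → T.W.H Z),
      y = ∑ i ∈ s, l i • E.E Z (b i) ∧
      ∀ P : Submodule (CW T).K ((CW T).H Z), (∀ M : Rlz V (CW T), Full M →
        (∀ Z a, M.E Z (E.E Z a) = em T.W ℂ a) → M.E Z y ∈ P) →
          ∀ i ∈ s, em T.W ℂ (b i) ∈ P := by
  classical
  let _ : Algebra T.W.K V.K := E.s.toAlgebra
  have hs : ∀ r, E.s r = algebraMap T.W.K V.K r := fun _ => rfl
  let B := Basis.ofVectorSpace T.W.K V.K
  set x : V.K ⊗[T.W.K] T.W.H Z := (thR hs hE).E Z y with hx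
  obtain ⟨s, hsx⟩ := exists_coords B x
  have hy : y = ∑ i ∈ s, B i • E.E Z (coB B i x) := by
    have h1 : y = th E hs Z x := (th_thR hs hE Z y).symm
    have h2 : th E hs Z (show (baseW T.W V.K).H Z from ∑ i ∈ s, B i ⊗ₜ[T.W.K] coB B i x) =
        ∑ i ∈ s, th E hs Z (show (baseW T.W V.K).H Z from B i ⊗ₜ[T.W.K] coB B i x) :=
      map_sum (th E hs Z) (fun i => (show (baseW T.W V.K).H Z from B i ⊗ₜ[T.W.K] coB B i x)) s
    rw [h1]
    refine (congrArg (th E hs Z) hsx).trans (h2.trans ?_)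
    exact Finset.sum_congr rfl fun i _ => th_tmul E hs Z _ _
  refine ⟨_, s, fun i => B i, fun i => coB B i x, hy, ?_⟩
  intro P hP i0 hi0
  by_contra hcon
  obtain ⟨φ, h1, h2⟩ := Submodule.exists_le_ker_of_notMem hcon
  let g : Basis.ofVectorSpaceIndex T.W.K V.K → ℂ := fun i =>
    (show ℂ from φ (em T.W ℂ (coB B i x)))
  let c : Basis.ofVectorSpaceIndex T.W.K V.K →₀ ℂ :=
    Finsupp.onFinset s (fun i => if i ∈ s then g i else 0) (fun i hi => by
      by_contra h
      exact hi (if_neg h))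
  have hc0 : c = 0 := by
    apply artin hemb B B.linearIndependent
    intro τ
    obtain ⟨M, hM, hMs, hME⟩ := exists_mix E hE τ
    have h3 := h2 (hP M hM hME)
    rw [LinearMap.mem_ker, hy, map_sum, map_sum] at h3
    rw [Finsupp.onFinset_sum _ (fun i => by rw [zero_mul])]
    refine Eq.trans ?_ h3
    refine Finset.sum_congr rfl fun i hi => ?_
    rw [if_pos hi, M.semi, hMs, hME, map_smul, smul_eq_mul, mul_comm]
    rfl
  have h5 := DFunLike.congr_fun hc0 i0
  rw [Finsupp.onFinset_apply, if_pos hi0, Finsupp.zero_apply] at h5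
  exact h1 h5

end Pool.Agent.X299
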