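import Mathlib

/-!
# Vectors whose powers lie in representations of bounded complexity are fixed by a subgroup of
finite index
-/

namespace Pool.Agent.X299

open Module

section Index

variable {Γ : Type*} [Group Γ]

/-- A subgroup is of finite index if a function with finitely many values on a subgroup of finite
index separates its cosets. -/
lemma finiteIndex_of_image {α : Type*} (Δ H : Subgroup Γ) (hΔ : Δ.FiniteIndex) (f : Γ → α)
    (hf : (f '' (Δ : Set Γ)).Finite) (h : ∀ g ∈ Δ, ∀ g' ∈ Δ, f g = f g' → g⁻¹ * g' ∈ H) :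
    H.FiniteIndex := by
  classical
  have h1 : Finite (Δ ⧸ H.subgroupOf Δ) := by
    have : Finite (f '' (Δ : Set Γ)) := hf
    let F : (Δ ⧸ H.subgroupOf Δ) → f '' (Δ : Set Γ) := fun q =>
      ⟨f (Quotient.out q : Δ), ⟨_, (Quotient.out q : Δ).2, rfl⟩⟩
    refine Finite.of_injective F fun q q' hq => ?_
    have h2 : f (Quotient.out q : Δ) = f (Quotient.out q' : Δ) := congrArg Subtype.val hq
    have h3 := h _ (Quotient.out q : Δ).2 _ (Quotient.out q' : Δ).2 h2
    have h4 : (QuotientGroup.mk (Quotient.out q) : Δ ⧸ H.subgroupOf Δ) =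
        QuotientGroup.mk (Quotient.out q') := by
      rw [QuotientGroup.eq]
      rw [Subgroup.mem_subgroupOf]
      exact h3
    rwa [QuotientGroup.out_eq', QuotientGroup.out_eq'] at h4
  have h2 : (H.subgroupOf Δ).FiniteIndex := Subgroup.finiteIndex_of_finite_quotient
  have h3 : (H ⊓ Δ).FiniteIndex := by
    constructor
    have h4 : H.relIndex Δ ≠ 0 := h2.index_ne_zero
    rw [← Subgroup.relIndex_mul_index (inf_le_right : H ⊓ Δ ≤ Δ), Subgroup.inf_relIndex_right]
    exact mul_ne_zero h4 hΔ.index_ne_zero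
  exact Subgroup.finiteIndex_of_le (inf_le_left : H ⊓ Δ ≤ H)

end Index

section Orbit

variable {K : Type*} [Field K] {Γ : Type*} [Group Γ]
  {V Q : Type*} [AddCommGroup V] [Module K V] [AddCommGroup Q] [Module K Q]
  {U : ℕ → Type*} [∀ m, AddCommGroup (U m)] [∀ m, Module K (U m)]

/-- `pow m v` behaves like the tensor power `v ⊗ … ⊗ v` with `m + 1` factors, for `v` in `V₀`. -/
structure IsPow (V₀ : Submodule K V) (pow : ∀ m, V → U m) : Prop where
  smul : ∀ m (a : K), ∀ v ∈ V₀, pow m (a • v) = a ^ (m + 1) • pow m v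
  ev : ∀ m (φ : Fin (m + 1) → Module.Dual K V), ∃ Φ : Module.Dual K (U m),
    ∀ v ∈ V₀, Φ (pow m v) = ∏ i, φ i v

lemma exists_form {v w : V} (h : v ∉ Submodule.span K {w}) :
    ∃ φ : Module.Dual K V, φ w = 0 ∧ φ v ≠ 0 := by
  obtain ⟨f, h1, h2⟩ := Submodule.exists_le_ker_of_notMem h
  exact ⟨f, by simpa using h2 (Submodule.mem_span_singleton_self w), h1⟩

lemma exists_form' {v : V} (h : v ≠ 0) : ∃ φ : Module.Dual K V, φ v ≠ 0 := by
  obtain ⟨φ, _, h1⟩ := exists_form (K := K) (v := v) (w := 0) (by simpa using h)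
  exact ⟨φ, h1⟩

variable {V₀ : Submodule K V} {pow : ∀ m, V → U m}

lemma IsPow.ne_zero (hp : IsPow V₀ pow) {v : V} (hv : v ∈ V₀) (h0 : v ≠ 0) (m : ℕ) :
    pow m v ≠ 0 := by
  obtain ⟨φ, hφ⟩ := exists_form' (K := K) h0
  obtain ⟨Φ, hΦ⟩ := hp.ev m fun _ => φ
  intro h
  have h1 := hΦ v hv
  rw [h, map_zero] at h1
  exact Finset.prod_ne_zero_iff.2 (fun _ _ => hφ) h1.symm

/-- The powers of vectors which are not proportional are linearly independent. -/
lemma IsPow.linearIndependent (hp : IsPow V₀ pow) {m : ℕ} (v : Fin (m + 1) → V)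
    (hv : ∀ i, v i ∈ V₀) (h0 : ∀ i, v i ≠ 0)
    (h : ∀ i j, i ≠ j → v i ∉ Submodule.span K {v j}) :
    LinearIndependent K fun i => pow m (v i) := by
  classical
  have h1 : ∀ i j, ∃ φ : Module.Dual K V, (i ≠ j → φ (v j) = 0) ∧ φ (v i) ≠ 0 := by
    intro i j
    by_cases hij : i = j
    · obtain ⟨φ, hφ⟩ := exists_form' (K := K) (h0 i)
      exact ⟨φ, fun h => absurd hij h, hφ⟩
    · obtain ⟨φ, hφ, hφ'⟩ := exists_form (h i j hij)
      exact ⟨φ, fun _ => hφ, hφ'⟩
  choose φ hφ hφ' using h1
  have h2 : ∀ i, ∃ Φ : Module.Dual K (U m), (∀ j, i ≠ j → Φ (pow m (v j)) = 0) ∧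
      Φ (pow m (v i)) ≠ 0 := by
    intro i
    obtain ⟨Φ, hΦ⟩ := hp.ev m (φ i)
    refine ⟨Φ, fun j hj => ?_, ?_⟩
    · rw [hΦ _ (hv j)]
      exact Finset.prod_eq_zero (Finset.mem_univ j) (hφ i j hj)
    · rw [hΦ _ (hv i)]
      exact Finset.prod_ne_zero_iff.2 fun j _ => hφ' i j
  choose Φ hΦ hΦ' using h2
  rw [Fintype.linearIndependent_iff]
  intro c hc i
  have h3 := congrArg (Φ i) hc
  rw [map_zero, map_sum, Finset.sum_eq_single i] at h3
  · rw [map_smul, smul_eq_mul] at h3
    exact (mul_eq_zero.1 h3).resolve_right (hΦ' i)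
  · intro j _ hj
    rw [map_smul, hΦ i j hj.symm, smul_zero]
  · intro hi; exact absurd (Finset.mem_univ i) hi

lemma pow_eq_one_of_roots {p : Polynomial K} (hp : p ≠ 0) {l : K} (hl : l ≠ 0)
    (h : ∀ m ≤ p.natDegree, p.IsRoot (l ^ (m + 1))) : l ^ (p.natDegree).factorial = 1 := by
  classical
  -- two of the powers coincide
  obtain ⟨a, ha, b, hb, hab, he⟩ : ∃ a ∈ Finset.range (p.natDegree + 1),
      ∃ b ∈ Finset.range (p.natDegree + 1), a ≠ b ∧ l ^ (a + 1) = l ^ (b + 1) := by
    apply Finset.exists_ne_map_eq_of_card_lt_of_maps_to (t := p.roots.toFinset)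
    · rw [Finset.card_range]
      exact Nat.lt_succ_of_le ((Multiset.toFinset_card_le _).trans (Polynomial.card_roots' p))
    · intro m hm
      rw [Finset.coe_range, Set.mem_Iio] at hm
      simp only [Finset.mem_coe, Multiset.mem_toFinset]
      rw [Polynomial.mem_roots hp]
      exact h m (Nat.lt_succ_iff.1 hm)
  have key : ∀ a b : ℕ, a < b → b ≤ p.natDegree → l ^ (a + 1) = l ^ (b + 1) →
      l ^ (p.natDegree).factorial = 1 := by
    intro a b hab hb he
    have h1 : l ^ (b - a) = 1 := by
      have h2 : l ^ (b + 1) = l ^ (a + 1) * l ^ (b - a) := by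
        rw [← pow_add]
        congr 1
        omega
      rw [h2] at he
      have h3 : l ^ (a + 1) * l ^ (b - a) = l ^ (a + 1) * 1 := by rw [← he, mul_one]
      exact mul_left_cancel₀ (pow_ne_zero _ hl) h3
    obtain ⟨c, hc⟩ := Nat.dvd_factorial (show 0 < b - a by omega)
      (show b - a ≤ p.natDegree by omega)
    rw [hc, pow_mul, h1, one_pow]
  rw [Finset.mem_range] at ha hb
  rcases lt_or_gt_of_ne hab with h1 | h1
  · exact key a b h1 (by omega) he
  · exact key b a h1 (by omega) he.symm

variable [FiniteDimensional K Q]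

/-- **The orbit principle.** Let `t` be a vector whose powers `pow m t` have the following property:
on a subgroup of finite index (which may depend on `m`) the vector `g · pow m t` is a linear
function of the operator of `g` on a fixed finite-dimensional representation `Q`. Then `t` is fixed
by a subgroup of finite index. -/
theorem fixed_of_pow (ρ : Γ →* Module.End K V) (σ : ∀ m, Γ →* Module.End K (U m))
    (τ : Γ →* Module.End K Q) (hV₀ : ∀ g, ∀ v ∈ V₀, ρ g v ∈ V₀) (hp : IsPow V₀ pow)
    (he : ∀ m g, ∀ v ∈ V₀, σ m g (pow m v) = pow m (ρ g v)) {t : V} (ht : t ∈ V₀)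
    (hgen : ∀ m, ∃ Δ : Subgroup Γ, Δ.FiniteIndex ∧ ∃ F : Module.End K Q →ₗ[K] U m,
      ∀ g ∈ Δ, σ m g (pow m t) = F (τ g)) :
    ∃ Δ : Subgroup Γ, Δ.FiniteIndex ∧ ∀ g ∈ Δ, ρ g t = t := by
  classical
  by_cases ht0 : t = 0
  · exact ⟨⊤, inferInstance, fun g _ => by rw [ht0, map_zero]⟩
  have hinv : ∀ g v, ρ g⁻¹ (ρ g v) = v := by
    intro g v
    rw [← Module.End.mul_apply, ← map_mul, inv_mul_cancel, map_one]
    rfl
  have hmul : ∀ g g' v, ρ (g * g') v = ρ g (ρ g' v) := by
    intro g g' v
    rw [map_mul]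
    rfl
  have hne : ∀ g, ρ g t ≠ 0 := by
    intro g h
    apply ht0
    rw [← hinv g t, h, map_zero]
  choose Δ hΔ F hF using hgen
  -- the lines generated by the conjugates
  let L : Γ → Submodule K V := fun g => Submodule.span K {ρ g t}
  have hLmap : ∀ g g', (L g').map (ρ g) = L (g * g') := by
    intro g g'
    change (Submodule.span K {ρ g' t}).map (ρ g) = Submodule.span K {ρ (g * g') t}
    rw [Submodule.map_span, Set.image_singleton, hmul]
  set D := finrank K (Module.End K Q) with hD
  have hfin : (L '' (Δ D : Set Γ)).Finite := by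
    by_contra hcon
    obtain ⟨s, hs, hcard⟩ := Set.Infinite.exists_subset_card_eq hcon (D + 1)
    have e : Fin (D + 1) ≃ s := (Fintype.equivFinOfCardEq (by simpa using hcard)).symm
    have h1 : ∀ i : Fin (D + 1), ∃ g ∈ Δ D, L g = (e i : Submodule K V) := fun i => by
      obtain ⟨g, hg, hgi⟩ := hs (e i).2
      exact ⟨g, hg, hgi⟩
    choose g hg hLg using h1
    have h2 := hp.linearIndependent (m := D) (fun i => ρ (g i) t) (fun i => hV₀ _ _ ht)
      (fun i => hne _) (by
        intro i j hij h3
        apply hij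
        apply e.injective
        apply Subtype.ext
        rw [← hLg i, ← hLg j]
        apply le_antisymm
        · exact (Submodule.span_singleton_le_iff_mem _ _).2 h3
        · obtain ⟨a, ha⟩ := Submodule.mem_span_singleton.1 h3
          refine (Submodule.span_singleton_le_iff_mem _ _).2 ?_
          have ha0 : a ≠ 0 := by
            rintro rfl
            rw [zero_smul] at ha
            exact hne _ ha.symm
          refine Submodule.mem_span_singleton.2 ⟨a⁻¹, ?_⟩
          rw [← ha, smul_smul, inv_mul_cancel₀ ha0, one_smul])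
    have h3 : ∀ i, pow D (ρ (g i) t) ∈ LinearMap.range (F D) := by
      intro i
      rw [← he D (g i) t ht, hF D (g i) (hg i)]
      exact ⟨_, rfl⟩
    have h4 : LinearIndependent K (fun i => (⟨_, h3 i⟩ : LinearMap.range (F D))) :=
      LinearIndependent.of_comp (LinearMap.range (F D)).subtype h2
    have h5 := h4.fintype_card_le_finrank
    rw [Fintype.card_fin] at h5
    have h6 := LinearMap.finrank_range_le (F D)
    omega
  -- the stabiliser of the line
  let H : Subgroup Γ :=
    { carrier := {g | L g = L 1}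
      mul_mem' := fun {a b} ha hb => by
        change L (a * b) = L 1
        rw [← hLmap, show L b = L 1 from hb, hLmap, mul_one]
        exact ha
      one_mem' := rfl
      inv_mem' := fun {a} ha => by
        change L a⁻¹ = L 1
        have h1 : L a = L 1 := ha
        have h2 := hLmap a⁻¹ a
        rw [inv_mul_cancel, h1, hLmap, mul_one] at h2
        exact h2 }
  have hH : H.FiniteIndex := by
    refine finiteIndex_of_image (Δ D) H (hΔ D) L hfin ?_
    intro g _ g' _ h
    change L (g⁻¹ * g') = L 1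
    rw [← hLmap, ← h, hLmap, inv_mul_cancel]
  have hscal : ∀ g ∈ H, ∃ a : K, a ≠ 0 ∧ ρ g t = a • t := by
    intro g hg
    have h1 : ρ g t ∈ L g := Submodule.mem_span_singleton_self _
    rw [show L g = L 1 from hg] at h1
    obtain ⟨a, ha⟩ := Submodule.mem_span_singleton.1 h1
    rw [map_one, Module.End.one_apply] at ha
    refine ⟨a, ?_, ha.symm⟩
    rintro rfl
    rw [zero_smul] at ha
    exact hne g ha.symm
  -- the second subgroup
  set h := finrank K Q with hh
  let Δ' : Subgroup Γ := H ⊓ ⨅ m : Fin (h + 1), Δ m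
  have hΔ' : Δ'.FiniteIndex := by
    have h1 : (⨅ m : Fin (h + 1), Δ m).FiniteIndex :=
      Subgroup.finiteIndex_iInf fun m => hΔ m
    exact inferInstanceAs (H ⊓ ⨅ m : Fin (h + 1), Δ m).FiniteIndex
  have hroot : ∀ g ∈ Δ', ∃ a : K, a ^ h.factorial = 1 ∧ ρ g t = a • t := by
    rintro g ⟨hg, hg'⟩
    obtain ⟨a, ha0, ha⟩ := hscal g hg
    refine ⟨a, ?_, ha⟩
    have hdeg : (τ g).charpoly.natDegree = h := LinearMap.charpoly_natDegree _
    have h1 := pow_eq_one_of_roots (p := (τ g).charpoly) (LinearMap.charpoly_monic _).ne_zero ha0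
      (by
        intro m hm
        rw [hdeg] at hm
        have hgm : g ∈ Δ m := (Subgroup.mem_iInf.1 hg') ⟨m, by omega⟩
        have h2 : σ m g (pow m t) = a ^ (m + 1) • pow m t := by
          rw [he m g t ht, ha, hp.smul m a t ht]
        have h3 : ∀ n : ℕ, F m ((τ g) ^ n) = (a ^ (m + 1)) ^ n • pow m t := by
          intro n
          have h4 : σ m (g ^ n) (pow m t) = F m (τ (g ^ n)) := hF m _ (Subgroup.pow_mem _ hgm n)
          rw [map_pow, map_pow] at h4
          rw [← h4]
          clear h4
          induction n with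
          | zero => simp
          | succ n ih =>
            rw [pow_succ', Module.End.mul_apply, ih, map_smul, h2, smul_smul, ← pow_succ]
        have h5 : ∀ q : Polynomial K, F m (Polynomial.aeval (τ g) q) =
            q.eval (a ^ (m + 1)) • pow m t := by
          intro q
          induction q using Polynomial.induction_on' with
          | add p q hp hq => rw [map_add, map_add, hp, hq, Polynomial.eval_add, add_smul]
          | monomial n c =>
            rw [Polynomial.aeval_monomial, Polynomial.eval_monomial, ← Algebra.smul_def, map_smul,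
              h3, smul_smul]
        have h6 := h5 (τ g).charpoly
        rw [LinearMap.aeval_self_charpoly, map_zero] at h6
        exact (smul_eq_zero.1 h6.symm).resolve_right (hp.ne_zero ht ht0 m))
    rwa [hdeg] at h1
  -- the stabiliser of the vector
  let H' : Subgroup Γ :=
    { carrier := {g | ρ g t = t}
      mul_mem' := fun {a b} ha hb => by
        change ρ (a * b) t = t
        rw [hmul, show ρ b t = t from hb]
        exact ha
      one_mem' := by
        change ρ 1 t = t
        rw [map_one]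
        rfl
      inv_mem' := fun {a} ha => by
        change ρ a⁻¹ t = t
        have h1 : ρ a t = t := ha
        conv_lhs => rw [← h1]
        exact hinv a t }
  refine ⟨H', ?_, fun g hg => hg⟩
  refine finiteIndex_of_image Δ' H' hΔ' (fun g => ρ g t) ?_ ?_
  · have h1 : ({a : K | a ^ h.factorial = 1}).Finite := by
      have h2 : (Polynomial.X ^ h.factorial - 1 : Polynomial K) ≠ 0 := by
        apply Polynomial.X_pow_sub_C_ne_zero (Nat.factorial_pos _) (1 : K)
      refine (Polynomial.finite_setOfPred_isRoot h2).subset ?_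
      intro a ha
      have ha' : a ^ h.factorial = 1 := ha
      change Polynomial.IsRoot _ _
      simp [ha']
    refine (h1.image fun a => a • t).subset ?_
    rintro _ ⟨g, hg, rfl⟩
    obtain ⟨a, ha, ha'⟩ := hroot g hg
    exact ⟨a, ha, ha'.symm⟩
  · intro g _ g' _ h
    change ρ (g⁻¹ * g') t = t
    have h' : ρ g t = ρ g' t := h
    rw [hmul, ← h', hinv]

end Orbit

end Pool.Agent.X299
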