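import Pool.Agent.X299.Z.Mix

/-!
# Universal classes
-/

open CategoryTheory AlgebraicGeometry TensorProduct Filter Topology

universe u v w

namespace Pool.Agent.X299

open Module
open Pool.Agent.H914 Pool.Agent.H914.VarClass Pool.Agent.H914.VarClass.Obj
  Pool.Agent.H914.WeilCohomology Pool.Agent.H281R3.HT Pool.Agent.TH125.Gal Pool.Agent.Y121.AH
open Pool.Agent.Y129 (pw pj PowerAction TG tateClasses CC cycRank)
open Pool.Agent.Y133.Half (PH Sys ClassPred pwIso129)
open Pool.Agent.W536.RR

variable {k : Type u} [Field k] {𝒱 : VarClass k} {ops : CycleOps 𝒱}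

section One

variable {W V : WeilCohomology.{u, 0} ops} (E : Rlz W V) {X Y Z : 𝒱.Obj}

/-- The realisation respects the classes of cycles. -/
def CycR (E : Rlz W V) : Prop := ∀ {Z : 𝒱.Obj} {j : ℕ} {z : Z.Cycles}, Z.IsCyc j z →
  E.E Z (W.cl Z z) = E.c ^ j • V.cl Z z

variable {E} (hE : CycR E)

include hE in
lemma E_alg {z : W.H Z} (hz : z ∈ algSpan W Z) : E.E Z z ∈ algSpan V Z := by
  refine algSpan_induction (p := fun z => E.E Z z ∈ algSpan V Z) ?_ ?_ ?_ ?_ hz
  · rw [map_zero]; exact Submodule.zero_mem _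
  · intro a b ha hb; rw [map_add]; exact Submodule.add_mem _ ha hb
  · intro t a ha; rw [E.semi]; exact Submodule.smul_mem _ _ ha
  · intro j z hz
    rw [hE hz]
    exact Submodule.smul_mem _ _ (cl_mem_algSpan hz)

include hE in
lemma E_CC {f : W.H Y →ₗ[W.K] W.H Z} (hf : f ∈ CC W Y Z) :
    ∃ f' ∈ CC V Y Z, ∀ a, E.E Z (f a) = f' (E.E Y a) := by
  obtain ⟨z, hz, rfl⟩ := Pool.Agent.Y129.exists_corr_eq hf
  have hne : E.c ^ Y.dim ≠ 0 := pow_ne_zero _ E.ne
  refine ⟨(E.c ^ Y.dim)⁻¹ • V.corr (E.E _ z),
    Submodule.smul_mem _ _ (Pool.Agent.Y129.map_corr_mem (E_alg hE hz)), fun a => ?_⟩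
  rw [LinearMap.smul_apply, ← R_corr, smul_smul, inv_mul_cancel₀ hne, one_smul]

include hE in
lemma CC_span {f : V.H Y →ₗ[V.K] V.H Z} (hf : f ∈ CC V Y Z) {G : Submodule W.K (W.H Y)}
    {G' : Submodule W.K (W.H Z)} (hG : ∀ g ∈ CC W Y Z, ∀ a ∈ G, g a ∈ G') {a : V.H Y}
    (ha : a ∈ Submodule.span V.K (E.E Y '' (G : Set (W.H Y)))) :
    f a ∈ Submodule.span V.K (E.E Z '' (G' : Set (W.H Z))) := by
  obtain ⟨z, hz, rfl⟩ := Pool.Agent.Y129.exists_corr_eq hf
  refine algSpan_induction (p := fun z => V.corr z a ∈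
    Submodule.span V.K (E.E Z '' (G' : Set (W.H Z)))) ?_ ?_ ?_ ?_ hz
  · rw [corr_zero, LinearMap.zero_apply]; exact Submodule.zero_mem _
  · intro x y hx hy; rw [corr_add, LinearMap.add_apply]; exact Submodule.add_mem _ hx hy
  · intro t x hx; rw [corr_smul, LinearMap.smul_apply]; exact Submodule.smul_mem _ _ hx
  · intro j z hz
    have h1 : V.cl _ z = (E.c ^ j)⁻¹ • E.E _ (W.cl _ z) := by
      rw [hE hz, smul_smul, inv_mul_cancel₀ (pow_ne_zero _ E.ne), one_smul]
    rw [h1, corr_smul, LinearMap.smul_apply]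
    apply Submodule.smul_mem
    induction ha using Submodule.span_induction with
    | mem a ha =>
      obtain ⟨b, hb, rfl⟩ := ha
      rw [← R_corr]
      exact Submodule.smul_mem _ _ (Submodule.subset_span
        ⟨_, hG _ (Pool.Agent.Y129.map_corr_mem (cl_mem_algSpan hz)) b hb, rfl⟩)
    | zero => rw [map_zero]; exact Submodule.zero_mem _
    | add x y _ _ hx hy => rw [map_add]; exact Submodule.add_mem _ hx hy
    | smul r x _ hx => rw [map_smul]; exact Submodule.smul_mem _ _ hx

include hE in
/-- The system generated by the realisations. -/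
lemma powSys_span {G : ∀ n, Submodule W.K (W.H (pw X n))} (hG : PowSys W X G) :
    PowSys V X fun n => Submodule.span V.K (E.E (pw X n) '' (G n : Set (W.H (pw X n)))) where
  stable m n f hf a ha := CC_span hE hf (fun g hg a ha => hG.stable m n g hg a ha) ha
  alg n := by
    intro z hz
    refine algSpan_induction (p := fun z => z ∈
      Submodule.span V.K (E.E (pw X n) '' (G n : Set (W.H (pw X n))))) ?_ ?_ ?_ ?_ hz
    · exact Submodule.zero_mem _
    · intro x y hx hy; exact Submodule.add_mem _ hx hy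
    · intro t x hx; exact Submodule.smul_mem _ _ hx
    · intro j z hz
      have h1 : V.cl _ z = (E.c ^ j)⁻¹ • E.E _ (W.cl _ z) := by
        rw [hE hz, smul_smul, inv_mul_cancel₀ (pow_ne_zero _ E.ne), one_smul]
      rw [h1]
      exact Submodule.smul_mem _ _ (Submodule.subset_span
        ⟨_, hG.alg n (cl_mem_algSpan hz), rfl⟩)
  mul n a ha b hb := by
    induction ha using Submodule.span_induction with
    | mem a ha =>
      obtain ⟨a, ha, rfl⟩ := ha
      induction hb using Submodule.span_induction with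
      | mem b hb =>
        obtain ⟨b, hb, rfl⟩ := hb
        rw [← map_mul]
        exact Submodule.subset_span ⟨_, hG.mul n a ha b hb, rfl⟩
      | zero => rw [mul_zero]; exact Submodule.zero_mem _
      | add x y _ _ hx hy => rw [mul_add]; exact Submodule.add_mem _ hx hy
      | smul r x _ hx => rw [mul_smul_comm]; exact Submodule.smul_mem _ _ hx
    | zero => rw [zero_mul]; exact Submodule.zero_mem _
    | add x y _ _ hx hy => rw [add_mul]; exact Submodule.add_mem _ hx hy
    | smul r x _ hx => rw [smul_mul_assoc]; exact Submodule.smul_mem _ _ hx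
  even n a ha := by
    induction ha using Submodule.span_induction with
    | mem a ha =>
      obtain ⟨a, ha, rfl⟩ := ha
      exact R_even E (hG.even n a ha)
    | zero => exact Submodule.zero_mem _
    | add x y _ _ hx hy => exact Submodule.add_mem _ hx hy
    | smul r x _ hx => exact Submodule.smul_mem _ _ hx

end One

end Pool.Agent.X299
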