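import Pool.Agent.X299.Z.Law

/-!
# The finite case, for realisations in theories with an action of a group
-/

open CategoryTheory AlgebraicGeometry TensorProduct

universe u w

namespace Pool.Agent.X299

open Module
open Pool.Agent.H914 Pool.Agent.H914.VarClass Pool.Agent.H914.VarClass.Obj
  Pool.Agent.H914.WeilCohomology Pool.Agent.H281R3.HT Pool.Agent.TH125.Gal Pool.Agent.Y121.AH
open Pool.Agent.Y129 (pw pj PowerAction TG tateClasses)
open Pool.Agent.Y133.Half (PH Sys ClassPred pwIso129)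

variable {k : Type u} [Field k] {𝒱 : VarClass k} {ops : CycleOps 𝒱}
  {W V : WeilCohomology.{u, 0} ops} {X : 𝒱.Obj} (R : Rlz W V) {Γ : Type w} [Group Γ]
  {χ : Γ →* V.Kˣ} {ρ : ∀ n, Γ →* (V.H (pw X n) ≃ₐ[V.K] V.H (pw X n))}

lemma R_even {Z : 𝒱.Obj} {b : ℕ} {a : W.H Z} (ha : a ∈ PH W Z b) : R.E Z a ∈ PH V Z b := by
  refine PH.ind (p := fun a => R.E Z a ∈ PH V Z b) ?_ ?_ ?_ ha
  · intro i hi a ha
    exact PH.of' hi (R.gr ha)
  · rw [map_zero]; exact Submodule.zero_mem _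
  · intro x y hx hy; rw [map_add]; exact Submodule.add_mem _ hx hy

lemma R_xt {m n : ℕ} (a : W.H (pw X m)) (b : W.H (pw X n)) :
    R.E (pw X (m + n + 1)) (xt W X a b) = xt V X (R.E _ a) (R.E _ b) := by
  rw [xt, xt, map_mul, R.nat, R.nat]

lemma R_xpo {n : ℕ} (v : W.H (pw X n)) : ∀ m,
    R.E (pw X (nu n m)) (xpo W X m v) = xpo V X m (R.E (pw X n) v)
  | 0 => rfl
  | m + 1 => by
    have h := R_xt R (X := X) (xpo W X m v) v
    rw [R_xpo v m] at h
    exact h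

/-- The realisation of a correspondence. -/
lemma R_corr {P Z : 𝒱.Obj} (c : W.H (P.prod Z)) (x : W.H P) :
    R.c ^ P.dim • R.E Z (W.corr c x) = V.corr (R.E _ c) (R.E P x) := by
  have hne' : R.c ^ Z.dim ≠ 0 := pow_ne_zero _ R.ne
  rw [corr_apply, corr_apply]
  have h := R.push (snd P Z) (c * W.map (fst P Z) x)
  rw [dim_prod, map_mul (R.E (P.prod Z)), R.nat] at h
  have h2 : R.c ^ Z.dim • (R.c ^ P.dim • R.E Z (W.push (snd P Z) (c * W.map (fst P Z) x))) =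
      R.c ^ Z.dim • (V.push (snd P Z) (R.E _ c * V.map (fst P Z) (R.E P x))) := by
    rw [← h, smul_smul, ← pow_add, Nat.add_comm Z.dim]
  exact smul_right_injective _ hne' h2

lemma R_op (h : PowerAction V X χ ρ) {S : Sys W}
    (hS : ∀ n, ∀ x ∈ S.C (pw X n), R.E _ x ∈ TG V X χ ρ n) {m n : ℕ}
    {f : W.H (pw X m) →ₗ[W.K] W.H (pw X n)} (hf : f ∈ S.Op (pw X m) (pw X n)) :
    ∃ F : V.H (pw X m) →ₗ[V.K] V.H (pw X n), (∀ x, F (R.E _ x) = R.E _ (f x)) ∧
      ∃ Δ : Subgroup Γ, Δ.FiniteIndex ∧ ∀ g ∈ Δ, ∀ a ∈ PH V (pw X m) 0,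
        nrep h n g (F a) = F (nrep h m g a) := by
  obtain ⟨c, hc, rfl⟩ := Sys.mem_Op.1 hf
  obtain ⟨⟨s, hs⟩, ⟨t, ht⟩, _, _⟩ := g_spec X m n
  have hc' := S.push (gE X m n) hc
  -- the glued class
  have hne : R.c ^ (pw X m).dim ≠ 0 := pow_ne_zero _ R.ne
  have hcE : V.push (gE X m n) (R.E _ c) ∈ TG V X χ ρ (m + n + 1) := by
    have h1 := R.push (gE X m n) c
    have h2 : V.push (gE X m n) (R.E _ c) = (R.c ^ (pw X (m + n + 1)).dim)⁻¹ •
        (R.c ^ ((pw X m).prod (pw X n)).dim • R.E _ (W.push (gE X m n) c)) := by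
      rw [h1, smul_smul, inv_mul_cancel₀ (pow_ne_zero _ R.ne), one_smul]
    rw [h2]
    exact Submodule.smul_mem _ _ (Submodule.smul_mem _ _ (hS _ _ hc'))
  obtain ⟨Δ, hΔ, h1⟩ := nrep_fix h hcE
  have hce : V.push (gE X m n) (R.E _ c) ∈ PH V _ 0 := (powSys_TG h).even _ _ hcE
  refine ⟨(R.c ^ (pw X m).dim)⁻¹ • V.corr (R.E _ c), fun x => ?_, Δ, hΔ, fun g hg a ha => ?_⟩
  · rw [LinearMap.smul_apply, ← R_corr, smul_smul, inv_mul_cancel₀ hne, one_smul]
  · have h2 := PH.mul hce (PH.map (gP X m n) ha)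
    rw [LinearMap.smul_apply, LinearMap.smul_apply, map_smul, corr_glue, corr_glue,
      nrep_push h (h.equiv _ t ht) g h2, nrep_mul h g hce
      (PH.map _ ha), h1 g hg, nrep_map h (h.equiv _ s hs)]

lemma R_lin (h : PowerAction V X χ ρ) {S : Sys W}
    (hS : ∀ n, ∀ x ∈ S.C (pw X n), R.E _ x ∈ TG V X χ ρ n) {m n : ℕ}
    {M : Submodule W.K (W.H (pw X m))} (hM : M ≤ PH W (pw X m) 0) {x : W.H (pw X n)}
    (hx : x ∈ gen S (pw X m) (pw X n) M) :
    ∃ Δ : Subgroup Γ, Δ.FiniteIndex ∧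
      ∃ F : Module.End V.K (V.H (pw X m)) →ₗ[V.K] V.H (pw X n),
        ∀ g ∈ Δ, nrep h n g (R.E _ x) = F (nrep h m g) := by
  induction hx using Submodule.span_induction with
  | mem x hx =>
    obtain ⟨f, hf, t, ht, rfl⟩ := hx
    obtain ⟨F, hF, Δ, hΔ, h1⟩ := R_op R h hS hf
    refine ⟨Δ, hΔ, F ∘ₗ LinearMap.applyₗ (R.E _ t), fun g hg => ?_⟩
    rw [← hF, h1 g hg _ (R_even R (hM ht))]
    rfl
  | zero =>
    exact ⟨⊤, inferInstance, 0, fun g _ => by rw [map_zero, map_zero, LinearMap.zero_apply]⟩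
  | add x y _ _ hx hy =>
    obtain ⟨Δ, hΔ, F, hF⟩ := hx
    obtain ⟨Δ', hΔ', F', hF'⟩ := hy
    refine ⟨Δ ⊓ Δ', inferInstance, F + F', fun g hg => ?_⟩
    rw [map_add, map_add, hF g hg.1, hF' g hg.2, LinearMap.add_apply]
  | smul r x _ hx =>
    obtain ⟨Δ, hΔ, F, hF⟩ := hx
    refine ⟨Δ, hΔ, R.s r • F, fun g hg => ?_⟩
    rw [R.semi, map_smul, hF g hg, LinearMap.smul_apply]

/-- **The finite case.** If the classes of `S'` on all powers of `X` are generated by the classes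
on one power under correspondences whose realisations are Tate classes, then the realisations of
the classes of `S'` are Tate classes. -/
theorem R_tate_of_genBy (h : PowerAction V X χ ρ) {S S' : Sys W}
    (hS : ∀ n, ∀ x ∈ S.C (pw X n), R.E _ x ∈ TG V X χ ρ n) {P : 𝒱.Obj} {m : ℕ}
    (θ : P ≅ Pool.Agent.Y133.Half.pw X m) (hP : GenBy S S' X P) {n : ℕ} {t : W.H (pw X n)}
    (ht : t ∈ S'.C (pw X n)) : R.E _ t ∈ TG V X χ ρ n := by
  have hP' : GenBy S S' X (pw X m) := genBy_iso hP (θ ≪≫ (pwIso129 X m).symm)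
  have hte := R_even R (S'.even ht)
  apply mem_TG_of_fix h hte
  refine fixed_of_pow (V₀ := PH V (pw X n) 0) (pow := fun m => xpo V X (n := n) m)
    (nrep h n) (fun m => nrep h (nu n m)) (nrep h m)
    (fun g v hv => nrep_even h g hv) (isPow_xpo _) (fun l g v hv => nrep_xpo h g hv l)
    hte ?_
  intro l
  rw [← R_xpo]
  exact R_lin R h hS (fun x hx => S'.even hx)
    (hP' (nu n l) (pw X (nu n l)) ⟨pwIso129 X (nu n l)⟩ (xpo_mem ht l))

end Pool.Agent.X299
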