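import Pool.Agent.X299.Z.Glue
import Pool.Agent.Y121.AH.Rlz
import Pool.Agent.Y121.AH.Fix

/-!
# The circle acting on the complex cohomology, and realisations
-/

open CategoryTheory AlgebraicGeometry TensorProduct

universe u

namespace Pool.Agent.X299

open Module
open Pool.Agent.H914 Pool.Agent.H914.VarClass Pool.Agent.H914.VarClass.Obj
  Pool.Agent.H914.WeilCohomology Pool.Agent.Y121.AH
open Pool.Agent.Y129 (pw pj)
open Pool.Agent.Y133.Half (PH Sys)

variable {k : Type u} [Field k] {𝒱 : VarClass k} {ops : CycleOps 𝒱} {T : HodgeTheory ops}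
  {X Y Z : 𝒱.Obj}

/-- The operator `z ^ (p - q)`. -/
noncomputable def gzo (T : HodgeTheory ops) (X : 𝒱.Obj) (z : (CW T).Kˣ) :
    Module.End (CW T).K ((CW T).H X) :=
  dia (isInternal T X) fun r => (z : (CW T).K) ^ (r.1 - r.2)

lemma gzo_pq {p q : ℤ} (z : (CW T).Kˣ) {x : (CW T).H X} (hx : x ∈ T.pq X p q) :
    gzo T X z x = (z : (CW T).K) ^ (p - q) • x :=
  dia_apply (isInternal T X) _ (i := (p, q)) hx

/-- The action of the multiplicative group. -/
noncomputable def gz (T : HodgeTheory ops) (X : 𝒱.Obj) :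
    (CW T).Kˣ →* Module.End (CW T).K ((CW T).H X) where
  toFun := gzo T X
  map_one' := by
    apply pq_ext T
    intro a b x hx
    rw [gzo_pq 1 hx, Units.val_one, one_zpow, one_smul]
    rfl
  map_mul' z z' := by
    apply pq_ext T
    intro a b x hx
    rw [gzo_pq _ hx, Module.End.mul_apply, gzo_pq _ hx, map_smul, gzo_pq _ hx, smul_smul,
      Units.val_mul, mul_zpow, mul_comm]

lemma gz_pq {p q : ℤ} (z : (CW T).Kˣ) {x : (CW T).H X} (hx : x ∈ T.pq X p q) :
    gz T X z x = (z : (CW T).K) ^ (p - q) • x := gzo_pq z hx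

lemma gz_mul (z : (CW T).Kˣ) (x y : (CW T).H X) :
    gz T X z (x * y) = gz T X z x * gz T X z y := by
  refine pq_ind T (p := fun x => gz T X z (x * y) = gz T X z x * gz T X z y) ?_ ?_ ?_ x
  · intro a b x hx
    refine pq_ind T (p := fun y => gz T X z (x * y) = gz T X z x * gz T X z y) ?_ ?_ ?_ y
    · intro c d y hy
      rw [gz_pq z hx, gz_pq z hy, gz_pq z (T.dec.mul hx hy), smul_mul_smul_comm,
        ← zpow_add₀ (Units.ne_zero z)]
      congr 2
      ring
    · intro y w hy hw; rw [mul_add, map_add, hy, hw, map_add, mul_add]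
    · rw [mul_zero, map_zero, mul_zero]
  · intro x w hx hw; rw [add_mul, map_add, hx, hw, map_add, add_mul]
  · rw [zero_mul, map_zero, zero_mul]

lemma gz_map (z : (CW T).Kˣ) (f : X ⟶ Y) (y : (CW T).H Y) :
    gz T X z ((CW T).map f y) = (CW T).map f (gz T Y z y) := by
  refine pq_ind T (p := fun y => gz T X z ((CW T).map f y) = (CW T).map f (gz T Y z y)) ?_ ?_ ?_ y
  · intro a b y hy
    rw [gz_pq z hy, gz_pq z (T.dec.map f hy), map_smul]
  · intro y w hy hw; rw [map_add, map_add, hy, hw, map_add, map_add]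
  · rw [map_zero, map_zero, map_zero, map_zero]

lemma gz_push (z : (CW T).Kˣ) (f : X ⟶ Y) (x : (CW T).H X) :
    gz T Y z ((CW T).push f x) = (CW T).push f (gz T X z x) := by
  refine pq_ind T (p := fun x => gz T Y z ((CW T).push f x) = (CW T).push f (gz T X z x))
    ?_ ?_ ?_ x
  · intro a b x hx
    rw [gz_pq z hx, gz_pq z (T.dec.push f hx), map_smul]
    congr 2
    ring
  · intro y w hy hw; rw [map_add, map_add, hy, hw, map_add, map_add]
  · rw [map_zero, map_zero, map_zero, map_zero]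

lemma gz_hodge (z : (CW T).Kˣ) {j : ℕ} {c : T.W.H X} (hc : IsHodge T X j c) :
    gz T X z (em T.W ℂ c) = em T.W ℂ c := by
  rw [gz_pq z hc.2, sub_self, zpow_zero, one_smul]

/-- A class of degree `2 j` which is fixed by a subgroup of finite index is of type `(j, j)`. -/
lemma pq_of_fix_index {j : ℕ} {x : (CW T).H X} (hx : x ∈ (CW T).gr X (2 * j))
    (h : ∃ Δ : Subgroup (CW T).Kˣ, Δ.FiniteIndex ∧ ∀ z ∈ Δ, gz T X z x = x) :
    x ∈ T.pq X j j := by
  obtain ⟨Δ, hΔ, h⟩ := h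
  have hx' : x ∈ ⨆ r : {r : ℤ × ℤ // r.1 + r.2 = (2 * j : ℕ)}, T.pq X r.1.1 r.1.2 := by
    have hx1 : x ∈ (T.W.gr X (2 * j)).baseChange ℂ := hx
    refine base_induction (P := fun x : ℂ ⊗[T.W.K] T.W.H X => (show (CW T).H X from x) ∈
      (⨆ r : {r : ℤ × ℤ // r.1 + r.2 = (2 * j : ℕ)}, T.pq X r.1.1 r.1.2 :
        Submodule (CW T).K ((CW T).H X))) ?_ ?_ ?_ hx1
    · exact Submodule.zero_mem _
    · intro x y hx hy
      exact Submodule.add_mem _ hx hy
    · intro l a ha
      have h2 := Submodule.smul_mem _ (show (CW T).K from l) (T.dec.span ha)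
      rw [← tmul_eq] at h2
      exact h2
  -- a power of two in the subgroup
  obtain ⟨n, hn, hn2⟩ := Subgroup.exists_pow_mem_of_index_ne_zero hΔ.index_ne_zero
    (Units.mk0 (2 : (CW T).K) two_ne)
  have hz := h _ hn2.2
  classical
  set z : (CW T).Kˣ := Units.mk0 (2 : (CW T).K) two_ne ^ n with hzdef
  have hzv : ∀ a : ℤ, a ≠ 0 → (z : (CW T).K) ^ a - 1 ≠ 0 := by
    intro a ha h1
    rw [sub_eq_zero, hzdef, Units.val_pow_eq_pow_val, Units.val_mk0, ← zpow_natCast,
      ← zpow_mul] at h1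
    have h2 := two_zpow_ne (T := T) h1
    rcases mul_eq_zero.1 h2 with h3 | h3
    · exact absurd h3 (by exact_mod_cast hn.ne')
    · exact ha h3
  set N : Module.End (CW T).K ((CW T).H X) := dia (isInternal T X) fun r =>
    if r.1 = r.2 then 0 else ((z : (CW T).K) ^ (r.1 - r.2) - 1)⁻¹ with hN
  set E : Module.End (CW T).K ((CW T).H X) := dia (isInternal T X) fun r =>
    if r.1 = r.2 then 1 else 0 with hE
  have h1 : ∀ x, N (gz T X z x) - N x + E x = x := by
    intro x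
    refine pq_ind T (p := fun x => N (gz T X z x) - N x + E x = x) ?_ ?_ ?_ x
    · intro a b x hx
      rw [gz_pq z hx, map_smul, hN, hE, dia_apply (isInternal T X) _ (i := (a, b)) hx,
        dia_apply (isInternal T X) _ (i := (a, b)) hx]
      by_cases hab : a = b
      · simp [hab]
      · simp only [if_neg hab, zero_smul, add_zero]
        have h2 := hzv (a - b) (sub_ne_zero.2 hab)
        rw [smul_smul, ← sub_smul, ← sub_one_mul, mul_inv_cancel₀ h2, one_smul]
    · intro a b ha hb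
      calc N (gz T X z (a + b)) - N (a + b) + E (a + b)
          = (N (gz T X z a) - N a + E a) + (N (gz T X z b) - N b + E b) := by
            simp only [map_add]; abel
        _ = a + b := by rw [ha, hb]
    · simp
  have h2 := h1 x
  rw [hz, sub_self, zero_add] at h2
  rw [← h2]
  refine Submodule.iSup_induction
    (fun r : {r : ℤ × ℤ // r.1 + r.2 = (2 * j : ℕ)} => T.pq X r.1.1 r.1.2)
    (motive := fun x => E x ∈ T.pq X j j) hx' ?_ ?_ ?_
  · rintro ⟨⟨a, b⟩, hr⟩ x hx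
    rw [hE, dia_apply (isInternal T X) _ (i := (a, b)) hx]
    by_cases hab : a = b
    · subst hab
      have h3 : a = j := by
        have h4 : a + a = ((2 * j : ℕ) : ℤ) := hr
        push_cast at h4
        omega
      subst h3
      simpa using hx
    · simp [hab]
  · rw [map_zero]; exact Submodule.zero_mem _
  · intro x y hx hy; rw [map_add]; exact Submodule.add_mem _ hx hy

/-! ### Realisations -/

section Fix

variable {W : WeilCohomology.{u, 0} ops} (R : Rlz W (CW T)) {S : Sys W}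

/-- The realisation of the operators of the system. -/
lemma op_comm_rz (hS : ∀ Z, ∀ x ∈ S.C Z, ∀ z, gz T Z z (R.E Z x) = R.E Z x) {P Z : 𝒱.Obj}
    {f : W.H P →ₗ[W.K] W.H Z} (hf : f ∈ S.Op P Z) :
    ∃ F : (CW T).H P →ₗ[(CW T).K] (CW T).H Z,
      (∀ x, F (R.E P x) = R.E Z (f x)) ∧ ∀ z y, gz T Z z (F y) = F (gz T P z y) := by
  obtain ⟨c, hc, rfl⟩ := Sys.mem_Op.1 hf
  have hne : R.c ^ P.dim ≠ 0 := pow_ne_zero _ R.ne
  have hne' : R.c ^ Z.dim ≠ 0 := pow_ne_zero _ R.ne
  refine ⟨(R.c ^ P.dim)⁻¹ • (CW T).corr (R.E _ c), fun x => ?_, fun z y => ?_⟩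
  · rw [LinearMap.smul_apply, corr_apply, corr_apply]
    have h := R.push (snd P Z) (c * W.map (fst P Z) x)
    rw [dim_prod, map_mul (R.E (P.prod Z)), R.nat] at h
    have h2 : R.c ^ Z.dim • (R.c ^ P.dim • R.E Z (W.push (snd P Z) (c * W.map (fst P Z) x))) =
        R.c ^ Z.dim • ((CW T).push (snd P Z) (R.E _ c * (CW T).map (fst P Z) (R.E P x))) := by
      rw [← h, smul_smul, ← pow_add, Nat.add_comm Z.dim]
    have h3 := smul_right_injective _ hne' h2
    beta_reduce at h3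
    rw [← h3, smul_smul, inv_mul_cancel₀ hne, one_smul]
  · rw [LinearMap.smul_apply, LinearMap.smul_apply, corr_apply, corr_apply, map_smul, gz_push,
      gz_mul, gz_map, hS _ c hc]

lemma E_xt {m n : ℕ} (a : W.H (pw X m)) (b : W.H (pw X n)) :
    R.E (pw X (m + n + 1)) (xt W X a b) = xt (CW T) X (R.E _ a) (R.E _ b) := by
  rw [xt, xt, map_mul, R.nat, R.nat]

lemma E_xpo {n : ℕ} (v : W.H (pw X n)) : ∀ m,
    R.E (pw X (nu n m)) (xpo W X m v) = xpo (CW T) X m (R.E (pw X n) v)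
  | 0 => rfl
  | m + 1 => by
    have h := E_xt R (X := X) (xpo W X m v) v
    rw [E_xpo v m] at h
    exact h

lemma gz_xpo {n : ℕ} (z : (CW T).Kˣ) (v : (CW T).H (pw X n)) : ∀ m,
    gz T (pw X (nu n m)) z (xpo (CW T) X m v) = xpo (CW T) X m (gz T (pw X n) z v)
  | 0 => rfl
  | m + 1 => by
    have h : gz T (pw X (nu n m + n + 1)) z (xt (CW T) X (xpo (CW T) X m v) v) =
        xt (CW T) X (gz T _ z (xpo (CW T) X m v)) (gz T _ z v) := by
      rw [xt, xt, gz_mul, gz_map, gz_map]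
    rw [gz_xpo z v m] at h
    exact h

lemma exists_lin_rz (hS : ∀ Z, ∀ x ∈ S.C Z, ∀ z, gz T Z z (R.E Z x) = R.E Z x) {P Z : 𝒱.Obj}
    {M : Submodule W.K (W.H P)} {x : W.H Z} (hx : x ∈ gen S P Z M) :
    ∃ F : Module.End (CW T).K ((CW T).H P) →ₗ[(CW T).K] (CW T).H Z,
      ∀ z, gz T Z z (R.E Z x) = F (gz T P z) := by
  induction hx using Submodule.span_induction with
  | mem x hx =>
    obtain ⟨f, hf, t, ht, rfl⟩ := hx
    obtain ⟨F, h1, h2⟩ := op_comm_rz R hS hf
    exact ⟨F ∘ₗ LinearMap.applyₗ (R.E P t), fun z => by rw [← h1, h2]; rfl⟩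
  | zero => exact ⟨0, fun z => by rw [map_zero, map_zero, LinearMap.zero_apply]⟩
  | add x y _ _ hx hy =>
    obtain ⟨F, hF⟩ := hx
    obtain ⟨F', hF'⟩ := hy
    refine ⟨F + F', fun z => ?_⟩
    rw [map_add, map_add, hF, hF', LinearMap.add_apply]
  | smul r x _ hx =>
    obtain ⟨F, hF⟩ := hx
    refine ⟨R.s r • F, fun z => ?_⟩
    rw [R.semi, map_smul, hF, LinearMap.smul_apply]

/-- **The finite case, for the Hodge types.** -/
theorem fix_of_genBy (hS : ∀ Z, ∀ x ∈ S.C Z, ∀ z, gz T Z z (R.E Z x) = R.E Z x) {S' : Sys W}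
    {P : 𝒱.Obj} {m : ℕ} (θ : P ≅ Pool.Agent.Y133.Half.pw X m) (hP : GenBy S S' X P) {n : ℕ}
    {t : W.H (pw X n)} (ht : t ∈ S'.C (pw X n)) :
    ∃ Δ : Subgroup (CW T).Kˣ, Δ.FiniteIndex ∧ ∀ z ∈ Δ,
      gz T (pw X n) z (R.E (pw X n) t) = R.E (pw X n) t := by
  have hP' : GenBy S S' X (pw X m) :=
    genBy_iso hP (θ ≪≫ (Pool.Agent.Y133.Half.pwIso129 X m).symm)
  refine fixed_of_pow (V₀ := ⊤) (pow := fun m => xpo (CW T) X (n := n) m)
    (gz T (pw X n)) (fun m => gz T (pw X (nu n m))) (gz T (pw X m))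
    (fun g v _ => Submodule.mem_top) (isPow_xpo _) (fun l g v _ => gz_xpo g v l)
    Submodule.mem_top ?_
  intro l
  obtain ⟨F, hF⟩ := exists_lin_rz R hS
    (hP' (nu n l) (pw X (nu n l)) ⟨Pool.Agent.Y133.Half.pwIso129 X (nu n l)⟩ (xpo_mem ht l))
  refine ⟨⊤, inferInstance, F, fun g _ => ?_⟩
  rw [← E_xpo, hF]

end Fix

end Pool.Agent.X299
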