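import Pool.Agent.X299.Z.Univ

/-!
# Spans of nondegenerate spaces of classes
-/

open CategoryTheory AlgebraicGeometry TensorProduct Filter Topology

universe u v w

namespace Pool.Agent.X299

open Module
open Pool.Agent.H914 Pool.Agent.H914.VarClass Pool.Agent.H914.VarClass.Obj
  Pool.Agent.H914.WeilCohomology Pool.Agent.H281R3.HT Pool.Agent.TH125.Gal Pool.Agent.Y121.AH
open Pool.Agent.Y129 (pw pj PowerAction TG tateClasses CC cycRank)
open Pool.Agent.Y133.Half (PH Sys ClassPred pwIso129)
open Pool.Agent.W536.RR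

/-- Linear functionals on a finite-dimensional space with a left nondegenerate form. -/
lemma exists_right {K U : Type*} [Field K] [AddCommGroup U] [Module K U] [FiniteDimensional K U]
    (β : U →ₗ[K] U →ₗ[K] K) (h : ∀ x, (∀ y, β x y = 0) → x = 0) (φ : U →ₗ[K] K) :
    ∃ y, ∀ x, β x y = φ x := by
  have h1 : Function.Injective β := by
    rw [← LinearMap.ker_eq_bot, LinearMap.ker_eq_bot']
    intro x hx
    exact h x fun y => by rw [hx, LinearMap.zero_apply]
  have h2 : Function.Surjective (β.dualMap) := LinearMap.dualMap_surjective_of_injective h1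
  obtain ⟨ψ, hψ⟩ := h2 φ
  obtain ⟨y, rfl⟩ := (Module.evalEquiv K U).surjective ψ
  refine ⟨y, fun x => ?_⟩
  rw [← hψ]
  rfl

variable {k : Type u} [Field k] {𝒱 : VarClass k} {ops : CycleOps 𝒱}
  {W V : WeilCohomology.{u, 0} ops}

/-- The span of the images of a nondegenerate space of classes. -/
lemma span_nondeg {E : Rlz W V} (hE : Full E) {Z : 𝒱.Obj} {U : Submodule W.K (W.H Z)}
    (hU : ∀ x ∈ U, (∀ y ∈ U, W.tr Z (x * y) = 0) → x = 0) :
    finrank V.K (Submodule.span V.K (E.E Z '' (U : Set (W.H Z)))) = finrank W.K U ∧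
      ∀ x ∈ Submodule.span V.K (E.E Z '' (U : Set (W.H Z))),
        (∀ y ∈ Submodule.span V.K (E.E Z '' (U : Set (W.H Z))), V.tr Z (x * y) = 0) → x = 0 := by
  classical
  let b := Module.finBasis W.K U
  let β : U →ₗ[W.K] U →ₗ[W.K] W.K :=
    ((LinearMap.mul W.K (W.H Z)).compr₂ (W.tr Z)).domRestrict₁₂ U U
  have hβ : ∀ x y : U, β x y = W.tr Z ((x : W.H Z) * y) := fun x y => rfl
  have hd : ∀ j, ∃ y : U, ∀ x, β x y = b.coord j x := by
    intro j
    refine exists_right β (fun x hx => ?_) (b.coord j)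
    exact Subtype.ext (hU x.1 x.2 fun y hy => by rw [← hβ x ⟨y, hy⟩]; exact hx _)
  choose b' hb' using hd
  set v : Fin (finrank W.K U) → V.H Z := fun i => E.E Z (b i : W.H Z) with hv
  have hc : E.c ^ Z.dim ≠ 0 := pow_ne_zero _ E.ne
  -- the pairing of a combination with the dual basis
  have hpair : ∀ (l : Fin (finrank W.K U) → V.K) j,
      V.tr Z ((∑ i, l i • v i) * E.E Z (b' j : W.H Z)) = l j * E.c ^ Z.dim := by
    intro l j
    rw [Finset.sum_mul, map_sum, Finset.sum_eq_single j]
    · rw [smul_mul_assoc, map_smul, hv, ← map_mul, hE.tr, ← hβ, hb', Basis.coord_apply,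
        Basis.repr_self, Finsupp.single_eq_same, map_one, mul_one, smul_eq_mul]
    · intro i _ hij
      rw [smul_mul_assoc, map_smul, hv, ← map_mul, hE.tr, ← hβ, hb', Basis.coord_apply,
        Basis.repr_self, Finsupp.single_eq_of_ne hij.symm, map_zero, mul_zero, smul_zero]
    · exact fun h => absurd (Finset.mem_univ j) h
  have hspan : Submodule.span V.K (E.E Z '' (U : Set (W.H Z))) =
      Submodule.span V.K (Set.range v) := by
    apply le_antisymm
    · rw [Submodule.span_le]
      rintro _ ⟨x, hx, rfl⟩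
      have h3 : x = ∑ i, b.repr ⟨x, hx⟩ i • (b i : W.H Z) := by
        have h6 := congrArg (fun x : U => (x : W.H Z)) (b.sum_repr ⟨x, hx⟩)
        simp only [Submodule.coe_sum, Submodule.coe_smul] at h6
        exact h6.symm
      rw [h3, map_sum]
      refine Submodule.sum_mem _ fun i _ => ?_
      rw [E.semi]
      exact Submodule.smul_mem _ _ (Submodule.subset_span ⟨i, rfl⟩)
    · rw [Submodule.span_le]
      rintro _ ⟨i, rfl⟩
      exact Submodule.subset_span ⟨_, (b i).2, rfl⟩
  have hli : LinearIndependent V.K v := by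
    rw [Fintype.linearIndependent_iff]
    intro l hl j
    have h1 := hpair l j
    rw [hl, zero_mul, map_zero] at h1
    exact (mul_eq_zero.1 h1.symm).resolve_right hc
  constructor
  · rw [hspan, finrank_span_eq_card hli, Fintype.card_fin]
  · intro x hx h
    rw [hspan] at hx
    obtain ⟨l, rfl⟩ := (Submodule.mem_span_range_iff_exists_fun V.K).1 hx
    refine Finset.sum_eq_zero fun j _ => ?_
    have h1 := h (E.E Z (b' j : W.H Z)) (Submodule.subset_span ⟨_, (b' j).2, rfl⟩)
    rw [hpair] at h1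
    rw [(mul_eq_zero.1 h1).resolve_right hc, zero_smul]

/-- The system of classes generated by the realisations of a nondegenerate system. -/
lemma a_eq_finrank {S : Sys V} {E : Rlz W V} (hE : Full E) {Z : 𝒱.Obj}
    {U : Submodule W.K (W.H Z)}
    (hU : ∀ x ∈ U, (∀ y ∈ U, W.tr Z (x * y) = 0) → x = 0)
    (hS : S.C Z = Submodule.span V.K (E.E Z '' (U : Set (W.H Z)))) :
    S.a Z = finrank W.K U := by
  obtain ⟨h1, h2⟩ := span_nondeg hE hU
  have h3 : S.Num Z = ⊥ := by
    rw [eq_bot_iff]
    rintro x ⟨hx, hx'⟩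
    rw [hS] at hx hx'
    exact h2 x hx hx'
  have h4 := S.a_add_num Z
  rw [h3, finrank_bot, add_zero, hS, h1] at h4
  exact h4

end Pool.Agent.X299
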