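import Pool.Agent.X299.Z.Base

/-!
# Realisations which span: extension of the coefficients
-/

open CategoryTheory AlgebraicGeometry TensorProduct

universe u w

namespace Pool.Agent.X299

open Module
open Pool.Agent.H914 Pool.Agent.H914.VarClass Pool.Agent.H914.VarClass.Obj
  Pool.Agent.H914.WeilCohomology Pool.Agent.H281R3.HT Pool.Agent.TH125.Gal Pool.Agent.Y121.AH
open Pool.Agent.Y129 (pw pj PowerAction TG tateClasses)
open Pool.Agent.Y133.Half (PH Sys ClassPred pwIso129)

variable {k : Type u} [Field k] {𝒱 : VarClass k} {ops : CycleOps 𝒱}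
  {V V' V'' : WeilCohomology.{u, 0} ops} {X : 𝒱.Obj}

/-- The images of the realisation span, and the traces are compatible. -/
structure Full (M : Rlz V V') : Prop where
  span : ∀ Z, Submodule.span V'.K (Set.range (M.E Z)) = ⊤
  tr : ∀ Z a, V'.tr Z (M.E Z a) = M.c ^ Z.dim * M.s (V.tr Z a)

/-- The composition of realisations. -/
noncomputable def Rlz.comp' (N : Rlz V' V'') (M : Rlz V V') : Rlz V V'' where
  s := N.s.comp M.s
  c := N.c * N.s M.c
  ne := mul_ne_zero N.ne fun h => M.ne ((map_eq_zero N.s).1 h)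
  E Z := (N.E Z).comp (M.E Z)
  semi Z r a := by
    change N.E Z (M.E Z (r • a)) = N.s (M.s r) • N.E Z (M.E Z a)
    rw [M.semi, N.semi]
  gr {Z i a} ha := N.gr (M.gr ha)
  nat {Y Z} f b := by
    change N.E Y (M.E Y (V.map f b)) = V''.map f (N.E Z (M.E Z b))
    rw [M.nat, N.nat]
  push {Y Z} f a := by
    change (N.c * N.s M.c) ^ Y.dim • N.E Z (M.E Z (V.push f a)) =
      (N.c * N.s M.c) ^ Z.dim • V''.push f (N.E Y (M.E Y a))
    have h1 := congrArg (N.E Z) (M.push f a)
    rw [N.semi, N.semi, map_pow, map_pow] at h1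
    have h2 := N.push f (M.E Y a)
    rw [mul_pow, mul_pow, mul_smul, mul_smul, h1, smul_comm, h2, smul_comm]

lemma comp'_apply (N : Rlz V' V'') (M : Rlz V V') (Z : 𝒱.Obj) (a : V.H Z) :
    (Rlz.comp' N M).E Z a = N.E Z (M.E Z a) := rfl

section Theta

variable (M : Rlz V V') [Algebra V.K V'.K]

/-- The extension of the realisation to extended coefficients, as an additive map. -/
noncomputable def thA (hs : ∀ r, M.s r = algebraMap V.K V'.K r) (Z : 𝒱.Obj) :
    V'.K ⊗[V.K] V.H Z →+ V'.H Z :=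
  TensorProduct.liftAddHom
    (AddMonoidHom.mk' (fun l : V'.K => AddMonoidHom.mk' (fun a : V.H Z => l • M.E Z a)
      (fun a b => by rw [map_add, smul_add]))
      (fun l l' => by
        ext a
        exact add_smul l l' (M.E Z a)))
    (fun r l a => by
      change (r • l) • M.E Z a = l • M.E Z (r • a)
      rw [M.semi, hs, smul_smul, Algebra.smul_def r l, mul_comm])

variable (hs : ∀ r, M.s r = algebraMap V.K V'.K r)

lemma thA_tmul (Z : 𝒱.Obj) (l : V'.K) (a : V.H Z) : thA M hs Z (l ⊗ₜ a) = l • M.E Z a := rfl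

lemma thA_mul (Z : 𝒱.Obj) (x y : V'.K ⊗[V.K] V.H Z) :
    thA M hs Z (x * y) = thA M hs Z x * thA M hs Z y := by
  refine coB_induction (P := fun x => thA M hs Z (x * y) = thA M hs Z x * thA M hs Z y)
    ?_ ?_ ?_ x
  · rw [zero_mul, map_zero, zero_mul]
  · intro x x' hx hx'; rw [add_mul, map_add, hx, hx', map_add, add_mul]
  · intro l a
    refine coB_induction (P := fun y => thA M hs Z ((l ⊗ₜ a) * y) =
      thA M hs Z (l ⊗ₜ a) * thA M hs Z y) ?_ ?_ ?_ y
    · rw [mul_zero, map_zero, mul_zero]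
    · intro x x' hx hx'; rw [mul_add, map_add, hx, hx', map_add, mul_add]
    · intro l' a'
      rw [Algebra.TensorProduct.tmul_mul_tmul, thA_tmul, thA_tmul, thA_tmul, map_mul,
        smul_mul_assoc, mul_smul_comm, smul_smul]

/-- The extension of the realisation to extended coefficients. -/
noncomputable def th (Z : 𝒱.Obj) : (baseW V V'.K).H Z →+* V'.H Z :=
  { thA M hs Z with
    map_one' := by
      change thA M hs Z ((1 : V'.K) ⊗ₜ (1 : V.H Z)) = 1
      rw [thA_tmul, map_one, one_smul]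
    map_mul' := thA_mul M hs Z }

lemma th_tmul (Z : 𝒱.Obj) (l : V'.K) (a : V.H Z) :
    th M hs Z (show (baseW V V'.K).H Z from (l ⊗ₜ[V.K] a)) = l • M.E Z a := rfl

lemma th_em (Z : 𝒱.Obj) (a : V.H Z) : th M hs Z (em V V'.K a) = M.E Z a := by
  have h := th_tmul M hs Z 1 a
  rw [one_smul] at h
  exact h

lemma th_smul (Z : 𝒱.Obj) (l : V'.K) (x : (baseW V V'.K).H Z) :
    th M hs Z ((show (baseW V V'.K).K from l) • x) = l • th M hs Z x := by
  refine tmul_ind (p := fun x => th M hs Z ((show (baseW V V'.K).K from l) • x) =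
    l • th M hs Z x) ?_ ?_ ?_ x
  · rw [smul_zero, map_zero, smul_zero]
  · intro x y hx hy; rw [smul_add, map_add, map_add, smul_add, hx, hy]
  · intro m a
    have e : ((show (baseW V V'.K).K from l) • (show (baseW V V'.K).H Z from (m ⊗ₜ[V.K] a))) =
      (show (baseW V V'.K).H Z from ((l * m) ⊗ₜ[V.K] a)) := TensorProduct.smul_tmul' l m a
    rw [e, th_tmul, th_tmul, smul_smul]

lemma th_gr (Z : 𝒱.Obj) {i : ℕ} {x : (baseW V V'.K).H Z} (hx : x ∈ (baseW V V'.K).gr Z i) :
    th M hs Z x ∈ V'.gr Z i := by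
  have hx' : x ∈ (V.gr Z i).baseChange V'.K := hx
  refine base_induction (P := fun x => th M hs Z x ∈ V'.gr Z i) ?_ ?_ ?_ hx'
  · exact (map_zero (th M hs Z)).symm ▸ Submodule.zero_mem _
  · intro x y hx hy
    exact (map_add (th M hs Z) x y).symm ▸ Submodule.add_mem _ hx hy
  · intro l a ha
    exact (th_tmul M hs Z l a).symm ▸ Submodule.smul_mem _ _ (M.gr ha)

lemma th_nat {Y Z : 𝒱.Obj} (f : Y ⟶ Z) (x : (baseW V V'.K).H Z) :
    th M hs Y ((baseW V V'.K).map f x) = V'.map f (th M hs Z x) := by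
  refine tmul_ind (p := fun x => th M hs Y ((baseW V V'.K).map f x) =
    V'.map f (th M hs Z x)) ?_ ?_ ?_ x
  · simp only [map_zero]
  · intro x y hx hy; simp only [map_add, hx, hy]
  · intro l a
    rw [tmul_eq, map_smul, em_map]
    have e1 := th_smul M hs Y l (em V V'.K (V.map f a))
    have e2 := th_smul M hs Z l (em V V'.K a)
    rw [th_em] at e1 e2
    refine e1.trans ?_
    refine Eq.trans ?_ (congrArg (V'.map f) e2.symm)
    rw [map_smul, M.nat]

lemma th_push {Y Z : 𝒱.Obj} (f : Y ⟶ Z) (x : (baseW V V'.K).H Y) :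
    M.c ^ Y.dim • th M hs Z ((baseW V V'.K).push f x) =
      M.c ^ Z.dim • V'.push f (th M hs Y x) := by
  refine tmul_ind (p := fun x => M.c ^ Y.dim • th M hs Z ((baseW V V'.K).push f x) =
      M.c ^ Z.dim • V'.push f (th M hs Y x)) ?_ ?_ ?_ x
  · simp only [map_zero, smul_zero]
  · intro x y hx hy; simp only [map_add, smul_add, hx, hy]
  · intro l a
    rw [tmul_eq, map_smul, em_push]
    have e1 := th_smul M hs Z l (em V V'.K (V.push f a))
    have e2 := th_smul M hs Y l (em V V'.K a)
    rw [th_em] at e1 e2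
    refine (congrArg (fun y => M.c ^ Y.dim • y) e1).trans ?_
    refine Eq.trans ?_ (congrArg (fun y => M.c ^ Z.dim • V'.push f y) e2.symm)
    rw [map_smul, smul_comm, M.push, smul_comm]

variable {M} (hM : Full M)

include hM in
lemma th_tr (Z : 𝒱.Obj) (x : (baseW V V'.K).H Z) :
    V'.tr Z (th M hs Z x) = M.c ^ Z.dim * (show V'.K from (baseW V V'.K).tr Z x) := by
  refine tmul_ind (p := fun x => V'.tr Z (th M hs Z x) =
    M.c ^ Z.dim * (show V'.K from (baseW V V'.K).tr Z x)) ?_ ?_ ?_ x
  · have e : (show V'.K from (baseW V V'.K).tr Z 0) = 0 := map_zero ((baseW V V'.K).tr Z)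
    rw [map_zero, map_zero, e, mul_zero]
  · intro x y hx hy
    have e : (show V'.K from (baseW V V'.K).tr Z (x + y)) =
      (show V'.K from (baseW V V'.K).tr Z x) + (show V'.K from (baseW V V'.K).tr Z y) :=
      map_add ((baseW V V'.K).tr Z) x y
    rw [map_add, map_add, hx, hy, e, mul_add]
  · intro l a
    have e : (show V'.K from (baseW V V'.K).tr Z (show (baseW V V'.K).H Z from (l ⊗ₜ[V.K] a))) =
      l * M.s (V.tr Z a) := by
      rw [tmul_eq]
      have e1 : (baseW V V'.K).tr Z ((show (baseW V V'.K).K from l) • em V V'.K a) =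
        (show (baseW V V'.K).K from l) • (baseW V V'.K).tr Z (em V V'.K a) := map_smul _ _ _
      refine e1.trans ?_
      rw [em_tr, hs]
      rfl
    rw [e, th_tmul, map_smul, hM.tr, smul_eq_mul]
    ring

include hM in
lemma th_injective (Z : 𝒱.Obj) : Function.Injective (th M hs Z) := by
  rw [injective_iff_map_eq_zero]
  intro x hx
  apply (baseW V V'.K).nondeg
  intro y
  have h1 := th_tr hs hM Z (x * y)
  rw [map_mul, hx, zero_mul, map_zero] at h1
  rcases mul_eq_zero.1 h1.symm with h2 | h2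
  · exact absurd h2 (pow_ne_zero _ M.ne)
  · exact h2

include hM in
lemma th_surjective (Z : 𝒱.Obj) : Function.Surjective (th M hs Z) := by
  intro y
  have hy : y ∈ Submodule.span V'.K (Set.range (M.E Z)) := by
    rw [hM.span]; exact Submodule.mem_top
  induction hy using Submodule.span_induction with
  | mem y hy =>
    obtain ⟨a, rfl⟩ := hy
    exact ⟨_, th_em M hs Z a⟩
  | zero => exact ⟨0, map_zero _⟩
  | add x y _ _ hx hy =>
    obtain ⟨a, rfl⟩ := hx
    obtain ⟨b, rfl⟩ := hy
    exact ⟨a + b, map_add _ _ _⟩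
  | smul l x _ hx =>
    obtain ⟨a, rfl⟩ := hx
    exact ⟨_, th_smul M hs Z l a⟩

/-- The inverse. -/
noncomputable def thE (Z : 𝒱.Obj) : (baseW V V'.K).H Z ≃+* V'.H Z :=
  RingEquiv.ofBijective (th M hs Z) ⟨th_injective hs hM Z, th_surjective hs hM Z⟩

lemma thE_apply (Z : 𝒱.Obj) (x : (baseW V V'.K).H Z) : thE hs hM Z x = th M hs Z x := rfl

lemma thE_symm (Z : 𝒱.Obj) (x : (baseW V V'.K).H Z) :
    (thE hs hM Z).symm (th M hs Z x) = x := (thE hs hM Z).symm_apply_apply x

/-- The inverse as a realisation. -/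
noncomputable def thR : Rlz V' (baseW V V'.K) where
  s := RingHom.id V'.K
  c := (show (baseW V V'.K).K from M.c⁻¹)
  ne := inv_ne_zero M.ne
  E Z := ((thE hs hM Z).symm : V'.H Z →+* (baseW V V'.K).H Z)
  semi Z r a := by
    obtain ⟨x, rfl⟩ := (thE hs hM Z).surjective a
    have h1 : r • thE hs hM Z x = thE hs hM Z ((show (baseW V V'.K).K from r) • x) :=
      (th_smul M hs Z r x).symm
    have h2 : (thE hs hM Z).symm (r • thE hs hM Z x) = (show (baseW V V'.K).K from r) • x := by
      rw [h1, RingEquiv.symm_apply_apply]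
    refine h2.trans ?_
    change _ = (show (baseW V V'.K).K from r) • (thE hs hM Z).symm (thE hs hM Z x)
    rw [RingEquiv.symm_apply_apply]
  gr {Z i a} ha := by
    obtain ⟨x, rfl⟩ := (thE hs hM Z).surjective a
    change (thE hs hM Z).symm (thE hs hM Z x) ∈ _
    rw [RingEquiv.symm_apply_apply]
    have h1 : ∀ x : (baseW V V'.K).H Z, th M hs Z
        (H914.proj ((baseW V V'.K).isInternal Z) i x) =
        H914.proj (V'.isInternal Z) i (th M hs Z x) := by
      intro x
      refine gr_induction ((baseW V V'.K).isInternal Z) (p := fun x => th M hs Z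
        (H914.proj ((baseW V V'.K).isInternal Z) i x) =
        H914.proj (V'.isInternal Z) i (th M hs Z x)) ?_ ?_ x
      · intro m a ha'
        by_cases hm : m = i
        · subst hm
          rw [proj_same _ ha', proj_same _ (th_gr M hs Z ha')]
        · rw [proj_ne _ ha' hm, proj_ne _ (th_gr M hs Z ha') hm, map_zero]
      · intro a b ha hb
        simp only [map_add, ha, hb]
    have h2 : x = H914.proj ((baseW V V'.K).isInternal Z) i x := by
      apply th_injective hs hM Z
      rw [h1]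
      exact (proj_same _ ha).symm
    rw [h2]
    exact proj_mem _ _ _
  nat {Y Z} f b := by
    obtain ⟨x, rfl⟩ := (thE hs hM Z).surjective b
    change (thE hs hM Y).symm (V'.map f (th M hs Z x)) =
      (baseW V V'.K).map f ((thE hs hM Z).symm (thE hs hM Z x))
    rw [RingEquiv.symm_apply_apply, ← th_nat, thE_symm]
  push {Y Z} f a := by
    obtain ⟨x, rfl⟩ := (thE hs hM Y).surjective a
    have hne : M.c ^ Z.dim ≠ 0 := pow_ne_zero _ M.ne
    have hne' : M.c ^ Y.dim ≠ 0 := pow_ne_zero _ M.ne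
    have h1 : V'.push f (th M hs Y x) = th M hs Z ((show (baseW V V'.K).K from
        ((M.c ^ Z.dim)⁻¹ * M.c ^ Y.dim)) • (baseW V V'.K).push f x) := by
      rw [th_smul, mul_smul, th_push, smul_smul, inv_mul_cancel₀ hne, one_smul]
    change (show (baseW V V'.K).K from M.c⁻¹) ^ Y.dim •
      (thE hs hM Z).symm (V'.push f (th M hs Y x)) =
      (show (baseW V V'.K).K from M.c⁻¹) ^ Z.dim • (baseW V V'.K).push f
        ((thE hs hM Y).symm (thE hs hM Y x))
    rw [RingEquiv.symm_apply_apply, h1, thE_symm, smul_smul]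
    congr 1
    change (M.c⁻¹ : V'.K) ^ Y.dim * ((M.c ^ Z.dim)⁻¹ * M.c ^ Y.dim) = (M.c⁻¹ : V'.K) ^ Z.dim
    rw [inv_pow, inv_pow]
    field_simp

lemma thR_apply (Z : 𝒱.Obj) (x : (baseW V V'.K).H Z) :
    (thR hs hM).E Z (th M hs Z x) = x := thE_symm hs hM Z x

lemma th_thR (Z : 𝒱.Obj) (y : V'.H Z) : th M hs Z ((thR hs hM).E Z y) = y :=
  (thE hs hM Z).apply_symm_apply y

lemma thR_E (Z : 𝒱.Obj) (a : V.H Z) : (thR hs hM).E Z (M.E Z a) = em V V'.K a := by
  rw [← th_em M hs, thR_apply]

/-- The span of the images of the members of a subspace. -/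
lemma th_base {Z : 𝒱.Obj} {p : Submodule V.K (V.H Z)} {x : (baseW V V'.K).H Z}
    (hx : x ∈ p.baseChange V'.K) :
    th M hs Z x ∈ Submodule.span V'.K (M.E Z '' (p : Set (V.H Z))) := by
  refine base_induction (P := fun x => th M hs Z x ∈
    Submodule.span V'.K (M.E Z '' (p : Set (V.H Z)))) ?_ ?_ ?_ hx
  · exact (map_zero (th M hs Z)).symm ▸ Submodule.zero_mem _
  · intro x y hx hy
    exact (map_add (th M hs Z) x y).symm ▸ Submodule.add_mem _ hx hy
  · intro l a ha
    exact (th_tmul M hs Z l a).symm ▸ Submodule.smul_mem _ _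
      (Submodule.subset_span ⟨a, ha, rfl⟩)

lemma thR_span {Z : 𝒱.Obj} {p : Submodule V.K (V.H Z)} {y : V'.H Z}
    (hy : y ∈ Submodule.span V'.K (M.E Z '' (p : Set (V.H Z)))) :
    (thR hs hM).E Z y ∈ p.baseChange V'.K := by
  induction hy using Submodule.span_induction with
  | mem y hy =>
    obtain ⟨a, ha, rfl⟩ := hy
    rw [thR_E]
    exact Submodule.tmul_mem_baseChange_of_mem _ ha
  | zero => exact (map_zero ((thR hs hM).E Z)).symm ▸ Submodule.zero_mem _
  | add x y _ _ hx hy =>
    exact (map_add ((thR hs hM).E Z) x y).symm ▸ Submodule.add_mem _ hx hy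
  | smul l x _ hx =>
    have h1 := (thR hs hM).semi Z l x
    exact h1.symm ▸ Submodule.smul_mem (p.baseChange V'.K) l hx

end Theta

/-- A class whose realisation is a linear combination of realisations of members of a subspace is
in this subspace. -/
lemma mem_of_span {M : Rlz V V'} (hM : Full M) {Z : 𝒱.Obj} {p : Submodule V.K (V.H Z)}
    {b : V.H Z} (hb : M.E Z b ∈ Submodule.span V'.K (M.E Z '' (p : Set (V.H Z)))) : b ∈ p := by
  let _ : Algebra V.K V'.K := M.s.toAlgebra
  have hs : ∀ r, M.s r = algebraMap V.K V'.K r := fun _ => rfl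
  have h1 := thR_span hs hM hb
  rw [thR_E] at h1
  exact mem_of_em_mem h1

section Transfer

variable {Γ : Type w} [Group Γ] {χ : Γ →* V.Kˣ}
  {ρ : ∀ n, Γ →* (V.H (pw X n) ≃ₐ[V.K] V.H (pw X n))}

lemma em_TG {L : Type} [Field L] [Algebra V.K L] {n : ℕ} {a : V.H (pw X n)}
    (ha : a ∈ TG V X χ ρ n) : em V L a ∈ TG (baseW V L) X (chB L χ) (rhB L ρ) n := by
  refine Submodule.iSup_induction _
    (motive := fun a => em V L a ∈ TG (baseW V L) X (chB L χ) (rhB L ρ) n) ha ?_ ?_ ?_
  · rintro j a ⟨h1, Δ, hΔ, h2⟩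
    refine le_iSup (fun j => tateClasses (chB L χ) ((baseW V L).gr (pw X n)) (rhB L ρ n) j) j
      ⟨em_gr h1, Δ, hΔ, fun g hg => ?_⟩
    rw [rhB_em, h2 g hg, em_smul, ex_pow, chB_ex]
  · rw [em_zero]; exact Submodule.zero_mem _
  · intro a b ha hb; rw [em_add]; exact Submodule.add_mem _ ha hb

lemma TG_base {L : Type} [Field L] [Algebra V.K L] {n : ℕ} {x : (baseW V L).H (pw X n)}
    (hx : x ∈ TG (baseW V L) X (chB L χ) (rhB L ρ) n) :
    x ∈ (TG V X χ ρ n).baseChange L := by
  refine Submodule.iSup_induction _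
    (motive := fun x : (baseW V L).H (pw X n) =>
      (show L ⊗[V.K] V.H (pw X n) from x) ∈ (TG V X χ ρ n).baseChange L) hx ?_ ?_ ?_
  · intro j x hx
    have h1 : tateClasses χ (V.gr (pw X n)) (ρ n) j ≤ TG V X χ ρ n :=
      le_iSup (fun j => tateClasses χ (V.gr (pw X n)) (ρ n) j) j
    exact base_induction (P := fun x => x ∈ (TG V X χ ρ n).baseChange L)
      (Submodule.zero_mem _) (fun x y hx hy => Submodule.add_mem _ hx hy)
      (fun l a ha => Submodule.tmul_mem_baseChange_of_mem _ (h1 ha)) (tate_base hx)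
  · exact Submodule.zero_mem _
  · intro a b ha hb; exact Submodule.add_mem _ ha hb

/-- **Transfer.** Let `N` and `M` be realisations of `V''` and `V` in the same theory `V'`. If the
classes of `S'` are generated by the classes on one power under correspondences in `S` whose
realisations are linear combinations of realisations of Tate classes for `V`, then the realisations
of the classes of `S'` are linear combinations of realisations of Tate classes for `V`. -/
theorem transfer (N : Rlz V'' V') {M : Rlz V V'} (hM : Full M) (h : PowerAction V X χ ρ)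
    {S S' : Sys V''}
    (hS : ∀ n, ∀ x ∈ S.C (pw X n), N.E _ x ∈
      Submodule.span V'.K (M.E _ '' (TG V X χ ρ n : Set (V.H (pw X n))))) {P : 𝒱.Obj} {m : ℕ}
    (θ : P ≅ Pool.Agent.Y133.Half.pw X m) (hP : GenBy S S' X P) {n : ℕ} {t : V''.H (pw X n)}
    (ht : t ∈ S'.C (pw X n)) :
    N.E _ t ∈ Submodule.span V'.K (M.E _ '' (TG V X χ ρ n : Set (V.H (pw X n)))) := by
  let _ : Algebra V.K V'.K := M.s.toAlgebra
  have hs : ∀ r, M.s r = algebraMap V.K V'.K r := fun _ => rfl
  have hb : ∀ n, ∀ x : (baseW V V'.K).H (pw X n), x ∈ (TG V X χ ρ n).baseChange V'.K →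
      x ∈ TG (baseW V V'.K) X (chB V'.K χ) (rhB V'.K ρ) n := by
    intro n x hx
    refine base_induction (P := fun x => (show (baseW V V'.K).H (pw X n) from x) ∈
      TG (baseW V V'.K) X (chB V'.K χ) (rhB V'.K ρ) n) ?_ ?_ ?_ hx
    · exact Submodule.zero_mem _
    · intro x y hx hy; exact Submodule.add_mem _ hx hy
    · intro l a ha
      have e : (show (baseW V V'.K).H (pw X n) from (l ⊗ₜ[V.K] a)) =
        (show (baseW V V'.K).K from l) • em V V'.K a := tmul_eq l a
      exact e.symm ▸ Submodule.smul_mem _ _ (em_TG ha)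
  have h1 := R_tate_of_genBy (Rlz.comp' (thR hs hM) N) (PowerAction.base (L := V'.K) h)
    (S := S) (S' := S') (fun n x hx => hb n _ (thR_span hs hM (hS n x hx))) θ hP ht
  have h2 := th_base (M := M) hs (TG_base h1)
  rw [comp'_apply, th_thR] at h2
  exact h2

end Transfer

end Pool.Agent.X299
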