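import Pool.Agent.X299.Z.SpanND

/-!
# The law for universal classes
-/

open CategoryTheory AlgebraicGeometry TensorProduct Filter Topology

universe u v w

namespace Pool.Agent.X299

open Module
open Pool.Agent.H914 Pool.Agent.H914.VarClass Pool.Agent.H914.VarClass.Obj
  Pool.Agent.H914.WeilCohomology Pool.Agent.H281R3.HT Pool.Agent.TH125.Gal Pool.Agent.Y121.AH
open Pool.Agent.Y129 (pw pj PowerAction TG tateClasses CC cycRank)
open Pool.Agent.Y133.Half (PH Sys ClassPred pwIso129)
open Pool.Agent.W536.RR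

variable {k : Type u} [Field k] {𝒱 : VarClass k} {ops : CycleOps 𝒱}

section Types

variable {T : HodgeTheory ops} {Z : 𝒱.Obj}

/-- The inclusion of the rational cohomology as a realisation. -/
noncomputable def emR (T : HodgeTheory ops) : Rlz T.W (CW T) where
  s := (algebraMap T.W.K ℂ : T.W.K →+* ℂ)
  c := 1
  ne := one_ne_zero
  E Z := (Algebra.TensorProduct.includeRight : T.W.H Z →ₐ[T.W.K] ℂ ⊗[T.W.K] T.W.H Z).toRingHom
  semi Z r a := em_smul (W := T.W) (L := ℂ) r a
  gr h := em_gr h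
  nat f b := (em_map f b).symm
  push f a := by
    rw [one_pow, one_pow, one_smul, one_smul]
    exact (em_push f a).symm

lemma emR_apply (Z : 𝒱.Obj) (a : T.W.H Z) : (emR T).E Z a = em T.W ℂ a := rfl

/-- The classes of the types `(j, j)`. -/
noncomputable def JJ (T : HodgeTheory ops) (Z : 𝒱.Obj) : Submodule (CW T).K ((CW T).H Z) :=
  ⨆ j : ℕ, T.pq Z j j

lemma even_of_em {b : T.W.H Z} (h : em T.W ℂ b ∈ PH (CW T) Z 0) : b ∈ PH T.W Z 0 := by
  apply mem_of_em_mem (L := ℂ)
  refine PH.ind (p := fun x : (CW T).H Z => (show ℂ ⊗[T.W.K] T.W.H Z from x) ∈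
    (PH T.W Z 0).baseChange ℂ) ?_ ?_ ?_ h
  · intro i hi x hx
    exact base_induction (P := fun x => x ∈ (PH T.W Z 0).baseChange ℂ)
      (Submodule.zero_mem _) (fun x y hx hy => Submodule.add_mem _ hx hy)
      (fun l a ha => Submodule.tmul_mem_baseChange_of_mem _ (PH.of' hi ha))
      (show (show ℂ ⊗[T.W.K] T.W.H Z from x) ∈ (T.W.gr Z i).baseChange ℂ from hx)
  · exact Submodule.zero_mem _
  · intro x y hx hy; exact Submodule.add_mem _ hx hy

lemma JJ_le (T : HodgeTheory ops) (Z : 𝒱.Obj) : JJ T Z ≤ PH (CW T) Z 0 := by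
  apply iSup_le
  intro j x hx
  have h1 := T.dec.le Z (p := j) (q := j) (i := 2 * j) (by push_cast; ring) hx
  exact PH.of' (by omega) h1

/-- Rational classes of types `(j, j)` are sums of Hodge classes. -/
lemma hodge_of_JJ {b : T.W.H Z} (h : em T.W ℂ b ∈ JJ T Z) : b ∈ (hodgeSys T).C Z := by
  obtain ⟨f, hf, hfb⟩ := exists_components (even_of_em (JJ_le T Z h))
  have h1 : ∀ j, IsHodge T Z j (H914.proj (T.W.isInternal Z) (2 * j) b) := by
    intro j
    refine ⟨proj_mem _ _ _, ?_⟩
    rw [← emR_apply, R_proj, emR_apply]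
    refine Submodule.iSup_induction _ (motive := fun x =>
      H914.proj ((CW T).isInternal Z) (2 * j) x ∈ T.pq Z j j) h ?_ ?_ ?_
    · intro i x hx
      have h1 : x ∈ (CW T).gr Z (2 * i) :=
        T.dec.le Z (p := i) (q := i) (i := 2 * i) (by push_cast; ring) hx
      by_cases hij : i = j
      · subst hij
        rw [proj_same _ h1]; exact hx
      · rw [proj_ne _ h1 (by omega)]; exact Submodule.zero_mem _
    · rw [map_zero]; exact Submodule.zero_mem _
    · intro x y hx hy; rw [map_add]; exact Submodule.add_mem _ hx hy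
  rw [← hfb, Finsupp.sum]
  refine Submodule.sum_mem _ fun j hj => ?_
  have h2 : f j = H914.proj (T.W.isInternal Z) (2 * j) b := by
    rw [← hfb, Finsupp.sum, map_sum, Finset.sum_eq_single j]
    · rw [proj_same _ (hf j)]
    · intro l _ hl
      exact proj_ne _ (hf l) (by omega)
    · exact fun h => absurd hj h
  rw [h2]
  exact ClassPred.sp_of (Q := hodgePred T) (h1 j)

/-- Classes whose realisation is fixed have a realisation of types `(j, j)`. -/
lemma JJ_of_fix {V : WeilCohomology.{u, 0} ops} (R : Rlz V (CW T)) {a : V.H Z}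
    (ha : a ∈ PH V Z 0) (h : ∃ Δ : Subgroup (CW T).Kˣ, Δ.FiniteIndex ∧ ∀ z ∈ Δ,
      gz T Z z (R.E Z a) = R.E Z a) : R.E Z a ∈ JJ T Z := by
  obtain ⟨f, hf, rfl⟩ := exists_components ha
  obtain ⟨Δ, hΔ, h1⟩ := h
  have h2 : ∀ j : ℕ, R.E Z (f j) ∈ T.pq Z j j := fun j => pq_of_fix_index (R.gr (hf j))
    ⟨Δ, hΔ, fun z hz => fix_component R hf (h1 z hz) j⟩
  rw [Finsupp.sum, map_sum]
  exact Submodule.sum_mem _ fun j _ => Submodule.mem_iSup_of_mem j (h2 j)

end Types

variable {T : HodgeTheory ops} {X : 𝒱.Obj} {I : Type v} (p : I → Place.{u, w} T X) (i : I)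

/-- The span of the realisations of the universal classes. -/
noncomputable def US (n : ℕ) : Submodule (p i).V.K ((p i).V.H (pw X n)) :=
  Submodule.span (p i).V.K ((p i).E.E (pw X n) '' (UU p n : Set (T.W.H (pw X n))))

lemma powSys_US : PowSys (p i).V X (US p i) := powSys_span (p i).cyc (powSys_UU p)

lemma US_le (n : ℕ) : US p i n ≤ TG (p i).V X (p i).χ (p i).ρ n := by
  rw [US, Submodule.span_le]
  rintro _ ⟨a, ha, rfl⟩
  exact ha.2 i

/-- A universal class of top degree. -/
lemma exists_top_UU [Nontrivial (T.W.H X)] : ∃ l : T.W.H X, l ∈ UU p 0 ∧ T.W.tr X l = 1 := by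
  obtain ⟨l, hl, hl1⟩ := exists_tr_hodge T X
  exact ⟨l, ⟨ClassPred.sp_of (Q := hodgePred T) hl, fun i =>
    top_TG (p i).act ((p i).E.gr hl.1)⟩, hl1⟩

lemma exists_top_US [Nontrivial (T.W.H X)] :
    ∃ z : (p i).V.H X, z ∈ US p i 0 ∧ (p i).V.tr X z = 1 := by
  obtain ⟨l, hl, hl1⟩ := exists_top_UU p
  have hne : (p i).E.c ^ X.dim ≠ 0 := pow_ne_zero _ (p i).E.ne
  have h1 : (p i).E.E X l ∈ US p i 0 := Submodule.subset_span ⟨l, hl, rfl⟩
  have h2 : ((p i).E.c ^ X.dim)⁻¹ • (p i).E.E X l ∈ US p i 0 := Submodule.smul_mem (US p i 0) _ h1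
  refine ⟨((p i).E.c ^ X.dim)⁻¹ • (p i).E.E X l, h2, ?_⟩
  rw [map_smul, (p i).full.tr, hl1, map_one, mul_one, smul_eq_mul, inv_mul_cancel₀ hne]

/-- The system of classes generated by the universal classes. -/
noncomputable def uSys [Nontrivial (T.W.H X)] : Sys (p i).V :=
  sysOf (powSys_US p i) (exists_top_US p i)

lemma uSys_pw [Nontrivial (T.W.H X)] (n : ℕ) : (uSys p i).C (pw X n) = US p i n :=
  hull_pw (powSys_US p i) n

lemma uSys_a [Nontrivial (T.W.H X)] (n : ℕ) : (uSys p i).a (pw X n) = finrank T.W.K (UU p n) :=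
  a_eq_finrank (p i).full (fun x hx h => UU_nondeg hx h) (uSys_pw p i n)

lemma nontrivial_place [Nontrivial (T.W.H X)] : Nontrivial ((p i).V.H X) := by
  obtain ⟨z, -, hz⟩ := exists_top_US p i
  refine ⟨⟨z, 0, fun h => ?_⟩⟩
  rw [h, map_zero] at hz
  exact zero_ne_one hz

variable {p}

/-- The finite case. -/
theorem US_of_genBy [Nontrivial (T.W.H X)] {S' : Sys (p i).V} {P : 𝒱.Obj} {m : ℕ}
    (θ : P ≅ Pool.Agent.Y133.Half.pw X m) (hP : GenBy (uSys p i) S' X P) (n : ℕ) :
    S'.C (pw X n) ≤ US p i n := by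
  intro y hy
  obtain ⟨ι, s, l, b, hyb, h⟩ := descent (p i).E (p i).full (p i).emb y
  rw [hyb]
  refine Submodule.sum_mem _ fun a ha => Submodule.smul_mem _ _ (Submodule.subset_span
    ⟨b a, ⟨?_, fun i' => ?_⟩, rfl⟩)
  · -- the classes are sums of Hodge classes
    apply hodge_of_JJ
    refine h (JJ T (pw X n)) (fun M hM hME => ?_) a ha
    refine JJ_of_fix M (S'.even hy) (fix_of_genBy M (S := uSys p i) ?_ θ hP hy)
    intro Z x hx z
    have h0 : hull (p i).V X (US p i) Z ≤
        Submodule.span (p i).V.K ((p i).E.E Z '' ((hodgeSys T).C Z : Set (T.W.H Z))) := by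
      rw [hull, Submodule.span_le]
      rintro _ ⟨m, f, hf, x, hx, rfl⟩
      exact CC_span (p i).cyc hf (G := UU p m) (G' := (hodgeSys T).C Z) (fun g hg a ha =>
        CC_apply (T := hodgeSys T) (fun Z => ClassPred.alg_le) hg ha.1) hx
    have h1 : x ∈ Submodule.span (p i).V.K ((p i).E.E Z '' ((hodgeSys T).C Z : Set (T.W.H Z))) :=
      h0 hx
    clear hx
    induction h1 using Submodule.span_induction with
    | mem x hx =>
      obtain ⟨c, hc, rfl⟩ := hx
      rw [hME]
      refine ClassPred.sp_ind (Q := hodgePred T)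
        (q := fun c => gz T Z z (em T.W ℂ c) = em T.W ℂ c) ?_ ?_ ?_ hc
      · intro j c hc; exact gz_hodge z hc
      · rw [em_zero, map_zero]
      · intro a b ha hb; rw [em_add, map_add, ha, hb]
    | zero => rw [map_zero, map_zero]
    | add a b _ _ ha hb => rw [map_add, map_add, ha, hb]
    | smul r a _ ha => rw [M.semi, map_smul, ha]
  · -- the classes are Tate classes
    obtain ⟨τ⟩ := (p i').emb
    obtain ⟨M', hM', -, hME'⟩ := exists_mix (p i').E (p i').full τ
    apply mem_of_span hM'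
    rw [hME']
    refine h (Submodule.span (CW T).K (M'.E _ ''
      (TG (p i').V X (p i').χ (p i').ρ n : Set ((p i').V.H (pw X n)))))
      (fun M hM hME => ?_) a ha
    refine transfer M hM' (p i').act (S := uSys p i) (fun n x hx => ?_) θ hP hy
    rw [uSys_pw] at hx
    induction hx using Submodule.span_induction with
    | mem x hx =>
      obtain ⟨c, hc, rfl⟩ := hx
      rw [hME, ← hME']
      exact Submodule.subset_span ⟨_, hc.2 i', rfl⟩
    | zero => rw [map_zero]; exact Submodule.zero_mem _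
    | add a b _ _ ha hb => rw [map_add]; exact Submodule.add_mem _ ha hb
    | smul r a _ ha => rw [M.semi]; exact Submodule.smul_mem _ _ ha

/-- **The law for universal classes.** -/
theorem univ_or [Nontrivial (T.W.H X)] :
    (∀ n, US p i n = TG (p i).V X (p i).χ (p i).ρ n) ∨
      Tendsto (fun n => (finrank T.W.K (UU p n) : ℝ) /
        finrank (p i).V.K (TG (p i).V X (p i).χ (p i).ρ n)) atTop (𝓝 0) := by
  have := nontrivial_place p i
  have hT := powSys_TG (p i).act
  have hST : ∀ Z, (uSys p i).C Z ≤ (sysOf hT (exists_top (p i).act inferInstance)).C Z :=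
    fun Z => hull_mono (fun n => US_le p i n) Z
  have hpw : ∀ n, (sysOf hT (exists_top (p i).act inferInstance)).C (pw X n) =
      TG (p i).V X (p i).χ (p i).ρ n := fun n => hull_pw hT n
  have htop : ∃ l ∈ (uSys p i).C X, (p i).V.tr X l = 1 := by
    obtain ⟨z, hz, hz1⟩ := exists_top_US p i
    exact ⟨z, (uSys_pw p i 0).symm ▸ hz, hz1⟩
  rcases growth_pow hST htop with ⟨m, P, ⟨θ⟩, hP⟩ | h1
  · left
    intro n
    apply le_antisymm (US_le p i n)
    rw [← hpw]
    exact US_of_genBy i θ hP n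
  · right
    refine h1.congr fun n => ?_
    rw [uSys_a, hpw]

end Pool.Agent.X299
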