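import Pool.Agent.X299.Z.GPlace

/-!
# The laws for universal classes
-/

open CategoryTheory AlgebraicGeometry TensorProduct Filter Topology

universe u v w

namespace Pool.Agent.X299

open Module
open Pool.Agent.H914 Pool.Agent.H914.VarClass Pool.Agent.H914.VarClass.Obj
  Pool.Agent.H914.WeilCohomology Pool.Agent.H281R3.HT Pool.Agent.TH125.Gal
open Pool.Agent.Y129 (pw pj PowerAction TG tateClasses CC cycRank nontrivial_pw one_algSpan)
open Pool.Agent.Y133.Half (PH Sys ClassPred pwIso129)
open Pool.Agent.W536.RR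

variable {k : Type u} [Field k] {𝒱 : VarClass k} {ops : CycleOps 𝒱}

section AH

open Pool.Agent.Y121.AH

variable {T : HodgeTheory ops} {X : 𝒱.Obj} {I : Type v} (p : I → Place.{u, w} T X)

/-- The system of the universal classes. -/
noncomputable def ruSys [Nontrivial (T.W.H X)] : Sys T.W :=
  sysOf (powSys_UU p) (by obtain ⟨l, hl, h⟩ := exists_top_UU p; exact ⟨l, hl, h⟩)

lemma ruSys_pw [Nontrivial (T.W.H X)] (n : ℕ) : (ruSys p).C (pw X n) = UU p n :=
  hull_pw (powSys_UU p) n

lemma ruSys_num [Nontrivial (T.W.H X)] (n : ℕ) : (ruSys p).Num (pw X n) = ⊥ := by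
  rw [eq_bot_iff]
  rintro x ⟨hx, hx'⟩
  rw [ruSys_pw] at hx hx'
  exact UU_nondeg hx hx'

lemma ruSys_a [Nontrivial (T.W.H X)] (n : ℕ) :
    (ruSys p).a (pw X n) = finrank T.W.K (UU p n) := by
  have h := (ruSys p).a_add_num (pw X n)
  rw [ruSys_num, finrank_bot, add_zero, ruSys_pw] at h
  exact h

lemma cycRank_le_UU [Nontrivial (T.W.H X)] (n : ℕ) :
    cycRank ops (pw X n) ≤ finrank T.W.K (UU p n) := by
  rw [← ruSys_a]
  refine (le_of_eq (Pool.Agent.Y133.Half.numDim_eq_cycRank T.W (pw X n)).symm).trans ?_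
  exact a_le_a (fun Z => alg_le_hull (powSys_UU p)
    (by obtain ⟨l, hl, h⟩ := exists_top_UU p; exact ⟨l, hl, h⟩) Z) _

variable {p} in
lemma UU_le_TG (i : I) (n : ℕ) :
    finrank T.W.K (UU p n) ≤ finrank (p i).V.K (TG (p i).V X (p i).χ (p i).ρ n) := by
  rw [← (span_nondeg (p i).full (fun x hx h => UU_nondeg (p := p) hx h)).1]
  exact Submodule.finrank_mono (US_le p i n)

lemma UU_pos [Nontrivial (T.W.H X)] (n : ℕ) : 0 < finrank T.W.K (UU p n) := by
  have h7 := nontrivial_pw (W := T.W) (X := X) n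
  rw [Module.finrank_pos_iff]
  exact ⟨⟨⟨1, (powSys_UU p).alg n (one_algSpan _)⟩, 0,
    fun h => one_ne_zero (congrArg Subtype.val h)⟩⟩

/-- The case of equality: the pairing of the Tate classes is perfect. -/
lemma perfect_of_US (i : I)
    (h : ∀ n, US p i n = TG (p i).V X (p i).χ (p i).ρ n) :
    TatePerfect (p i).V X (p i).χ (p i).ρ := by
  apply perfect_homog
  intro n c hc hc'
  rw [← h] at hc hc'
  exact (span_nondeg (p i).full (fun x hx h => UU_nondeg (p := p) hx h)).2 c hc hc'

/-- **The law for Hodge classes.** Either all Hodge classes on all powers of `X` are universal, or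
the proportion of the universal classes among them tends to zero. -/
theorem hodge_univ_or [Nontrivial (T.W.H X)] :
    (∀ n, UU p n = (hodgeSys T).C (pw X n)) ∨
      Tendsto (fun n => (finrank T.W.K (UU p n) : ℝ) /
        finrank T.W.K ((hodgeSys T).C (pw X n))) atTop (𝓝 0) := by
  have hST : ∀ Z, (ruSys p).C Z ≤ (hodgeSys T).C Z :=
    fun Z => hull_le (T := hodgeSys T) (G := UU p) (fun Z => ClassPred.alg_le)
      (fun n a ha => ha.1) Z
  have htop : ∃ l ∈ (ruSys p).C X, T.W.tr X l = 1 := by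
    obtain ⟨z, hz, hz1⟩ := exists_top_UU p
    exact ⟨z, (ruSys_pw p 0).symm ▸ hz, hz1⟩
  rcases growth_pow hST htop with ⟨m, P, ⟨θ⟩, hP⟩ | h1
  · left
    intro n
    refine le_antisymm (fun a ha => ha.1) fun y hy => ⟨hy, fun i => ?_⟩
    obtain ⟨τ⟩ := (p i).emb
    obtain ⟨M, hM, -, hME⟩ := exists_mix (p i).E (p i).full τ
    apply mem_of_span hM
    rw [hME, ← emR_apply]
    refine transfer (emR T) hM (p i).act (S := ruSys p) (fun n x hx => ?_) θ hP hy
    rw [ruSys_pw] at hx
    rw [emR_apply, ← hME]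
    exact Submodule.subset_span ⟨_, hx.2 i, rfl⟩
  · right
    refine h1.congr fun n => ?_
    rw [ruSys_a]

lemma uloc_iff {n j : ℕ} {c : T.W.H (pw X n)} : (uloc p n).P j c ↔ IsHodge T (pw X n) j c ∧
    ∀ i, (p i).E.E _ c ∈ tateClasses (p i).χ ((p i).V.gr (pw X n)) ((p i).ρ n) j := Iff.rfl

variable {p} in
lemma UU_proj {n : ℕ} {x : T.W.H (pw X n)} (hx : x ∈ UU p n) (j : ℕ) :
    (uloc p n).P j (H914.proj (T.W.isInternal (pw X n)) (2 * j) x) := by
  refine ⟨ClassPred.sp_proj (Q := hodgePred T) hx.1 j, fun i => ?_⟩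
  rw [R_proj]
  exact TG_proj (hx.2 i) j

/-- Homogeneous components and projections. -/
lemma exists_comps {W : WeilCohomology.{u, v} ops} {Z : 𝒱.Obj} {x : W.H Z}
    (hx : x ∈ PH W Z 0) : ∃ s : Finset ℕ, x = ∑ j ∈ s,
      H914.proj (W.isInternal Z) (2 * j) x := by
  have h2 : x ∈ ⨆ j, W.gr Z (2 * j) := by
    refine PH.ind (p := fun a => a ∈ ⨆ j, W.gr Z (2 * j)) ?_ ?_ ?_ hx
    · intro i hi a ha
      obtain ⟨j, rfl⟩ : ∃ j, i = 2 * j := ⟨i / 2, by omega⟩
      exact Submodule.mem_iSup_of_mem j ha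
    · exact Submodule.zero_mem _
    · intro x y hx hy; exact Submodule.add_mem _ hx hy
  obtain ⟨f, hf, hfx⟩ := (Submodule.mem_iSup_iff_exists_finsupp _ _).1 h2
  refine ⟨f.support, ?_⟩
  conv_lhs => rw [← hfx]
  rw [Finsupp.sum]
  refine Finset.sum_congr rfl fun j hj => ?_
  rw [← hfx, Finsupp.sum, map_sum, Finset.sum_eq_single j]
  · rw [proj_same _ (hf j)]
  · intro l _ hl
    exact proj_ne _ (hf l) (by omega)
  · exact fun h => absurd hj h

lemma UU_eq_span (n : ℕ) :
    UU p n = Submodule.span T.W.K {c | ∃ j, (uloc p n).P j c} := by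
  apply le_antisymm
  · intro x hx
    obtain ⟨s, hs⟩ := exists_comps ((powSys_UU p).even n x hx)
    rw [hs]
    exact Submodule.sum_mem _ fun j _ => Submodule.subset_span ⟨j, UU_proj hx j⟩
  · rw [Submodule.span_le]
    rintro c ⟨j, hc⟩
    exact mem_UU_of hc

variable {p} in
/-- The homogeneous components of linear combinations of universal classes. -/
lemma US_homog {i : I} {n j : ℕ} {y : (p i).V.H (pw X n)} (hy : y ∈ US p i n)
    (hj : y ∈ (p i).V.gr (pw X n) (2 * j)) :
    y ∈ Submodule.span (p i).V.K ((p i).E.E (pw X n) '' {c | (uloc p n).P j c}) := by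
  have key : ∀ y ∈ US p i n, H914.proj ((p i).V.isInternal (pw X n)) (2 * j) y ∈
      Submodule.span (p i).V.K ((p i).E.E (pw X n) '' {c | (uloc p n).P j c}) := by
    intro y hy
    induction hy using Submodule.span_induction with
    | mem y hy =>
      obtain ⟨c, hc, rfl⟩ := hy
      rw [← R_proj]
      exact Submodule.subset_span ⟨_, UU_proj hc j, rfl⟩
    | zero => rw [map_zero]; exact Submodule.zero_mem _
    | add x y _ _ hx hy => rw [map_add]; exact Submodule.add_mem _ hx hy
    | smul r x _ hx => rw [map_smul]; exact Submodule.smul_mem _ _ hx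
  have h := key y hy
  rwa [proj_same _ hj] at h

end AH

open Pool.Agent.Y121.AHS

variable {T : HodgeTheory ops} {X : 𝒱.Obj} {I : Type v} (θ : I → GaloisTheory.{u, w} T X)

lemma universal_iff (n j : ℕ) (c : T.W.H (pw X n)) : IsUniversal θ n j c ↔
    (uloc (fun i => (θ i).place) n).P j c :=
  and_congr_right fun _ => forall_congr' fun i => mem_tate (θ i) n j _

lemma univDim_eq (n : ℕ) : univDim θ n =
    finrank (toH T).W.K (UU (fun i => (θ i).place) n) := by
  have h1 : {c : T.W.H (pw X n) | ∃ j, IsUniversal θ n j c} =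
      {c | ∃ j, (uloc (fun i => (θ i).place) n).P j c} :=
    Set.ext fun c => exists_congr fun j => universal_iff θ n j c
  rw [UU_eq_span]
  exact congrArg (fun S : Set (T.W.H (pw X n)) => finrank T.W.K (Submodule.span T.W.K S)) h1

lemma tateIsUniversal_of (i : I)
    (h : ∀ n, US (fun i => (θ i).place) i n =
      TG (θ i).place.V X (θ i).place.χ (θ i).place.ρ n) : TateIsUniversal θ i := by
  intro n j y hy
  have h1 := (mem_tate (θ i) n j y).1 hy
  have h2 : y ∈ US (fun i => (θ i).place) i n := by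
    rw [h]
    exact le_iSup (fun j => tateClasses (θ i).place.χ ((θ i).place.V.gr (pw X n))
      ((θ i).place.ρ n) j) j h1
  have h3 := US_homog h2 h1.1
  have h4 : {c : T.W.H (pw X n) | IsUniversal θ n j c} =
      {c | (uloc (fun i => (θ i).place) n).P j c} := Set.ext fun c => universal_iff θ n j c
  rw [IsComb, h4]
  exact h3

/-- **The law for Tate classes.** -/
theorem universal_law [Nontrivial (T.W.H X)] (i : I) :
    (∀ n, univDim θ n ≤ (θ i).act.tateDim n ∧ 0 < univDim θ n) ∧
    ((TateIsUniversal θ i ∧ (∀ n, univDim θ n = (θ i).act.tateDim n) ∧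
        ((θ i).act.CyclotomicLines → (θ i).act.Semisimple)) ∨
      Tendsto (fun n => (univDim θ n : ℝ) / (θ i).act.tateDim n) atTop (𝓝 0)) := by
  have hnt : Nontrivial ((toH T).W.H X) := (inferInstance : Nontrivial (T.W.H X))
  refine ⟨fun n => ⟨?_, ?_⟩, ?_⟩
  · rw [univDim_eq, ← finrank_place]
    exact UU_le_TG (p := fun i => (θ i).place) i n
  · rw [univDim_eq]; exact UU_pos _ n
  rcases univ_or (p := fun i => (θ i).place) i with h | h
  · left
    refine ⟨tateIsUniversal_of θ i h, fun n => ?_, fun hl => ?_⟩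
    · rw [univDim_eq, ← finrank_place]
      have h1 := (span_nondeg (θ i).place.full
        (fun x hx h => UU_nondeg (p := fun i => (θ i).place) (n := n) hx h)).1
      rw [← h1]
      exact congrArg (fun S : Submodule (θ i).place.V.K ((θ i).place.V.H (pw X n)) =>
        finrank (θ i).place.V.K S) (h n)
    · rw [PowAct.semi_iff]
      exact semisimple_of_perfect (θ i).act.power (perfect_of_US (fun i => (θ i).place) i h)
        ((θ i).act.lines_iff.1 hl)
  · right
    refine h.congr fun n => ?_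
    rw [univDim_eq, finrank_place]

/-- **The law for Hodge classes.** -/
theorem hodge_universal_law [Nontrivial (T.W.H X)] :
    (∀ n, univDim θ n ≤ hodgeDim T (pw X n) ∧ 0 < univDim θ n) ∧
    ((∀ n j c, IsHodge T (pw X n) j c → IsUniversal θ n j c) ∨
      Tendsto (fun n => (univDim θ n : ℝ) / hodgeDim T (pw X n)) atTop (𝓝 0)) := by
  have hnt : Nontrivial ((toH T).W.H X) := (inferInstance : Nontrivial (T.W.H X))
  have hd : ∀ n, hodgeDim T (pw X n) =
      finrank (toH T).W.K ((Pool.Agent.Y121.AH.hodgeSys (toH T)).C (pw X n)) := fun n => rfl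
  refine ⟨fun n => ⟨?_, ?_⟩, ?_⟩
  · rw [univDim_eq, hd]
    exact Submodule.finrank_mono fun a ha => ha.1
  · rw [univDim_eq]; exact UU_pos _ n
  rcases hodge_univ_or (fun i => (θ i).place) with h | h
  · left
    intro n j c hc
    refine ⟨hc, fun i => ?_⟩
    have h1 : c ∈ UU (fun i => (θ i).place) n := by
      rw [h]
      exact ClassPred.sp_of (Q := Pool.Agent.Y121.AH.hodgePred (toH T)) (j := j) hc
    have h2 := (UU_proj h1 j).2 i
    have h3 : H914.proj ((toH T).W.isInternal (pw X n)) (2 * j) c = c := proj_same _ hc.1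
    rw [h3] at h2
    exact (mem_tate (θ i) n j _).2 h2
  · right
    refine h.congr fun n => ?_
    rw [univDim_eq, hd]

/-- The classes of algebraic cycles are universal. -/
theorem cycle_universal (n j : ℕ) (z : (pw X n).Cycles) (hz : (pw X n).IsCyc j z) :
    IsUniversal θ n j (T.W.cl (pw X n) z) :=
  (universal_iff θ n j _).2 ((uloc (fun i => (θ i).place) n).cl hz)

end Pool.Agent.X299
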