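import Pool.Agent.X299.Z.LocHR

/-!
# Universal classes
-/

open CategoryTheory AlgebraicGeometry TensorProduct Filter Topology

universe u v w

namespace Pool.Agent.X299

open Module
open Pool.Agent.H914 Pool.Agent.H914.VarClass Pool.Agent.H914.VarClass.Obj
  Pool.Agent.H914.WeilCohomology Pool.Agent.H281R3.HT Pool.Agent.TH125.Gal Pool.Agent.Y121.AH
open Pool.Agent.Y129 (pw pj PowerAction TG tateClasses CC cycRank tate_mul)
open Pool.Agent.Y133.Half (PH Sys ClassPred pwIso129)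
open Pool.Agent.W536.RR

variable {k : Type u} [Field k] {𝒱 : VarClass k} {ops : CycleOps 𝒱}

section Proj

variable {V : WeilCohomology.{u, v} ops} {X : 𝒱.Obj} {Γ : Type w} [Group Γ]
  {χ : Γ →* V.Kˣ} {ρ : ∀ n, Γ →* (V.H (pw X n) ≃ₐ[V.K] V.H (pw X n))}

lemma TG_proj {n : ℕ} {x : V.H (pw X n)} (hx : x ∈ TG V X χ ρ n) (j : ℕ) :
    H914.proj (V.isInternal (pw X n)) (2 * j) x ∈ tateClasses χ (V.gr (pw X n)) (ρ n) j := by
  refine Submodule.iSup_induction _ (motive := fun x =>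
    H914.proj (V.isInternal (pw X n)) (2 * j) x ∈ tateClasses χ (V.gr (pw X n)) (ρ n) j)
    hx ?_ ?_ ?_
  · intro i x hx
    by_cases hij : i = j
    · subst hij
      rw [proj_same _ hx.1]; exact hx
    · rw [proj_ne _ hx.1 (by omega)]; exact Submodule.zero_mem _
  · rw [map_zero]; exact Submodule.zero_mem _
  · intro a b ha hb; rw [map_add]; exact Submodule.add_mem _ ha hb

end Proj

lemma R_proj {W V : WeilCohomology.{u, 0} ops} (E : Rlz W V) {Z : 𝒱.Obj} (i : ℕ) (x : W.H Z) :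
    E.E Z (H914.proj (W.isInternal Z) i x) = H914.proj (V.isInternal Z) i (E.E Z x) := by
  refine gr_induction (W.isInternal Z) (p := fun x =>
    E.E Z (H914.proj (W.isInternal Z) i x) = H914.proj (V.isInternal Z) i (E.E Z x)) ?_ ?_ x
  · intro m a ha'
    by_cases hm : m = i
    · subst hm
      rw [proj_same _ ha', proj_same _ (E.gr ha')]
    · rw [proj_ne _ ha' hm, proj_ne _ (E.gr ha') hm, map_zero]
  · intro a b ha hb
    simp only [map_add, ha, hb]

/-- A theory with an action of a group on the cohomology of the powers of `X`, and a realisation of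
the rational theory in it. -/
structure Place (T : HodgeTheory ops) (X : 𝒱.Obj) where
  V : WeilCohomology.{u, 0} ops
  E : Rlz T.W V
  full : Full E
  cyc : CycR E
  emb : Nonempty (V.K →+* ℂ)
  Γ : Type w
  [grp : Group Γ]
  χ : Γ →* V.Kˣ
  ρ : ∀ n, Γ →* (V.H (pw X n) ≃ₐ[V.K] V.H (pw X n))
  act : PowerAction V X χ ρ

attribute [instance] Place.grp

variable {T : HodgeTheory ops} {X : 𝒱.Obj} {I : Type v} (p : I → Place.{u, w} T X)

/-- The space of the universal classes: the rational classes which are Hodge classes and Tate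
classes at all places. -/
def UU (n : ℕ) : Submodule T.W.K (T.W.H (pw X n)) where
  carrier := {a | a ∈ (hodgeSys T).C (pw X n) ∧
    ∀ i, (p i).E.E _ a ∈ TG (p i).V X (p i).χ (p i).ρ n}
  zero_mem' := ⟨Submodule.zero_mem _, fun i => by rw [map_zero]; exact Submodule.zero_mem _⟩
  add_mem' := fun ha hb => ⟨Submodule.add_mem _ ha.1 hb.1, fun i => by
    rw [map_add]; exact Submodule.add_mem _ (ha.2 i) (hb.2 i)⟩
  smul_mem' := fun r a ha => ⟨Submodule.smul_mem _ _ ha.1, fun i => by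
    rw [(p i).E.semi]; exact Submodule.smul_mem _ _ (ha.2 i)⟩

variable {p}

lemma mem_UU {n : ℕ} {a : T.W.H (pw X n)} : a ∈ UU p n ↔ a ∈ (hodgeSys T).C (pw X n) ∧
    ∀ i, (p i).E.E _ a ∈ TG (p i).V X (p i).χ (p i).ρ n := Iff.rfl

variable (p) in
lemma powSys_UU : PowSys T.W X (UU p) where
  stable m n f hf a ha := by
    refine ⟨CC_apply (T := hodgeSys T) (fun Z => ClassPred.alg_le) hf ha.1, fun i => ?_⟩
    obtain ⟨f', hf', h⟩ := E_CC (p i).cyc hf
    rw [h]
    exact (p i).act.stable m n f' hf' _ (ha.2 i)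
  alg n a ha := ⟨ClassPred.alg_le ha, fun i =>
    (p i).act.algSpan_le n (E_alg (p i).cyc ha)⟩
  mul n a ha b hb := ⟨(hodgeSys T).mul ha.1 hb.1, fun i => by
    rw [map_mul]; exact TG_mul n (ha.2 i) (hb.2 i)⟩
  even n a ha := (hodgeSys T).even ha.1

lemma mul_inj_E {V : WeilCohomology.{u, 0} ops} {E : Rlz T.W V} (hE : Full E)
    (hemb : Nonempty (V.K →+* ℂ)) {Z : 𝒱.Obj} {i : ℕ} {w : T.W.H Z}
    (hw : ∀ x ∈ T.W.gr Z i, w * x = 0 → x = 0) {y : V.H Z} (hy : y ∈ V.gr Z i)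
    (h : E.E Z w * y = 0) : y = 0 := by
  obtain ⟨τ⟩ := hemb
  obtain ⟨M, hM, -, hME⟩ := exists_mix E hE τ
  have h1 : em T.W ℂ w * M.E Z y = 0 := by rw [← hME, ← map_mul, h, map_zero]
  have h2 : M.E Z y = 0 := mul_inj_base hw (M.gr hy) h1
  apply V.nondeg
  intro b
  have h3 := hM.tr Z (y * b)
  rw [map_mul, h2, zero_mul, map_zero] at h3
  rcases mul_eq_zero.1 h3.symm with h4 | h4
  · exact absurd h4 (pow_ne_zero _ M.ne)
  · exact (map_eq_zero M.s).1 h4

/-- The Lefschetz operators detect Tate classes. -/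
lemma tate_lift {V : WeilCohomology.{u, 0} ops} {Γ : Type w} [Group Γ]
    {χ : Γ →* V.Kˣ} {ρ : ∀ n, Γ →* (V.H (pw X n) ≃ₐ[V.K] V.H (pw X n))}
    (h : PowerAction V X χ ρ) {n m j : ℕ} {w : V.H (pw X n)}
    (hw : w ∈ tateClasses χ (V.gr (pw X n)) (ρ n) m)
    (hinj : ∀ y ∈ V.gr (pw X n) (2 * j), w * y = 0 → y = 0) {x : V.H (pw X n)}
    (hx : x ∈ V.gr (pw X n) (2 * j))
    (hwx : w * x ∈ tateClasses χ (V.gr (pw X n)) (ρ n) (m + j)) :
    x ∈ tateClasses χ (V.gr (pw X n)) (ρ n) j := by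
  obtain ⟨-, Δ, hΔ, h1⟩ := hw
  obtain ⟨-, Δ', hΔ', h2⟩ := hwx
  refine ⟨hx, Δ ⊓ Δ', inferInstance, fun g hg => ?_⟩
  have h3 := h2 g hg.2
  rw [map_mul, h1 g hg.1, smul_mul_assoc, pow_add, mul_smul] at h3
  have h4 : ((χ g : V.K) ^ m) ≠ 0 := pow_ne_zero _ (Units.ne_zero _)
  have h5 : w * ρ n g x = (χ g : V.K) ^ j • (w * x) := smul_right_injective _ h4 h3
  rw [← sub_eq_zero]
  apply hinj _ (Submodule.sub_mem _ ((h.galois n).gr_mem g _ x hx) (Submodule.smul_mem _ _ hx))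
  rw [mul_sub, h5, mul_smul_comm, sub_self]

variable (p) in
/-- The homogeneous universal classes. -/
noncomputable def uloc (n : ℕ) : LocPred T (pw X n) where
  P j x := IsHodge T (pw X n) j x ∧
    ∀ i, (p i).E.E _ x ∈ tateClasses (p i).χ ((p i).V.gr (pw X n)) ((p i).ρ n) j
  hodge h := h.1
  sub {j x y} hx hy := ⟨by
    have h1 := hx.1.add (hy.1.smul (-1))
    rwa [neg_one_smul, ← sub_eq_add_neg] at h1, fun i => by
    rw [map_sub]; exact Submodule.sub_mem _ (hx.2 i) (hy.2 i)⟩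
  mul hx hy := ⟨hx.1.mul hy.1, fun i => by rw [map_mul]; exact tate_mul (hx.2 i) (hy.2 i)⟩
  cl {j z} hz := ⟨IsHodge.cl hz, fun i => by
    rw [(p i).cyc hz]
    apply Submodule.smul_mem
    obtain ⟨Δ, hΔ, h1⟩ := ((p i).act.galois n).cl_fix j _ ⟨z, hz, rfl⟩
    exact ⟨(p i).V.cl_mem hz, Δ, hΔ, h1⟩⟩
  lift D hD j hj v hv := by
    obtain ⟨x, hx, hxv⟩ := lifts_hodge T (pw X n) D hD j hj v hv.1
    refine ⟨x, ⟨hx, fun i => ?_⟩, hxv⟩
    set m := (pw X n).dim - 2 * j with hm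
    have hn : (pw X n).dim - j = m + j := by omega
    have hinj : ∀ y ∈ T.W.gr (pw X n) (2 * j), T.W.cl (pw X n) D ^ m * y = 0 → y = 0 :=
      fun y hy h => hl_inj hD.2.1 hj hy h
    have h1 : (p i).E.E _ (T.W.cl (pw X n) D) ∈
        tateClasses (p i).χ ((p i).V.gr (pw X n)) ((p i).ρ n) 1 := by
      rw [(p i).cyc hD.1]
      apply Submodule.smul_mem
      obtain ⟨Δ, hΔ, h1⟩ := ((p i).act.galois n).cl_fix 1 _ ⟨D, hD.1, rfl⟩
      exact ⟨(p i).V.cl_mem hD.1, Δ, hΔ, h1⟩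
    have h2 : ∀ m : ℕ, (p i).E.E _ (T.W.cl (pw X n) D ^ m) ∈
        tateClasses (p i).χ ((p i).V.gr (pw X n)) ((p i).ρ n) m := by
      intro m
      induction m with
      | zero =>
        rw [pow_zero, map_one]
        refine ⟨(p i).V.one_mem _, ⊤, inferInstance, fun g _ => ?_⟩
        rw [map_one, pow_zero, one_smul]
      | succ m ih => rw [pow_succ, map_mul]; exact tate_mul ih h1
    refine tate_lift (p i).act (h2 m) ?_ ((p i).E.gr hx.1) ?_
    · intro y hy h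
      exact mul_inj_E (p i).full (p i).emb hinj hy h
    · rw [← map_mul, hxv, ← hn]
      exact hv.2 i

lemma mem_UU_of {n j : ℕ} {x : T.W.H (pw X n)} (hx : (uloc p n).P j x) : x ∈ UU p n :=
  ⟨ClassPred.sp_of (Q := hodgePred T) hx.1, fun i =>
    le_iSup (fun j => tateClasses (p i).χ ((p i).V.gr (pw X n)) ((p i).ρ n) j) j (hx.2 i)⟩

/-- The intersection form is nondegenerate on the universal classes. -/
theorem UU_nondeg {n : ℕ} {x : T.W.H (pw X n)} (hx : x ∈ UU p n)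
    (h : ∀ y ∈ UU p n, T.W.tr (pw X n) (x * y) = 0) : x = 0 := by
  refine (uloc p n).nondeg_sum (U := UU p n) ?_ (fun a ha => (powSys_UU p).even n a ha)
    (fun j x hx => mem_UU_of hx) hx h
  intro x hx j
  refine ⟨ClassPred.sp_proj (Q := hodgePred T) hx.1 j, fun i => ?_⟩
  rw [R_proj]
  exact TG_proj (hx.2 i) j

end Pool.Agent.X299
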